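import Mathlib
import Pool.Agent.H826R2.Wein.Act

/-! Actions of vector groups by strict contact maps (the torus actions of
`Pool.Agent.H826R2.Wein.Act` without the periods and without local freeness). -/

open scoped Topology ContDiff Manifold
open Set Metric Bundle Pool.Agent.Helper186 Pool.Agent.H826R2.Wein

noncomputable section

namespace Pool.Agent.J4.H23.WN

set_option linter.unusedSectionVars false

variable {E : Type*} [NormedAddCommGroup E] [NormedSpace ℝ E] [FiniteDimensional ℝ E]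
  {P : Type*} [TopologicalSpace P] [ChartedSpace E P] [IsManifold 𝓘(ℝ, E) ∞ P]

/-- An action of the vector group `ℝ^m` preserving the one-form `β`. -/
structure VAct (β : (x : P) → TangentSpace 𝓘(ℝ, E) x →L[ℝ] ℝ) (m : ℕ) where
  act : (Fin m → ℝ) → P → P
  smooth : ContMDiff (𝓘(ℝ, Fin m → ℝ).prod 𝓘(ℝ, E)) 𝓘(ℝ, E) ∞
    (fun p : (Fin m → ℝ) × P => act p.1 p.2)
  zero : ∀ x, act 0 x = x
  add : ∀ θ θ' x, act (θ + θ') x = act θ (act θ' x)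
  strict : ∀ (θ : Fin m → ℝ) (x : P) (u : TangentSpace 𝓘(ℝ, E) x),
    β (act θ x) (mfderiv 𝓘(ℝ, E) 𝓘(ℝ, E) (act θ) x u) = β x u

namespace VAct

variable {β : (x : P) → TangentSpace 𝓘(ℝ, E) x →L[ℝ] ℝ} {m : ℕ} (A : VAct β m)

/-- the infinitesimal generator -/
def X (κ : Fin m → ℝ) (x : P) : TangentSpace 𝓘(ℝ, E) x :=
  (mfderiv 𝓘(ℝ, Fin m → ℝ) 𝓘(ℝ, E) (fun θ => A.act θ x) 0 κ : E)

lemma X_add (κ κ' : Fin m → ℝ) (x : P) : A.X (κ + κ') x = A.X κ x + A.X κ' x :=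
  map_add (mfderiv 𝓘(ℝ, Fin m → ℝ) 𝓘(ℝ, E) (fun θ => A.act θ x) 0) κ κ'

lemma X_smul (c : ℝ) (κ : Fin m → ℝ) (x : P) : A.X (c • κ) x = c • A.X κ x :=
  map_smul (mfderiv 𝓘(ℝ, Fin m → ℝ) 𝓘(ℝ, E) (fun θ => A.act θ x) 0) c κ

lemma smooth_left (x : P) : ContMDiff 𝓘(ℝ, Fin m → ℝ) 𝓘(ℝ, E) ∞ (fun θ => A.act θ x) :=
  A.smooth.comp (contMDiff_id.prodMk contMDiff_const)

lemma smooth_right (θ : Fin m → ℝ) : ContMDiff 𝓘(ℝ, E) 𝓘(ℝ, E) ∞ (A.act θ) :=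
  A.smooth.comp (contMDiff_const.prodMk contMDiff_id)

/-- the one-parameter group generated by `κ`, as a family of maps -/
def fam (κ : Fin m → ℝ) (p : ℝ × P) : P := A.act (p.1 • κ) p.2

lemma smooth_fam (κ : Fin m → ℝ) :
    ContMDiff (𝓘(ℝ, ℝ).prod 𝓘(ℝ, E)) 𝓘(ℝ, E) ∞ (A.fam κ) := by
  have h1 : ContMDiff 𝓘(ℝ, ℝ) 𝓘(ℝ, Fin m → ℝ) ∞ (fun t : ℝ => t • κ) :=
    (contDiff_id.smul contDiff_const).contMDiff
  exact A.smooth.comp ((h1.comp contMDiff_fst).prodMk contMDiff_snd)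

lemma fam_zero (κ : Fin m → ℝ) (x : P) : A.fam κ (0, x) = x := by
  simp [fam, A.zero]

lemma fam_add (κ : Fin m → ℝ) (s t : ℝ) (x : P) :
    A.fam κ (s + t, x) = A.fam κ (s, A.fam κ (t, x)) := by
  simp [fam, ← A.add, add_smul]

lemma hasMFDerivAt_fam_zero (κ : Fin m → ℝ) (x : P) :
    HasMFDerivAt 𝓘(ℝ, ℝ) 𝓘(ℝ, E) (fun t : ℝ => A.fam κ (t, x)) 0
      ((1 : ℝ →L[ℝ] ℝ).smulRight (A.X κ x : E)) := by
  have h1 : HasMFDerivAt 𝓘(ℝ, ℝ) 𝓘(ℝ, Fin m → ℝ) (fun t : ℝ => t • κ) 0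
      ((1 : ℝ →L[ℝ] ℝ).smulRight κ) := by
    have : HasFDerivAt (fun t : ℝ => t • κ) ((1 : ℝ →L[ℝ] ℝ).smulRight κ) (0:ℝ) :=
      ((1 : ℝ →L[ℝ] ℝ).smulRight κ).hasFDerivAt
    exact this.hasMFDerivAt
  have h2 : MDifferentiableAt 𝓘(ℝ, Fin m → ℝ) 𝓘(ℝ, E) (fun θ => A.act θ x) ((0:ℝ) • κ) :=
    (A.smooth_left x).mdifferentiableAt (by simp)
  have h3 := h2.hasMFDerivAt.comp (0:ℝ) h1
  refine h3.congr_mfderiv ?_
  refine ContinuousLinearMap.ext fun (r : ℝ) => ?_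
  have e : (0:ℝ) • κ = 0 := zero_smul ℝ κ
  have h4 : ∀ θ₀ : Fin m → ℝ, θ₀ = 0 → (mfderiv 𝓘(ℝ, Fin m → ℝ) 𝓘(ℝ, E)
      (fun θ => A.act θ x) θ₀ (r • κ) : E) = r • (A.X κ x : E) := by
    rintro _ rfl
    exact map_smul (mfderiv 𝓘(ℝ, Fin m → ℝ) 𝓘(ℝ, E) (fun θ => A.act θ x) 0) r κ
  exact h4 _ e

/-- The orbits of the one-parameter groups are integral curves of the generators. -/
lemma integral (κ : Fin m → ℝ) (x : P) :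
    IsMIntegralCurve (I := 𝓘(ℝ, E)) (fun t : ℝ => A.fam κ (t, x)) (A.X κ) := by
  intro s
  have h0 : HasMFDerivAt 𝓘(ℝ, ℝ) 𝓘(ℝ, ℝ) (fun t : ℝ => t - s) s (1 : ℝ →L[ℝ] ℝ) :=
    ((hasFDerivAt_id s).sub_const s).hasMFDerivAt
  have h1 : HasMFDerivAt 𝓘(ℝ, ℝ) 𝓘(ℝ, E) (fun t : ℝ => A.fam κ (t, A.fam κ (s, x))) (s - s)
      ((1 : ℝ →L[ℝ] ℝ).smulRight (A.X κ (A.fam κ (s, x)) : E)) := by
    rw [sub_self]
    exact A.hasMFDerivAt_fam_zero κ _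
  have h2 := HasMFDerivAt.comp s (g := fun t : ℝ => A.fam κ (t, A.fam κ (s, x)))
    (f := fun t : ℝ => t - s) h1 h0
  have e : ((fun t : ℝ => A.fam κ (t, A.fam κ (s, x))) ∘ fun t : ℝ => t - s) =
      fun t : ℝ => A.fam κ (t, x) := by
    ext1 t
    simp only [Function.comp]
    rw [← A.fam_add, sub_add_cancel]
  rw [e] at h2
  refine h2.congr_mfderiv ?_
  refine ContinuousLinearMap.ext fun r => ?_
  rfl

lemma dS_fam (κ : Fin m → ℝ) (s : ℝ) (x : P) :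
    dS 𝓘(ℝ, E) (A.fam κ) s x = A.X κ (A.fam κ (s, x)) := by
  have h := (A.integral κ x s).mfderiv
  unfold dS
  rw [h]
  show (1 : ℝ →L[ℝ] ℝ) 1 • A.X κ (A.fam κ (s, x)) = _
  simp

/-- The contact Hamiltonian of the generator. -/
def H (κ : Fin m → ℝ) (x : P) : ℝ := β x (A.X κ x)

lemma H_add (κ κ' : Fin m → ℝ) (x : P) : A.H (κ + κ') x = A.H κ x + A.H κ' x := by
  unfold H; rw [A.X_add, map_add]

lemma H_smul (c : ℝ) (κ : Fin m → ℝ) (x : P) : A.H (c • κ) x = c * A.H κ x := by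
  unfold H; rw [A.X_smul, map_smul]; rfl

/-- The generators are smooth vector fields. -/
lemma smooth_X (κ : Fin m → ℝ) : ContMDiff 𝓘(ℝ, E) 𝓘(ℝ, E).tangent ∞
    (fun x => (⟨x, A.X κ x⟩ : TangentBundle 𝓘(ℝ, E) P)) := by
  intro x
  have h1 := contMDiffAt_dS (I := 𝓘(ℝ, E)) (J := 𝓘(ℝ, E)) isOpen_univ (A.smooth_fam κ).contMDiffOn
    (mem_univ ((0:ℝ), x))
  have h2 : ContMDiffAt 𝓘(ℝ, E) (𝓘(ℝ, ℝ).prod 𝓘(ℝ, E)) ∞ (fun x : P => ((0:ℝ), x)) x :=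
    contMDiffAt_const.prodMk contMDiffAt_id
  have h3 := h1.comp x h2
  refine h3.congr_of_eventuallyEq (Filter.Eventually.of_forall fun y => ?_)
  simp only [Function.comp]
  have e1 : ∀ z : P, z = y → (⟨y, A.X κ y⟩ : TangentBundle 𝓘(ℝ, E) P) = ⟨z, A.X κ z⟩ := by
    rintro _ rfl; rfl
  rw [A.dS_fam]
  exact e1 _ (A.fam_zero κ y)

lemma smooth_H (hβ : SmoothForm β) (κ : Fin m → ℝ) :
    ContMDiff 𝓘(ℝ, E) 𝓘(ℝ, ℝ) ∞ (A.H κ) :=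
  fun x => hβ.comp (A.smooth_X κ x) le_rfl

/-- **Cartan's formula.** -/
lemma dH (hβ : SmoothForm β) (κ : Fin m → ℝ) (x : P) (u : TangentSpace 𝓘(ℝ, E) x) :
    dForm 𝓘(ℝ, E) (A.H κ) x u = - extDer 𝓘(ℝ, E) β x (A.X κ x) u := by
  have h1 := hasDerivAt_variation (I := 𝓘(ℝ, E)) (J := 𝓘(ℝ, E)) hβ isOpen_univ
    (A.smooth_fam κ).contMDiffOn (mem_univ ((0:ℝ), x)) u
  have h2 : (fun σ : ℝ => β (A.fam κ (σ, x)) (dX 𝓘(ℝ, E) 𝓘(ℝ, E) (A.fam κ) σ x u)) =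
      fun _ => β x u := by
    ext1 σ
    exact A.strict (σ • κ) x u
  rw [h2] at h1
  have h3 := h1.unique (hasDerivAt_const (0:ℝ) (β x u))
  have h4 : (fun x' : P => β (A.fam κ (0, x')) (dS 𝓘(ℝ, E) (A.fam κ) 0 x')) = A.H κ := by
    ext1 x'
    rw [A.dS_fam]
    have e1 : ∀ z : P, z = x' → β z (A.X κ z) = A.H κ x' := by rintro _ rfl; rfl
    exact e1 _ (A.fam_zero κ x')
  rw [h4] at h3
  have h5 : extDer 𝓘(ℝ, E) β (A.fam κ (0, x)) (dS 𝓘(ℝ, E) (A.fam κ) 0 x)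
      (dX 𝓘(ℝ, E) 𝓘(ℝ, E) (A.fam κ) 0 x u) = extDer 𝓘(ℝ, E) β x (A.X κ x) u := by
    rw [A.dS_fam]
    have e0 : (fun x' : P => A.fam κ (0, x')) = id := by ext1 y; exact A.fam_zero κ y
    have e1 : (dX 𝓘(ℝ, E) 𝓘(ℝ, E) (A.fam κ) 0 x u : E) = u := by
      unfold dX
      rw [e0, mfderiv_id]
      rfl
    have e2 : ∀ (z : P) (w : E), z = x → w = u →
        extDer 𝓘(ℝ, E) β z (A.X κ z) w = extDer 𝓘(ℝ, E) β x (A.X κ x) u := by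
      rintro _ _ rfl rfl; rfl
    exact e2 _ _ (A.fam_zero κ x) e1
  have h6 : extDer 𝓘(ℝ, E) β x (A.X κ x) u + dForm 𝓘(ℝ, E) (A.H κ) x u = 0 := by
    rw [← h5]
    exact h3
  linarith

/-- Equivariance of the generators. -/
lemma push_X {κ κ' : Fin m → ℝ} {g : P → P} (hg : ContMDiff 𝓘(ℝ, E) 𝓘(ℝ, E) ∞ g)
    (h : ∀ (t : ℝ) (x : P), g (A.fam κ (t, x)) = A.fam κ' (t, g x)) (x : P) :
    (mfderiv 𝓘(ℝ, E) 𝓘(ℝ, E) g x (A.X κ x) : E) = A.X κ' (g x) := by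
  have h1 := A.hasMFDerivAt_fam_zero κ' (g x)
  have h2 : HasMFDerivAt 𝓘(ℝ, E) 𝓘(ℝ, E) g (A.fam κ (0, x))
      (mfderiv 𝓘(ℝ, E) 𝓘(ℝ, E) g (A.fam κ (0, x))) :=
    (hg.mdifferentiableAt (by simp)).hasMFDerivAt
  have h3 := HasMFDerivAt.comp (0:ℝ) (g := g) (f := fun t : ℝ => A.fam κ (t, x)) h2
    (A.hasMFDerivAt_fam_zero κ x)
  have e : (g ∘ fun t : ℝ => A.fam κ (t, x)) = fun t : ℝ => A.fam κ' (t, g x) := by
    ext1 t; exact h t x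
  rw [e] at h3
  have h4 := hasMFDerivAt_unique h3 h1
  have h5 := DFunLike.congr_fun h4 (1:ℝ)
  have hone : ((1 : ℝ →L[ℝ] ℝ) 1 • (A.X κ x : E) : E) = A.X κ x := by
    show (1:ℝ) • (A.X κ x : E) = _
    rw [one_smul]
  have hone' : ((1 : ℝ →L[ℝ] ℝ) 1 • (A.X κ' (g x) : E) : E) = A.X κ' (g x) := by
    show (1:ℝ) • (A.X κ' (g x) : E) = _
    rw [one_smul]
  have h6 : ∀ z : P, z = x → (mfderiv 𝓘(ℝ, E) 𝓘(ℝ, E) g z (A.X κ x : E) : E) =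
      mfderiv 𝓘(ℝ, E) 𝓘(ℝ, E) g x (A.X κ x) := by
    rintro _ rfl; rfl
  have h7 : (mfderiv 𝓘(ℝ, E) 𝓘(ℝ, E) g (A.fam κ (0, x))
      ((1 : ℝ →L[ℝ] ℝ) 1 • (A.X κ x : E)) : E) = (1 : ℝ →L[ℝ] ℝ) 1 • (A.X κ' (g x) : E) := h5
  rw [hone, hone'] at h7
  exact (h6 _ (A.fam_zero κ x)).symm.trans h7

/-- Equivariance of the contact Hamiltonians. -/
lemma H_push {κ κ' : Fin m → ℝ} {g : P → P} (hg : ContMDiff 𝓘(ℝ, E) 𝓘(ℝ, E) ∞ g)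
    (h : ∀ (t : ℝ) (x : P), g (A.fam κ (t, x)) = A.fam κ' (t, g x))
    (hβ : ∀ (x : P) (u : TangentSpace 𝓘(ℝ, E) x),
      β (g x) (mfderiv 𝓘(ℝ, E) 𝓘(ℝ, E) g x u) = β x u) (x : P) :
    A.H κ' (g x) = A.H κ x := by
  unfold H
  rw [← hβ x (A.X κ x)]
  have := A.push_X hg h x
  exact congrArg (fun w : E => β (g x) w) this.symm

lemma act_fam (κ θ : Fin m → ℝ) (t : ℝ) (x : P) :
    A.act θ (A.fam κ (t, x)) = A.fam κ (t, A.act θ x) := by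
  simp only [fam]
  rw [← A.add, ← A.add, add_comm]

lemma H_act (κ θ : Fin m → ℝ) (x : P) : A.H κ (A.act θ x) = A.H κ x :=
  A.H_push (A.smooth_right θ) (A.act_fam κ θ) (A.strict θ) x

lemma crit_act (hβ : SmoothForm β) {κ : Fin m → ℝ} {x : P}
    (h : dForm 𝓘(ℝ, E) (A.H κ) x = 0) (θ : Fin m → ℝ) :
    dForm 𝓘(ℝ, E) (A.H κ) (A.act θ x) = 0 := by
  have e1 : A.H κ = A.H κ ∘ A.act (-θ) := by
    ext1 y; exact (A.H_act κ (-θ) y).symm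
  have e2 : A.act (-θ) (A.act θ x) = x := by
    rw [← A.add, neg_add_cancel, A.zero]
  refine ContinuousLinearMap.ext fun u => ?_
  have h1 : mfderiv 𝓘(ℝ, E) 𝓘(ℝ, ℝ) (A.H κ ∘ A.act (-θ)) (A.act θ x) =
      (mfderiv 𝓘(ℝ, E) 𝓘(ℝ, ℝ) (A.H κ) (A.act (-θ) (A.act θ x))).comp
        (mfderiv 𝓘(ℝ, E) 𝓘(ℝ, E) (A.act (-θ)) (A.act θ x)) :=
    mfderiv_comp _ ((A.smooth_H hβ κ).mdifferentiableAt (by simp))
      ((A.smooth_right (-θ)).mdifferentiableAt (by simp))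
  have h2 : dForm 𝓘(ℝ, E) (A.H κ) (A.act θ x) u =
      (dForm 𝓘(ℝ, E) (A.H κ) (A.act (-θ) (A.act θ x)))
        (mfderiv 𝓘(ℝ, E) 𝓘(ℝ, E) (A.act (-θ)) (A.act θ x) u) := by
    show (mfderiv 𝓘(ℝ, E) 𝓘(ℝ, ℝ) (A.H κ) (A.act θ x)) u = _
    conv_lhs => rw [e1]
    rw [h1]
    rfl
  rw [h2]
  have h3 : ∀ (z : P), z = x → ∀ w : E, (dForm 𝓘(ℝ, E) (A.H κ) z) w = (0:ℝ) := by
    rintro _ rfl w
    rw [h]; rfl
  exact h3 _ e2 _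

/-- At a critical point of the contact Hamiltonian the generator is proportional to the Reeb
field. -/
lemma X_eq_of_crit (hc : IsContact β) {R : (x : P) → TangentSpace 𝓘(ℝ, E) x} (hR : IsReeb β R)
    {κ : Fin m → ℝ} {x : P} (h : dForm 𝓘(ℝ, E) (A.H κ) x = 0) :
    A.X κ x = A.H κ x • R x := by
  rw [← sub_eq_zero]
  apply hc.nondeg
  · rw [map_sub, map_smul, hR.unit]
    simp [H]
  · intro v _
    have h1 : extDerL 𝓘(ℝ, E) β x (A.X κ x - A.H κ x • R x) v =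
        extDerL 𝓘(ℝ, E) β x (A.X κ x) v - A.H κ x * extDerL 𝓘(ℝ, E) β x (R x) v := by
      rw [map_sub, map_smul]; rfl
    rw [extDerL_apply, extDerL_apply, extDerL_apply, hR.kernel] at h1
    rw [h1]
    have h2 := A.dH hc.smooth κ x v
    rw [h] at h2
    have h3 : (0 : TangentSpace 𝓘(ℝ, E) x →L[ℝ] ℝ) v = 0 := rfl
    rw [h3] at h2
    linarith

end VAct

end Pool.Agent.J4.H23.WN
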