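import Mathlib

/-! Actions of vector groups on compact spaces: orbits of minimal dimension. -/

open scoped Topology
open Set Filter Metric

noncomputable section

namespace Pool.Agent.J4.H23.WN

variable {V : Type*} [NormedAddCommGroup V] [NormedSpace ℝ V]
  {M : Type*} [TopologicalSpace M]

/-- A continuous action of a vector group on a space, with an invariant momentum map. -/
structure Sys (V M : Type*) [NormedAddCommGroup V] [NormedSpace ℝ V] [TopologicalSpace M] where
  act : V → M → M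
  cont : Continuous fun p : V × M => act p.1 p.2
  zero : ∀ x, act 0 x = x
  add : ∀ v w x, act (v + w) x = act v (act w x)
  mom : M → V →L[ℝ] ℝ
  momc : Continuous mom
  inv : ∀ v x, mom (act v x) = mom x
  e : V
  mom_e : ∀ x, mom x e = 1
  h : M → Submodule ℝ V
  mem_h : ∀ x w, w ∈ h x ↔ ∀ t : ℝ, act (t • w) x = x
  mom_h : ∀ x, ∀ w ∈ h x, mom x w = 0

namespace Sys

variable (S : Sys V M)

lemma comm (v w : V) (x : M) : S.act v (S.act w x) = S.act w (S.act v x) := by
  rw [← S.add, ← S.add, add_comm]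

lemma cont_left (x : M) : Continuous fun v => S.act v x :=
  S.cont.comp (continuous_id.prodMk continuous_const)

lemma cont_right (v : V) : Continuous (S.act v) :=
  S.cont.comp (continuous_const.prodMk continuous_id)

/-- the isotropy group -/
def H (x : M) : AddSubgroup V where
  carrier := {v | S.act v x = x}
  zero_mem' := S.zero x
  add_mem' := by
    intro a b ha hb
    show S.act (a + b) x = x
    rw [S.add, show S.act b x = x from hb]
    exact ha
  neg_mem' := by
    intro a ha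
    show S.act (-a) x = x
    conv_lhs => rw [← show S.act a x = x from ha]
    rw [← S.add, neg_add_cancel, S.zero]

lemma mem_H {x : M} {v : V} : v ∈ S.H x ↔ S.act v x = x := Iff.rfl

lemma h_le_H {x : M} {w : V} (hw : w ∈ S.h x) : w ∈ S.H x := by
  have := (S.mem_h x w).1 hw 1
  rwa [one_smul] at this

lemma act_neg_act (v : V) (x : M) : S.act (-v) (S.act v x) = x := by
  rw [← S.add, neg_add_cancel, S.zero]

lemma H_act (v : V) (x : M) : S.H (S.act v x) = S.H x := by
  ext w
  rw [mem_H, mem_H, S.comm]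
  constructor
  · intro h
    have := congrArg (S.act (-v)) h
    rwa [S.act_neg_act, S.act_neg_act] at this
  · intro h
    rw [h]

lemma h_act (v : V) (x : M) : S.h (S.act v x) = S.h x := by
  ext w
  rw [S.mem_h, S.mem_h]
  refine forall_congr' fun t => ?_
  have := congrArg (fun K : AddSubgroup V => t • w ∈ K) (S.H_act v x)
  exact iff_of_eq this

lemma H_of_act_eq {v : V} {x y : M} (h : S.act v x = y) : S.H y = S.H x := by
  rw [← h, H_act]

lemma h_of_act_eq {v : V} {x y : M} (h : S.act v x = y) : S.h y = S.h x := by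
  rw [← h, h_act]

lemma mom_of_act_eq {v : V} {x y : M} (h : S.act v x = y) : S.mom y = S.mom x := by
  rw [← h, S.inv]

lemma h_le_of_closure [T2Space M] {x z : M} (hz : z ∈ closure (range fun v => S.act v x)) :
    S.h x ≤ S.h z := by
  intro w hw
  rw [S.mem_h]
  intro t
  have hcl : IsClosed {y | S.act (t • w) y = y} :=
    isClosed_eq (S.cont_right _) continuous_id
  have hsub : (range fun v => S.act v x) ⊆ {y | S.act (t • w) y = y} := by
    rintro _ ⟨v, rfl⟩
    show S.act (t • w) (S.act v x) = S.act v x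
    rw [S.comm, (S.mem_h x w).1 hw t]
  exact closure_minimal hsub hcl hz

lemma mom_of_closure {x z : M} (hz : z ∈ closure (range fun v => S.act v x)) :
    S.mom z = S.mom x := by
  have hcl : IsClosed {y | S.mom y = S.mom x} := isClosed_eq S.momc continuous_const
  have hsub : (range fun v => S.act v x) ⊆ {y | S.mom y = S.mom x} := by
    rintro _ ⟨v, rfl⟩
    exact S.inv v x
  exact closure_minimal hsub hcl hz

variable [FiniteDimensional ℝ V]

/-- **Orbits of minimal dimension are compact**, if they are locally isolated in the level sets of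
the momentum map. -/
theorem compact_orbit [T2Space M] [CompactSpace M] {d : ℕ}
    (hd : ∀ x, Module.finrank ℝ (S.h x) ≤ d)
    (hA : ∀ z, Module.finrank ℝ (S.h z) = d → ∀ᶠ y in 𝓝 z, Module.finrank ℝ (S.h y) = d →
      S.mom y = S.mom z → ∃ δ : V, ‖δ‖ ≤ 1 ∧ S.act δ y = z)
    {x : M} (hx : Module.finrank ℝ (S.h x) = d) :
    IsCompact (range fun v => S.act v x) ∧
      ∃ B : ℝ, ∀ v, ∃ k ∈ S.H x, ‖v - k‖ ≤ B := by
  set K := closure (range fun v => S.act v x) with hK
  have hKc : IsCompact K := isClosed_closure.isCompact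
  have hKC : ∀ z ∈ K, Module.finrank ℝ (S.h z) = d := by
    intro z hz
    have h1 := Submodule.finrank_mono (S.h_le_of_closure hz)
    exact le_antisymm (hd z) (hx ▸ h1)
  have hKm : ∀ z ∈ K, S.mom z = S.mom x := fun z hz => S.mom_of_closure hz
  have hU : ∀ z ∈ K, ∃ U : Set M, IsOpen U ∧ z ∈ U ∧ ∀ y ∈ U, y ∈ K →
      ∃ δ : V, ‖δ‖ ≤ 1 ∧ S.act δ y = z := by
    intro z hz
    obtain ⟨U, h1, h2, h3⟩ := mem_nhds_iff.1 (hA z (hKC z hz))
    refine ⟨U, h2, h3, fun y hy hyK => ?_⟩
    exact h1 hy (hKC y hyK) (by rw [hKm y hyK, hKm z hz])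
  choose! U hUo hzU hUδ using hU
  obtain ⟨t, htK, ht⟩ := hKc.elim_nhds_subcover U fun z hz => (hUo z hz).mem_nhds (hzU z hz)
  have hp : ∀ z ∈ K, ∃ p : V, S.act p x = z := by
    intro z hz
    obtain ⟨y, hy, v, rfl⟩ := mem_closure_iff.1 hz (U z) (hUo z hz) (hzU z hz)
    obtain ⟨δ, -, h2⟩ := hUδ z hz _ hy (subset_closure ⟨v, rfl⟩)
    exact ⟨δ + v, by rw [S.add]; exact h2⟩
  choose! p hp using hp
  have hKr : K = range fun v => S.act v x := by
    refine subset_antisymm (fun y hy => ⟨p y, hp y hy⟩) subset_closure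
  refine ⟨hKr ▸ hKc, 1 + ∑ z ∈ t, ‖p z‖, fun v => ?_⟩
  have hv : S.act v x ∈ K := subset_closure ⟨v, rfl⟩
  obtain ⟨z, hzt, hvz⟩ := mem_iUnion₂.1 (ht hv)
  obtain ⟨δ, h1, h2⟩ := hUδ z (htK z hzt) _ hvz hv
  refine ⟨-(p z) + (δ + v), ?_, ?_⟩
  · rw [mem_H, S.add, S.add, h2]
    have h3 := S.act_neg_act (p z) x
    rwa [hp z (htK z hzt)] at h3
  · have : v - (-(p z) + (δ + v)) = p z - δ := by abel
    rw [this]
    calc ‖p z - δ‖ ≤ ‖p z‖ + ‖δ‖ := norm_sub_le _ _
      _ ≤ ∑ z ∈ t, ‖p z‖ + 1 :=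
        add_le_add (Finset.single_le_sum (f := fun z => ‖p z‖) (fun _ _ => norm_nonneg _) hzt) h1
      _ = _ := add_comm _ _

/-- an orbit of dimension one is a periodic orbit -/
theorem closed_of_one {d : ℕ} (hdV : Module.finrank ℝ V = d + 1) {x : M}
    (hx : Module.finrank ℝ (S.h x) = d) (hB : ∃ B : ℝ, ∀ v, ∃ k ∈ S.H x, ‖v - k‖ ≤ B) :
    ∃ T : ℝ, 0 < T ∧ S.act (T • S.e) x = x := by
  obtain ⟨B, hB⟩ := hB
  -- the kernel of the momentum is `h x`
  have hker : ∀ w, S.mom x w = 0 → w ∈ S.h x := by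
    have h1 : S.h x ≤ LinearMap.ker (S.mom x : V →ₗ[ℝ] ℝ) := fun w hw => S.mom_h x w hw
    have h2 : Module.finrank ℝ (LinearMap.ker (S.mom x : V →ₗ[ℝ] ℝ)) ≤ d := by
      have h3 := LinearMap.finrank_range_add_finrank_ker (S.mom x : V →ₗ[ℝ] ℝ)
      have h4 : 0 < Module.finrank ℝ (LinearMap.range (S.mom x : V →ₗ[ℝ] ℝ)) := by
        rw [Module.finrank_pos_iff_exists_ne_zero]
        refine ⟨⟨1, ⟨S.e, S.mom_e x⟩⟩, ?_⟩
        intro h
        exact one_ne_zero (congrArg Subtype.val h)
      omega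
    have h5 := Submodule.eq_of_le_of_finrank_le h1 (by rw [hx]; exact h2)
    intro w hw
    rw [h5]
    exact hw
  set C := ‖S.mom x‖ * B + 1 with hC
  obtain ⟨k, hk, hkB⟩ := hB (C • S.e)
  have h1 : |S.mom x (C • S.e - k)| ≤ ‖S.mom x‖ * B := by
    have := (S.mom x).le_opNorm (C • S.e - k)
    rw [Real.norm_eq_abs] at this
    exact this.trans (mul_le_mul_of_nonneg_left hkB (norm_nonneg _))
  rw [map_sub, map_smul, S.mom_e, smul_eq_mul, mul_one] at h1
  have h2 : 0 < S.mom x k := by
    have := (abs_le.1 h1).2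
    linarith
  refine ⟨S.mom x k, h2, ?_⟩
  have h3 : S.mom x k • S.e - k ∈ S.h x := hker _ (by
    rw [map_sub, map_smul, S.mom_e, smul_eq_mul, mul_one, sub_self])
  have h4 : S.mom x k • S.e = (S.mom x k • S.e - k) + k := by abel
  rw [h4]
  exact (S.H x).add_mem (S.h_le_H h3) hk

end Sys

end Pool.Agent.J4.H23.WN
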