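import Mathlib
import Pool.Agent.J4.H23.WN.Glob

/-! The inverse function theorem and local data in a chart. -/

open scoped Topology ContDiff
open Set Filter Metric

noncomputable section

namespace Pool.Agent.J4.H23.WN

/-- the inverse function theorem -/
lemma loc_inv {X Y : Type*} [NormedAddCommGroup X] [NormedSpace ℝ X] [FiniteDimensional ℝ X]
    [NormedAddCommGroup Y] [NormedSpace ℝ Y] [FiniteDimensional ℝ Y]
    (hdim : Module.finrank ℝ X = Module.finrank ℝ Y) {φ : X → Y} {a : X}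
    (hφ : ContDiffAt ℝ ∞ φ a) (hinj : ∀ v, fderiv ℝ φ a v = 0 → v = 0) :
    ∃ θ : Y → X, θ (φ a) = a ∧ ContDiffAt ℝ ∞ θ (φ a) ∧ (∀ᶠ x in 𝓝 a, θ (φ x) = x) ∧
      ∀ᶠ y in 𝓝 (φ a), φ (θ y) = y := by
  have : CompleteSpace X := FiniteDimensional.complete ℝ X
  have hinj' : Function.Injective (fderiv ℝ φ a).toLinearMap := by
    rw [← LinearMap.ker_eq_bot, LinearMap.ker_eq_bot']
    exact hinj
  let e : X ≃L[ℝ] Y := (LinearEquiv.ofInjectiveOfFinrankEq (fderiv ℝ φ a).toLinearMap hinj'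
    hdim).toContinuousLinearEquiv
  have he0 : (e : X →L[ℝ] Y) = fderiv ℝ φ a := by
    ext v
    rfl
  have he : HasFDerivAt φ (e : X →L[ℝ] Y) a := by
    rw [he0]
    exact (hφ.differentiableAt (by simp)).hasFDerivAt
  have hs : HasStrictFDerivAt φ (e : X →L[ℝ] Y) a := hφ.hasStrictFDerivAt' he (by simp)
  refine ⟨hs.localInverse φ e a, hs.localInverse_apply_image, ?_, hs.eventually_left_inverse,
    hs.eventually_right_inverse⟩
  exact hφ.to_localInverse he (by simp)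

/-- data of a chart around a point -/
structure Ch {V M : Type*} [NormedAddCommGroup V] [NormedSpace ℝ V] [TopologicalSpace M]
    (S : Sys V M) (E : Type*) [NormedAddCommGroup E] [NormedSpace ℝ E] (x : M) where
  ψ : OpenPartialHomeomorph M E
  hx : x ∈ ψ.source
  smF : ∀ w z, z ∈ ψ.target → S.act w (ψ.symm z) ∈ ψ.source →
    ContDiffAt ℝ ∞ (fun p : V × E => ψ (S.act p.1 (ψ.symm p.2))) (w, z)
  smf : ∀ z ∈ ψ.target, ContDiffAt ℝ ∞ (fun z => S.mom (ψ.symm z)) z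
  h_iff : ∀ z ∈ ψ.target, ∀ w, w ∈ S.h (ψ.symm z) ↔
    fderiv ℝ (fun v => ψ (S.act v (ψ.symm z))) 0 w = 0
  crit : ∀ z ∈ ψ.target, ∀ w, (∀ u, fderiv ℝ (fun z => S.mom (ψ.symm z)) z u w = 0) →
    w - S.mom (ψ.symm z) w • S.e ∈ S.h (ψ.symm z)
  critc : ∀ z ∈ ψ.target, ∀ w ∈ S.h (ψ.symm z), ∀ u,
    fderiv ℝ (fun z => S.mom (ψ.symm z)) z u w = 0
  α : E → E →L[ℝ] ℝ
  αg : ∀ z ∈ ψ.target, ∀ w,
    α z (fderiv ℝ (fun v => ψ (S.act v (ψ.symm z))) 0 w) = S.mom (ψ.symm z) w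
  αF : ∀ z ∈ ψ.target, ∀ w, S.act w (ψ.symm z) = ψ.symm z → ∀ u,
    α z (fderiv ℝ (fun z => ψ (S.act w (ψ.symm z))) z u) = α z u

namespace Ch

variable {V E : Type*} [NormedAddCommGroup V] [NormedSpace ℝ V]
  [NormedAddCommGroup E] [NormedSpace ℝ E]
  {M : Type*} [TopologicalSpace M] {S : Sys V M} {x : M} (K : Ch S E x)

/-- the action in the chart -/
def F (w : V) (z : E) : E := K.ψ (S.act w (K.ψ.symm z))

/-- the momentum map in the chart -/
def f (z : E) : V →L[ℝ] ℝ := S.mom (K.ψ.symm z)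

/-- the generators in the chart -/
def g (z : E) : V →L[ℝ] E := fderiv ℝ (fun v => K.F v z) 0

/-- the base point -/
def z0 : E := K.ψ x

lemma z0_mem : K.z0 ∈ K.ψ.target := K.ψ.map_source K.hx

lemma symm_z0 : K.ψ.symm K.z0 = x := K.ψ.left_inv K.hx

lemma F_zero {z : E} (hz : z ∈ K.ψ.target) : K.F 0 z = z := by
  unfold F
  rw [S.zero, K.ψ.right_inv hz]

lemma smF' {w : V} {z : E} (hz : z ∈ K.ψ.target) (h : S.act w (K.ψ.symm z) ∈ K.ψ.source) :
    ContDiffAt ℝ ∞ (fun p : V × E => K.F p.1 p.2) (w, z) := K.smF w z hz h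

lemma smF0 {z : E} (hz : z ∈ K.ψ.target) :
    ContDiffAt ℝ ∞ (fun p : V × E => K.F p.1 p.2) (0, z) :=
  K.smF 0 z hz (by rw [S.zero]; exact K.ψ.map_target hz)

lemma smf' {z : E} (hz : z ∈ K.ψ.target) : ContDiffAt ℝ ∞ K.f z := K.smf z hz

lemma smFl {z : E} (hz : z ∈ K.ψ.target) : ContDiffAt ℝ ∞ (fun v => K.F v z) 0 := by
  have h1 : ContDiffAt ℝ ∞ (fun v : V => (v, z)) 0 := contDiffAt_id.prodMk contDiffAt_const
  exact ContDiffAt.comp (0:V) (g := fun p : V × E => K.F p.1 p.2) (K.smF0 hz) h1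

lemma hasFDerivAt_g {z : E} (hz : z ∈ K.ψ.target) : HasFDerivAt (fun v => K.F v z) (K.g z) 0 :=
  ((K.smFl hz).differentiableAt (by simp)).hasFDerivAt

lemma smg {z : E} (hz : z ∈ K.ψ.target) : ContDiffAt ℝ ∞ K.g z := by
  have h1 : ContDiffAt ℝ ∞ (Function.uncurry fun (z : E) (v : V) => K.F v z) (z, (0:V)) := by
    have h2 : ContDiffAt ℝ ∞ (fun p : E × V => (p.2, p.1)) (z, (0:V)) :=
      contDiffAt_snd.prodMk contDiffAt_fst
    exact ContDiffAt.comp (z, (0:V)) (g := fun p : V × E => K.F p.1 p.2) (K.smF0 hz) h2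
  exact ContDiffAt.fderiv (f := fun (z : E) (v : V) => K.F v z) (g := fun _ => (0:V)) h1
    contDiffAt_const (by simp)

lemma h_iff' {z : E} (hz : z ∈ K.ψ.target) (w : V) : w ∈ S.h (K.ψ.symm z) ↔ K.g z w = 0 :=
  K.h_iff z hz w

lemma near_src {w : V} {z : E} (hz : z ∈ K.ψ.target) (h : S.act w (K.ψ.symm z) ∈ K.ψ.source) :
    ∀ᶠ p : V × E in 𝓝 (w, z), p.2 ∈ K.ψ.target ∧ S.act p.1 (K.ψ.symm p.2) ∈ K.ψ.source := by
  have h1 : ContinuousAt (fun p : V × E => S.act p.1 (K.ψ.symm p.2)) (w, z) := by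
    have h2 : ContinuousAt (fun p : V × E => (p.1, K.ψ.symm p.2)) (w, z) :=
      continuousAt_fst.prodMk (ContinuousAt.comp (f := Prod.snd) (g := K.ψ.symm)
        (K.ψ.continuousAt_symm hz) continuousAt_snd)
    exact ContinuousAt.comp (g := fun q : V × M => S.act q.1 q.2) S.cont.continuousAt h2
  have h3 := h1.eventually_mem (K.ψ.open_source.mem_nhds h)
  have h4 : ∀ᶠ p : V × E in 𝓝 (w, z), p.2 ∈ K.ψ.target :=
    continuousAt_snd.eventually_mem (K.ψ.open_target.mem_nhds hz)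
  filter_upwards [h3, h4] with p hp hp'
  exact ⟨hp', hp⟩

/-- the momentum map is constant along the orbits -/
lemma inv {z : E} (hz : z ∈ K.ψ.target) (w w' : V) : fderiv ℝ K.f z (K.g z w) w' = 0 := by
  have h0 : S.act 0 (K.ψ.symm z) ∈ K.ψ.source := by rw [S.zero]; exact K.ψ.map_target hz
  have h1 : HasDerivAt (fun t : ℝ => K.F (t • w) z) (K.g z w) 0 := by
    have h2 : HasDerivAt (fun t : ℝ => t • w) w 0 := by
      simpa using (hasDerivAt_id (0:ℝ)).smul_const w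
    have h3 : HasFDerivAt (fun v => K.F v z) (K.g z) ((0:ℝ) • w) := by
      rw [zero_smul]; exact K.hasFDerivAt_g hz
    exact HasFDerivAt.comp_hasDerivAt (0:ℝ) h3 h2
  have h4 : HasFDerivAt K.f (fderiv ℝ K.f z) (K.F ((0:ℝ) • w) z) := by
    rw [zero_smul, K.F_zero hz]
    exact ((K.smf' hz).differentiableAt (by simp)).hasFDerivAt
  have h5 : HasDerivAt (fun t : ℝ => K.f (K.F (t • w) z)) (fderiv ℝ K.f z (K.g z w)) 0 :=
    HasFDerivAt.comp_hasDerivAt (l := K.f) (f := fun t : ℝ => K.F (t • w) z) (0:ℝ) h4 h1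
  have h6 : (fun t : ℝ => K.f (K.F (t • w) z)) =ᶠ[𝓝 0] fun _ => K.f z := by
    have h7 : ContinuousAt (fun t : ℝ => (t • w, z)) 0 := by fun_prop
    have h8 : ∀ᶠ t : ℝ in 𝓝 0, S.act (t • w) (K.ψ.symm z) ∈ K.ψ.source := by
      have h9 : Tendsto (fun t : ℝ => (t • w, z)) (𝓝 0) (𝓝 ((0:V), z)) := by
        have := h7.tendsto
        simpa using this
      filter_upwards [h9.eventually (K.near_src hz h0)] with t ht
      exact ht.2
    filter_upwards [h8] with t ht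
    show S.mom (K.ψ.symm (K.ψ (S.act (t • w) (K.ψ.symm z)))) = S.mom (K.ψ.symm z)
    rw [K.ψ.left_inv ht, S.inv]
  have h10 : HasDerivAt (fun t : ℝ => K.f (K.F (t • w) z)) 0 0 :=
    (hasDerivAt_const (0:ℝ) (K.f z)).congr_of_eventuallyEq h6
  rw [h5.unique h10]
  rfl

lemma f_e (z : E) : K.f z S.e = 1 := S.mom_e _

lemma df_e {z : E} (hz : z ∈ K.ψ.target) (u : E) : fderiv ℝ K.f z u S.e = 0 := by
  have h1 : HasFDerivAt (fun z => K.f z S.e)
      ((ContinuousLinearMap.apply ℝ ℝ S.e).comp (fderiv ℝ K.f z)) z :=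
    (ContinuousLinearMap.apply ℝ ℝ S.e).hasFDerivAt.comp z
      ((K.smf' hz).differentiableAt (by simp)).hasFDerivAt
  have h2 : (fun z => K.f z S.e) = fun _ => (1:ℝ) := by
    ext z; exact K.f_e z
  rw [h2] at h1
  have h3 := h1.unique (hasFDerivAt_const (1:ℝ) z)
  exact DFunLike.congr_fun h3 u

end Ch

end Pool.Agent.J4.H23.WN
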