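import Mathlib
import Pool.Agent.J4.H23.WN.Inv

/-! The slice of an orbit. -/

open scoped Topology ContDiff
open Set Filter Metric

noncomputable section

namespace Pool.Agent.J4.H23.WN

variable {V E W : Type*} [NormedAddCommGroup V] [NormedSpace ℝ V]
  [NormedAddCommGroup E] [NormedSpace ℝ E]
  [NormedAddCommGroup W] [NormedSpace ℝ W]
  {M : Type*} [TopologicalSpace M]

lemma finrank_of_compl {X : Type*} [AddCommGroup X] [Module ℝ X] [FiniteDimensional ℝ V]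
    {H : Submodule ℝ V} {ι : X →ₗ[ℝ] V}
    (hinj : ∀ p, ι p ∈ H → p = 0) (hspan : ∀ v, ∃ p, v - ι p ∈ H) :
    Module.finrank ℝ H + Module.finrank ℝ X = Module.finrank ℝ V := by
  have h1 : Function.Injective (H.mkQ.comp ι) := by
    rw [← LinearMap.ker_eq_bot, LinearMap.ker_eq_bot']
    intro p hp
    apply hinj
    simpa using hp
  have h2 : Function.Surjective (H.mkQ.comp ι) := by
    intro q
    obtain ⟨v, rfl⟩ := H.mkQ_surjective q
    obtain ⟨p, hp⟩ := hspan v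
    refine ⟨p, ?_⟩
    show H.mkQ (ι p) = H.mkQ v
    rw [← sub_eq_zero, ← map_sub, Submodule.mkQ_apply, Submodule.Quotient.mk_eq_zero]
    have := H.neg_mem hp
    rwa [neg_sub] at this
  have h3 := (LinearEquiv.ofBijective (H.mkQ.comp ι) ⟨h1, h2⟩).finrank_eq
  have h4 := H.finrank_quotient_add_finrank
  omega

lemma compl_of_finrank {X : Type*} [AddCommGroup X] [Module ℝ X] [FiniteDimensional ℝ X]
    [FiniteDimensional ℝ V]
    {H : Submodule ℝ V} {ι : X →ₗ[ℝ] V}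
    (hinj : ∀ p, ι p ∈ H → p = 0)
    (hd : Module.finrank ℝ V ≤ Module.finrank ℝ H + Module.finrank ℝ X) (v : V) :
    ∃ p, v - ι p ∈ H := by
  have h1 : Function.Injective (H.mkQ.comp ι) := by
    rw [← LinearMap.ker_eq_bot, LinearMap.ker_eq_bot']
    intro p hp
    apply hinj
    simpa using hp
  have h4 := H.finrank_quotient_add_finrank
  have h5 := LinearMap.finrank_le_finrank_of_injective h1
  have h2 : Function.Surjective (H.mkQ.comp ι) :=
    (LinearMap.injective_iff_surjective_of_finrank_eq_finrank (by omega)).1 h1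
  obtain ⟨p, hp⟩ := h2 (H.mkQ v)
  refine ⟨p, ?_⟩
  have h6 : H.mkQ (v - ι p) = 0 := by
    rw [map_sub, sub_eq_zero]
    exact hp.symm
  rwa [Submodule.mkQ_apply, Submodule.Quotient.mk_eq_zero] at h6

/-- a complement of the isotropy algebra, containing the Reeb direction -/
structure Cpl (S : Sys V M) (x : M) (W : Type*) [NormedAddCommGroup W] [NormedSpace ℝ W] where
  ι : ℝ × W →L[ℝ] V
  ιe : ι (1, 0) = S.e
  inj : ∀ p, ι p ∈ S.h x → p = 0
  span : ∀ v, ∃ p, v - ι p ∈ S.h x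

namespace Cpl

variable {S : Sys V M} {x : M} (C : Cpl S x W)

/-- the part complementary to the Reeb direction -/
def j : W →L[ℝ] V := C.ι.comp (ContinuousLinearMap.inr ℝ ℝ W)

lemma ι_eq (p : ℝ × W) : C.ι p = p.1 • S.e + C.j p.2 := by
  have h1 : p = p.1 • ((1:ℝ), (0:W)) + (0, p.2) := by
    ext <;> simp
  conv_lhs => rw [h1]
  rw [map_add, map_smul, C.ιe]
  rfl

include C in
lemma finrank_eq [FiniteDimensional ℝ V] :
    Module.finrank ℝ (S.h x) + Module.finrank ℝ (ℝ × W) = Module.finrank ℝ V :=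
  finrank_of_compl (ι := C.ι.toLinearMap) C.inj C.span

end Cpl

/-- data of a slice -/
structure Sl {S : Sys V M} {x : M} (K : Ch S E x) (C : Cpl S x W) where
  τ : E →L[ℝ] (ℝ × W)
  τg : ∀ p, τ (K.g K.z0 (C.ι p)) = p
  δ : E → ℝ × W
  δ0 : δ K.z0 = 0
  smδ : ContDiffAt ℝ ∞ δ K.z0
  on : ∀ᶠ z in 𝓝 K.z0, τ (K.F (C.ι (δ z)) z - K.z0) = 0
  uniq : ∀ᶠ q : (ℝ × W) × E in 𝓝 (0, K.z0), τ (K.F (C.ι q.1) q.2 - K.z0) = 0 → q.1 = δ q.2
  disc : ∃ r > 0, ∀ᶠ z in 𝓝 K.z0, ∀ p, ‖p‖ < r → K.F (C.ι p) z = z → p = 0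

lemma exists_sl [FiniteDimensional ℝ E] [FiniteDimensional ℝ W] {S : Sys V M} {x : M}
    (K : Ch S E x) (C : Cpl S x W) : Nonempty (Sl K C) := by
  have hz0 := K.z0_mem
  have hinj : ∀ p, K.g K.z0 (C.ι p) = 0 → p = 0 := by
    intro p hp
    apply C.inj
    have := (K.h_iff' hz0 (C.ι p)).2 hp
    rwa [K.symm_z0] at this
  obtain ⟨τ₀, hτ₀⟩ := ((K.g K.z0).comp C.ι).toLinearMap.exists_leftInverse_of_injective (by
    rw [LinearMap.ker_eq_bot']
    exact hinj)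
  let τ : E →L[ℝ] (ℝ × W) := LinearMap.toContinuousLinearMap τ₀
  have hτ : ∀ p, τ (K.g K.z0 (C.ι p)) = p := fun p => LinearMap.congr_fun hτ₀ p
  let Θ : (ℝ × W) × E → (ℝ × W) × E := fun q => (τ (K.F (C.ι q.1) q.2 - K.z0), q.2)
  have hΘ0 : Θ (0, K.z0) = (0, K.z0) := by
    show (τ (K.F (C.ι 0) K.z0 - K.z0), K.z0) = (0, K.z0)
    rw [map_zero, K.F_zero hz0, sub_self, map_zero]
  have hFι : ContDiffAt ℝ ∞ (fun q : (ℝ × W) × E => K.F (C.ι q.1) q.2) (0, K.z0) := by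
    have h1 : ContDiffAt ℝ ∞ (fun q : (ℝ × W) × E => (C.ι q.1, q.2)) (0, K.z0) :=
      (C.ι.contDiff.contDiffAt.comp _ contDiffAt_fst).prodMk contDiffAt_snd
    have h2 : ContDiffAt ℝ ∞ (fun p : V × E => K.F p.1 p.2)
        ((fun q : (ℝ × W) × E => (C.ι q.1, q.2)) (0, K.z0)) := by
      show ContDiffAt ℝ ∞ (fun p : V × E => K.F p.1 p.2) (C.ι 0, K.z0)
      rw [map_zero]
      exact K.smF0 hz0
    exact ContDiffAt.comp (0, K.z0) (g := fun p : V × E => K.F p.1 p.2) h2 h1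
  have hΘ : ContDiffAt ℝ ∞ Θ (0, K.z0) :=
    (τ.contDiff.contDiffAt.comp _ (hFι.sub contDiffAt_const)).prodMk contDiffAt_snd
  have hΘinj : ∀ q, fderiv ℝ Θ (0, K.z0) q = 0 → q = 0 := by
    rintro ⟨p, u⟩ hq
    have h1 : HasFDerivAt Θ (fderiv ℝ Θ (0, K.z0)) (0, K.z0) :=
      (hΘ.differentiableAt (by simp)).hasFDerivAt
    have h2 : HasDerivAt (fun t : ℝ => (t • (p, u) + ((0 : ℝ × W), K.z0))) (p, u) 0 := by
      have := ((hasDerivAt_id (0:ℝ)).smul_const (p, u)).add_const ((0 : ℝ × W), K.z0)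
      simpa using this
    have h3 : HasDerivAt (fun t : ℝ => Θ (t • (p, u) + ((0 : ℝ × W), K.z0)))
        (fderiv ℝ Θ (0, K.z0) (p, u)) 0 := by
      have h4 : HasFDerivAt Θ (fderiv ℝ Θ (0, K.z0)) ((0:ℝ) • (p, u) + ((0 : ℝ × W), K.z0)) := by
        rw [zero_smul, zero_add]; exact h1
      exact HasFDerivAt.comp_hasDerivAt (l := Θ)
        (f := fun t : ℝ => (t • (p, u) + ((0 : ℝ × W), K.z0))) (0:ℝ) h4 h2
    rw [hq] at h3
    have h5 : HasDerivAt (fun t : ℝ => t • u + K.z0) (0:E) 0 := by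
      have := (ContinuousLinearMap.snd ℝ (ℝ × W) E).hasFDerivAt.comp_hasDerivAt (0:ℝ) h3
      simpa [Θ, Function.comp_def] using this
    have h6 : HasDerivAt (fun t : ℝ => t • u + K.z0) u 0 := by
      have := ((hasDerivAt_id (0:ℝ)).smul_const u).add_const K.z0
      simpa using this
    have hu : u = 0 := h6.unique h5
    subst hu
    have h7 : HasDerivAt (fun t : ℝ => τ (K.F (C.ι (t • p)) K.z0 - K.z0)) (0 : ℝ × W) 0 := by
      have := (ContinuousLinearMap.fst ℝ (ℝ × W) E).hasFDerivAt.comp_hasDerivAt (0:ℝ) h3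
      have e1 : (fun t : ℝ => τ (K.F (C.ι (t • p)) K.z0 - K.z0)) =
          (ContinuousLinearMap.fst ℝ (ℝ × W) E) ∘
            (fun t : ℝ => Θ (t • (p, (0:E)) + ((0 : ℝ × W), K.z0))) := by
        ext1 t
        show _ = τ (K.F (C.ι ((t • (p, (0:E)) + ((0 : ℝ × W), K.z0)).1))
          ((t • (p, (0:E)) + ((0 : ℝ × W), K.z0)).2) - K.z0)
        have e2 : (t • (p, (0:E)) + ((0 : ℝ × W), K.z0)).1 = t • p := by simp
        have e3 : (t • (p, (0:E)) + ((0 : ℝ × W), K.z0)).2 = K.z0 := by simp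
        rw [e2, e3]
      rw [e1]
      simpa using this
    have h8 : HasDerivAt (fun t : ℝ => τ (K.F (C.ι (t • p)) K.z0 - K.z0))
        (τ (K.g K.z0 (C.ι p))) 0 := by
      have h9 : HasDerivAt (fun t : ℝ => C.ι (t • p)) (C.ι p) 0 := by
        have := ((hasDerivAt_id (0:ℝ)).smul_const (C.ι p))
        simpa using this
      have h10 : HasFDerivAt (fun v => K.F v K.z0) (K.g K.z0) (C.ι ((0:ℝ) • p)) := by
        rw [zero_smul, map_zero]; exact K.hasFDerivAt_g hz0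
      have h11 : HasDerivAt (fun t : ℝ => K.F (C.ι (t • p)) K.z0) (K.g K.z0 (C.ι p)) 0 :=
        HasFDerivAt.comp_hasDerivAt (l := fun v => K.F v K.z0)
          (f := fun t : ℝ => C.ι (t • p)) (0:ℝ) h10 h9
      exact τ.hasFDerivAt.comp_hasDerivAt (0:ℝ) (h11.sub_const K.z0)
    have h12 := h8.unique h7
    rw [hτ] at h12
    rw [h12]; rfl
  obtain ⟨θ, hθ0, hθs, hθl, hθr⟩ := loc_inv rfl hΘ hΘinj
  rw [hΘ0] at hθ0 hθs hθr
  refine ⟨⟨τ, hτ, fun z => (θ (0, z)).1, ?_, ?_, ?_, ?_, ?_⟩⟩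
  · show (θ (0, K.z0)).1 = 0
    rw [hθ0]
  · have h1 : ContDiffAt ℝ ∞ (fun z : E => ((0 : ℝ × W), z)) K.z0 :=
      contDiffAt_const.prodMk contDiffAt_id
    have h2 : ContDiffAt ℝ ∞ (fun z : E => θ ((0 : ℝ × W), z)) K.z0 :=
      ContDiffAt.comp K.z0 (g := θ) hθs h1
    exact contDiffAt_fst.comp K.z0 h2
  · have h1 : Tendsto (fun z : E => ((0 : ℝ × W), z)) (𝓝 K.z0) (𝓝 ((0 : ℝ × W), K.z0)) :=
      (continuous_const.prodMk continuous_id).tendsto _
    filter_upwards [h1.eventually hθr] with z hz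
    have h2 : (θ (0, z)).2 = z := congrArg Prod.snd hz
    have h3 : τ (K.F (C.ι (θ (0, z)).1) (θ (0, z)).2 - K.z0) = 0 := congrArg Prod.fst hz
    rw [h2] at h3
    exact h3
  · filter_upwards [hθl] with q hq h
    have h1 : Θ q = (0, q.2) := by
      show (τ (K.F (C.ι q.1) q.2 - K.z0), q.2) = _
      rw [h]
    rw [h1] at hq
    show q.1 = (θ (0, q.2)).1
    rw [hq]
  · obtain ⟨r, hr, hb⟩ := Metric.eventually_nhds_iff_ball.1 hθl
    refine ⟨r, hr, ?_⟩
    have h1 : ∀ᶠ z in 𝓝 K.z0, z ∈ ball K.z0 r := ball_mem_nhds _ hr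
    filter_upwards [h1, K.ψ.open_target.mem_nhds hz0] with z hz hzt p hp hF
    have h2 : (p, z) ∈ ball ((0 : ℝ × W), K.z0) r := by
      rw [mem_ball, Prod.dist_eq]
      exact max_lt (by simpa using hp) hz
    have h3 : ((0 : ℝ × W), z) ∈ ball ((0 : ℝ × W), K.z0) r := by
      rw [mem_ball, Prod.dist_eq]
      exact max_lt (by simpa using hr) hz
    have h4 : Θ (p, z) = Θ (0, z) := by
      show (τ (K.F (C.ι p) z - K.z0), z) = (τ (K.F (C.ι 0) z - K.z0), z)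
      rw [hF, map_zero, K.F_zero hzt]
    have h5 := hb _ h2
    rw [h4, hb _ h3] at h5
    exact (congrArg Prod.fst h5).symm

namespace Sl

variable {S : Sys V M} {x : M} {K : Ch S E x} {C : Cpl S x W} (s : Sl K C)

/-- the tangential part of the generators stays nondegenerate -/
lemma bound : ∀ᶠ z in 𝓝 K.z0, ∀ p, ‖p‖ ≤ 2 * ‖s.τ (K.g z (C.ι p))‖ := by
  have hc : ContinuousAt (fun z => (s.τ.comp ((K.g z).comp C.ι) - ContinuousLinearMap.id ℝ _))
      K.z0 := by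
    have h1 : ContinuousAt K.g K.z0 := (K.smg K.z0_mem).continuousAt
    exact ((continuousAt_const (y := s.τ)).clm_comp (h1.clm_comp continuousAt_const)).sub
      continuousAt_const
  have h0 : s.τ.comp ((K.g K.z0).comp C.ι) - ContinuousLinearMap.id ℝ _ = 0 := by
    ext p <;> simp [s.τg]
  have h2 : ∀ᶠ z in 𝓝 K.z0,
      ‖s.τ.comp ((K.g z).comp C.ι) - ContinuousLinearMap.id ℝ _‖ < 1 / 2 := by
    have h3 := hc.norm.tendsto
    simp only [h0, norm_zero] at h3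
    exact h3.eventually (gt_mem_nhds (by norm_num))
  filter_upwards [h2] with z hz p
  have h3 := (s.τ.comp ((K.g z).comp C.ι) - ContinuousLinearMap.id ℝ _).le_opNorm p
  have h4 : (s.τ.comp ((K.g z).comp C.ι) - ContinuousLinearMap.id ℝ (ℝ × W)) p =
      s.τ (K.g z (C.ι p)) - p := rfl
  rw [h4] at h3
  have h5 : ‖p‖ ≤ ‖s.τ (K.g z (C.ι p))‖ + ‖s.τ (K.g z (C.ι p)) - p‖ := by
    calc ‖p‖ = ‖s.τ (K.g z (C.ι p)) - (s.τ (K.g z (C.ι p)) - p)‖ := by congr 1; abel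
      _ ≤ _ := norm_sub_le _ _
  have h6 : ‖s.τ.comp ((K.g z).comp C.ι) - ContinuousLinearMap.id ℝ (ℝ × W)‖ * ‖p‖ ≤
      1 / 2 * ‖p‖ := mul_le_mul_of_nonneg_right hz.le (norm_nonneg _)
  linarith

include s in
lemma inj_near : ∀ᶠ z in 𝓝 K.z0, ∀ p, C.ι p ∈ S.h (K.ψ.symm z) → p = 0 := by
  filter_upwards [s.bound, K.ψ.open_target.mem_nhds K.z0_mem] with z hz hzt p hp
  have h1 := hz p
  rw [(K.h_iff' hzt _).1 hp, map_zero, norm_zero, mul_zero] at h1
  exact norm_le_zero_iff.1 h1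

/-- every vector is tangent to the slice modulo the orbit -/
lemma surj_near [FiniteDimensional ℝ W] : ∀ᶠ z in 𝓝 K.z0, ∀ u : E, ∃ p,
    s.τ (u - K.g z (C.ι p)) = 0 := by
  filter_upwards [s.bound] with z hz u
  have hinj : Function.Injective (s.τ.comp ((K.g z).comp C.ι)).toLinearMap := by
    rw [← LinearMap.ker_eq_bot, LinearMap.ker_eq_bot']
    intro p hp
    have h1 := hz p
    have h2 : s.τ (K.g z (C.ι p)) = 0 := hp
    rw [h2, norm_zero, mul_zero] at h1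
    exact norm_le_zero_iff.1 h1
  obtain ⟨p, hp⟩ := (LinearMap.injective_iff_surjective.1 hinj) (s.τ u)
  refine ⟨p, ?_⟩
  rw [map_sub, sub_eq_zero]
  exact hp.symm

include s in
lemma le_near [FiniteDimensional ℝ V] [FiniteDimensional ℝ W] :
    ∀ᶠ z in 𝓝 K.z0, Module.finrank ℝ (S.h (K.ψ.symm z)) ≤ Module.finrank ℝ (S.h x) := by
  filter_upwards [s.inj_near] with z hz
  have h1 := C.finrank_eq
  have h2 : Function.Injective ((S.h (K.ψ.symm z)).mkQ.comp C.ι.toLinearMap) := by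
    rw [← LinearMap.ker_eq_bot, LinearMap.ker_eq_bot']
    intro p hp
    apply hz
    simpa using hp
  have h4 := (S.h (K.ψ.symm z)).finrank_quotient_add_finrank
  have h5 := LinearMap.finrank_le_finrank_of_injective h2
  omega

end Sl

end Pool.Agent.J4.H23.WN
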