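import Mathlib
import Pool.Agent.J4.H23.WN.Slice

/-! Nondegenerate orbits: the orbits of the same dimension nearby. -/

open scoped Topology ContDiff
open Set Filter Metric

noncomputable section

namespace Pool.Agent.J4.H23.WN

variable {V E : Type*} [NormedAddCommGroup V] [NormedSpace ℝ V]
  [NormedAddCommGroup E] [NormedSpace ℝ E] {k : ℕ}
  {M : Type*} [TopologicalSpace M]
  {S : Sys V M} {x : M} {K : Ch S E x} {C : Cpl S x (Fin k → ℝ)}

/-- nondegeneracy in a chart -/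
def Ndg (K : Ch S E x) (η : V) : Prop :=
  ∀ v, (∀ w, fderiv ℝ K.f K.z0 v w = 0) →
    (∀ u, (∀ w, fderiv ℝ K.f K.z0 u w = 0) → fderiv ℝ (fderiv ℝ K.f) K.z0 v u η = 0) →
    ∃ w, v = K.g K.z0 w

lemma dir_comp {X Y : Type*} [NormedAddCommGroup X] [NormedSpace ℝ X] [NormedAddCommGroup Y]
    [NormedSpace ℝ Y] {φ : X → Y} (h : DifferentiableAt ℝ φ 0) {q : X}
    (hq : fderiv ℝ φ 0 q = 0) (L : Y →L[ℝ] ℝ) :
    HasDerivAt (fun t : ℝ => L (φ (t • q))) 0 0 := by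
  have h1 : HasDerivAt (fun t : ℝ => t • q) q 0 := by
    simpa using (hasDerivAt_id (0:ℝ)).smul_const q
  have h2 : HasFDerivAt φ (fderiv ℝ φ 0) ((0:ℝ) • q) := by
    rw [zero_smul]; exact h.hasFDerivAt
  have h3 : HasDerivAt (fun t : ℝ => φ (t • q)) (fderiv ℝ φ 0 q) 0 :=
    HasFDerivAt.comp_hasDerivAt (l := φ) (f := fun t : ℝ => t • q) (0:ℝ) h2 h1
  have h4 : HasDerivAt (fun t : ℝ => L (φ (t • q))) (L (fderiv ℝ φ 0 q)) 0 :=
    L.hasFDerivAt.comp_hasDerivAt (0:ℝ) h3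
  rwa [hq, map_zero] at h4

/-- the values of a functional on the complement -/
def Cpl.mm (C : Cpl S x (Fin k → ℝ)) (μ : V →L[ℝ] ℝ) : Fin k → ℝ :=
  fun i => μ (C.j (Pi.single i 1))

lemma Cpl.eq_of_mm (C : Cpl S x (Fin k → ℝ)) {μ : V →L[ℝ] ℝ} (h : C.mm μ = 0) (w : Fin k → ℝ) :
    μ (C.j w) = 0 := by
  have h1 : (μ.comp C.j).toLinearMap = 0 := by
    refine LinearMap.pi_ext' fun i => ?_
    ext
    exact congrFun h i
  exact LinearMap.congr_fun h1 w

namespace Sl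

variable (s : Sl K C)

/-- the slice -/
abbrev Sg : Submodule ℝ E := LinearMap.ker s.τ.toLinearMap

lemma mem_Sg {v : E} : v ∈ s.Sg ↔ s.τ v = 0 := Iff.rfl

lemma sm_df {z : E} (hz : z ∈ K.ψ.target) : ContDiffAt ℝ ∞ (fderiv ℝ K.f) z :=
  (K.smf' hz).fderiv_right (by simp)

variable [FiniteDimensional ℝ E]

/-- a basis of the slice -/
def bs : Module.Basis (Fin (Module.finrank ℝ s.Sg)) ℝ s.Sg := Module.finBasis ℝ s.Sg

/-- the normal equations -/
def Ps (η : V) (p : s.Sg × (Fin k → ℝ)) : (Fin (Module.finrank ℝ s.Sg) → ℝ) × (Fin k → ℝ) :=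
  (fun i => fderiv ℝ K.f (K.z0 + (p.1 : E)) (s.bs i : E) (η + C.j p.2),
    C.mm (K.f (K.z0 + (p.1 : E))))

lemma Ps_fst (η : V) (p : s.Sg × (Fin k → ℝ)) (i) :
    (s.Ps η p).1 i = fderiv ℝ K.f (K.z0 + (p.1 : E)) (s.bs i : E) (η + C.j p.2) := rfl

lemma Ps_snd (η : V) (p : s.Sg × (Fin k → ℝ)) :
    (s.Ps η p).2 = C.mm (K.f (K.z0 + (p.1 : E))) := rfl

/-- the first component vanishes iff the differential vanishes on the slice -/
lemma Ps_fst_zero {η : V} {p : s.Sg × (Fin k → ℝ)} :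
    (s.Ps η p).1 = 0 ↔ ∀ u, s.τ u = 0 → fderiv ℝ K.f (K.z0 + (p.1 : E)) u (η + C.j p.2) = 0 := by
  constructor
  · intro h u hu
    have h1 : ((ContinuousLinearMap.apply ℝ ℝ (η + C.j p.2)).comp
        (fderiv ℝ K.f (K.z0 + (p.1 : E)))).toLinearMap.comp s.Sg.subtype = 0 := by
      refine s.bs.ext fun i => ?_
      exact congrFun h i
    exact LinearMap.congr_fun h1 ⟨u, hu⟩
  · intro h
    ext i
    exact h _ (s.bs i).2

lemma sm_Ps (η : V) : ContDiffAt ℝ ∞ (s.Ps η) 0 := by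
  have hz0 := K.z0_mem
  have hb : ContDiffAt ℝ ∞ (fun p : s.Sg × (Fin k → ℝ) => K.z0 + (p.1 : E)) 0 :=
    contDiffAt_const.add (s.Sg.subtypeL.contDiff.contDiffAt.comp _ contDiffAt_fst)
  have h0 : K.z0 + (((0 : s.Sg × (Fin k → ℝ)).1 : s.Sg) : E) = K.z0 := by simp
  have h1 : ContDiffAt ℝ ∞ (fun p : s.Sg × (Fin k → ℝ) => fderiv ℝ K.f (K.z0 + (p.1 : E))) 0 := by
    have h2 : ContDiffAt ℝ ∞ (fderiv ℝ K.f) (K.z0 + (((0 : s.Sg × (Fin k → ℝ)).1 : s.Sg) : E)) := by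
      rw [h0]; exact sm_df hz0
    exact ContDiffAt.comp (0 : s.Sg × (Fin k → ℝ)) (g := fderiv ℝ K.f)
      (f := fun p : s.Sg × (Fin k → ℝ) => K.z0 + (p.1 : E)) h2 hb
  have h4 : ContDiffAt ℝ ∞ (fun p : s.Sg × (Fin k → ℝ) => η + C.j p.2) 0 :=
    contDiffAt_const.add (C.j.contDiff.contDiffAt.comp _ contDiffAt_snd)
  have h5 : ContDiffAt ℝ ∞ (fun p : s.Sg × (Fin k → ℝ) => K.f (K.z0 + (p.1 : E))) 0 := by
    have h2 : ContDiffAt ℝ ∞ K.f (K.z0 + (((0 : s.Sg × (Fin k → ℝ)).1 : s.Sg) : E)) := by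
      rw [h0]; exact K.smf' hz0
    exact ContDiffAt.comp (0 : s.Sg × (Fin k → ℝ)) (g := K.f)
      (f := fun p : s.Sg × (Fin k → ℝ) => K.z0 + (p.1 : E)) h2 hb
  refine ContDiffAt.prodMk (contDiffAt_pi.2 fun i => ?_) (contDiffAt_pi.2 fun i => ?_)
  · exact (h1.clm_apply contDiffAt_const).clm_apply h4
  · exact h5.clm_apply contDiffAt_const

lemma Ps_zero {η : V} (hη : η ∈ S.h x) : s.Ps η 0 = (0, C.mm (K.f K.z0)) := by
  have h0 : K.z0 + (((0 : s.Sg × (Fin k → ℝ)).1 : s.Sg) : E) = K.z0 := by simp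
  have h1 : (s.Ps η 0).1 = 0 := by
    rw [Ps_fst_zero]
    intro u _
    rw [h0]
    have h2 : η + C.j (0 : s.Sg × (Fin k → ℝ)).2 = η := by simp
    rw [h2]
    exact K.critc K.z0 K.z0_mem η (by rw [K.symm_z0]; exact hη) u
  have h3 : (s.Ps η 0).2 = C.mm (K.f K.z0) := by
    rw [Ps_snd, h0]
  exact Prod.ext h1 h3

omit [FiniteDimensional ℝ E] in
/-- the derivative of the momentum of an isotropy direction along the orbits vanishes to second
order -/
lemma hess_orbit {η : V} (hη : η ∈ S.h x) (v : E) (w : V) :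
    fderiv ℝ (fderiv ℝ K.f) K.z0 v (K.g K.z0 w) η = 0 := by
  have hz0 := K.z0_mem
  have h1 : HasDerivAt (fun t : ℝ => K.z0 + t • v) v 0 := by
    have := ((hasDerivAt_id (0:ℝ)).smul_const v).const_add K.z0
    simpa using this
  have e0 : K.z0 + (0:ℝ) • v = K.z0 := by simp
  have h2 : HasDerivAt (fun t : ℝ => fderiv ℝ K.f (K.z0 + t • v))
      (fderiv ℝ (fderiv ℝ K.f) K.z0 v) 0 := by
    have h3 : HasFDerivAt (fderiv ℝ K.f) (fderiv ℝ (fderiv ℝ K.f) K.z0) (K.z0 + (0:ℝ) • v) := by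
      rw [e0]; exact ((sm_df hz0).differentiableAt (by simp)).hasFDerivAt
    exact HasFDerivAt.comp_hasDerivAt (l := fderiv ℝ K.f)
      (f := fun t : ℝ => K.z0 + t • v) (0:ℝ) h3 h1
  have h4 : HasDerivAt (fun t : ℝ => K.g (K.z0 + t • v)) (fderiv ℝ K.g K.z0 v) 0 := by
    have h3 : HasFDerivAt K.g (fderiv ℝ K.g K.z0) (K.z0 + (0:ℝ) • v) := by
      rw [e0]; exact ((K.smg hz0).differentiableAt (by simp)).hasFDerivAt
    exact HasFDerivAt.comp_hasDerivAt (l := K.g)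
      (f := fun t : ℝ => K.z0 + t • v) (0:ℝ) h3 h1
  have h5 := (h2.clm_apply (h4.clm_apply (hasDerivAt_const (0:ℝ) w))).clm_apply
    (hasDerivAt_const (0:ℝ) η)
  have h6 : (fun t : ℝ => fderiv ℝ K.f (K.z0 + t • v) (K.g (K.z0 + t • v) w) η) =ᶠ[𝓝 0]
      fun _ => (0:ℝ) := by
    have h7 : Tendsto (fun t : ℝ => K.z0 + t • v) (𝓝 0) (𝓝 K.z0) := by
      have := h1.continuousAt.tendsto
      rwa [e0] at this
    filter_upwards [h7.eventually (K.ψ.open_target.mem_nhds hz0)] with t ht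
    exact K.inv ht w η
  have h8 := h5.unique ((hasDerivAt_const (0:ℝ) (0:ℝ)).congr_of_eventuallyEq h6)
  simp only [map_zero, add_zero, e0] at h8
  have h9 : fderiv ℝ K.f K.z0 (fderiv ℝ K.g K.z0 v w) η = 0 :=
    K.critc K.z0 hz0 η (by rw [K.symm_z0]; exact hη) _
  simpa [h9] using h8

/-- nondegeneracy makes the normal equations regular -/
lemma Ps_inj {η : V} (hη : η ∈ S.h x) (hnd : Ndg K η) (q : s.Sg × (Fin k → ℝ))
    (hq : fderiv ℝ (s.Ps η) 0 q = 0) : q = 0 := by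
  have hz0 := K.z0_mem
  obtain ⟨v, b⟩ := q
  have h1 : DifferentiableAt ℝ (s.Ps η) 0 := (s.sm_Ps η).differentiableAt (by simp)
  have e0 : K.z0 + (0:ℝ) • (v:E) = K.z0 := by simp
  have hl : HasDerivAt (fun t : ℝ => K.z0 + t • (v:E)) (v:E) 0 := by
    have := ((hasDerivAt_id (0:ℝ)).smul_const (v:E)).const_add K.z0
    simpa using this
  -- the first component
  have hA0 : ∀ i, fderiv ℝ (fderiv ℝ K.f) K.z0 v (s.bs i : E) η +
      fderiv ℝ K.f K.z0 (s.bs i : E) (C.j b) = 0 := by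
    intro i
    have h3 := dir_comp h1 hq ((ContinuousLinearMap.proj (R := ℝ) i).comp
      (ContinuousLinearMap.fst ℝ (Fin (Module.finrank ℝ s.Sg) → ℝ) (Fin k → ℝ)))
    have h5 : HasDerivAt (fun t : ℝ => fderiv ℝ K.f (K.z0 + t • (v:E)))
        (fderiv ℝ (fderiv ℝ K.f) K.z0 v) 0 := by
      have h3 : HasFDerivAt (fderiv ℝ K.f) (fderiv ℝ (fderiv ℝ K.f) K.z0)
          (K.z0 + (0:ℝ) • (v:E)) := by
        rw [e0]; exact ((sm_df hz0).differentiableAt (by simp)).hasFDerivAt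
      exact HasFDerivAt.comp_hasDerivAt (l := fderiv ℝ K.f)
        (f := fun t : ℝ => K.z0 + t • (v:E)) (0:ℝ) h3 hl
    have h6 : HasDerivAt (fun t : ℝ => η + t • C.j b) (C.j b) 0 := by
      have := ((hasDerivAt_id (0:ℝ)).smul_const (C.j b)).const_add η
      simpa using this
    have h7 := (h5.clm_apply (hasDerivAt_const (0:ℝ) (s.bs i : E))).clm_apply h6
    have h8 : (fun t : ℝ => ((ContinuousLinearMap.proj (R := ℝ) i).comp
      (ContinuousLinearMap.fst ℝ (Fin (Module.finrank ℝ s.Sg) → ℝ) (Fin k → ℝ)))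
        (s.Ps η (t • (v, b)))) =
        fun t : ℝ => fderiv ℝ K.f (K.z0 + t • (v:E)) (s.bs i : E) (η + t • C.j b) := by
      ext1 t
      show (s.Ps η (t • (v, b))).1 i = _
      rw [Ps_fst]
      simp
    rw [h8] at h3
    have h9 := h7.unique h3
    simpa [e0] using h9
  have hA : ∀ u : E, s.τ u = 0 → fderiv ℝ (fderiv ℝ K.f) K.z0 v u η +
      fderiv ℝ K.f K.z0 u (C.j b) = 0 := by
    intro u hu
    have h3 : (((ContinuousLinearMap.apply ℝ ℝ η).comp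
        (fderiv ℝ (fderiv ℝ K.f) K.z0 v)).toLinearMap + ((ContinuousLinearMap.apply ℝ ℝ (C.j b)).comp
        (fderiv ℝ K.f K.z0)).toLinearMap).comp s.Sg.subtype = 0 := by
      refine s.bs.ext fun i => ?_
      exact hA0 i
    exact LinearMap.congr_fun h3 ⟨u, hu⟩
  have hB0 : C.mm (fderiv ℝ K.f K.z0 v) = 0 := by
    ext i
    have h3 := dir_comp h1 hq ((ContinuousLinearMap.proj (R := ℝ) i).comp
      (ContinuousLinearMap.snd ℝ (Fin (Module.finrank ℝ s.Sg) → ℝ) (Fin k → ℝ)))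
    have h5 : HasDerivAt (fun t : ℝ => K.f (K.z0 + t • (v:E))) (fderiv ℝ K.f K.z0 v) 0 := by
      have h3 : HasFDerivAt K.f (fderiv ℝ K.f K.z0) (K.z0 + (0:ℝ) • (v:E)) := by
        rw [e0]; exact ((K.smf' hz0).differentiableAt (by simp)).hasFDerivAt
      exact HasFDerivAt.comp_hasDerivAt (l := K.f)
        (f := fun t : ℝ => K.z0 + t • (v:E)) (0:ℝ) h3 hl
    have h7 := h5.clm_apply (hasDerivAt_const (0:ℝ) (C.j (Pi.single i 1)))
    have h8 : (fun t : ℝ => ((ContinuousLinearMap.proj (R := ℝ) i).comp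
      (ContinuousLinearMap.snd ℝ (Fin (Module.finrank ℝ s.Sg) → ℝ) (Fin k → ℝ)))
        (s.Ps η (t • (v, b)))) =
        fun t : ℝ => K.f (K.z0 + t • (v:E)) (C.j (Pi.single i 1)) := by
      ext1 t
      show (s.Ps η (t • (v, b))).2 i = _
      rw [Ps_snd]
      simp [Cpl.mm]
    rw [h8] at h3
    have h9 := h7.unique h3
    simpa [Cpl.mm] using h9
  have hB : ∀ w, fderiv ℝ K.f K.z0 v (C.j w) = 0 := C.eq_of_mm hB0
  -- `v` is tangent to the level set
  have hcr : ∀ κ ∈ S.h x, ∀ u, fderiv ℝ K.f K.z0 u κ = 0 := fun κ hκ u =>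
    K.critc K.z0 hz0 κ (by rw [K.symm_z0]; exact hκ) u
  have hdec : ∀ (u : E) (w : V), (∀ w', fderiv ℝ K.f K.z0 u (C.j w') = 0) →
      fderiv ℝ K.f K.z0 u w = 0 := by
    intro u w hu
    obtain ⟨p, hp⟩ := C.span w
    have h3 : w = (w - C.ι p) + (p.1 • S.e + C.j p.2) := by rw [← C.ι_eq]; abel
    rw [h3, map_add, hcr _ hp, map_add, map_smul, K.df_e hz0, hu]
    simp
  have hspl : ∀ u : E, ∃ p, s.τ (u - K.g K.z0 (C.ι p)) = 0 := by
    intro u
    refine ⟨s.τ u, ?_⟩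
    rw [map_sub, s.τg, sub_self]
  have hv : (v : E) = 0 := by
    obtain ⟨w, hw⟩ := hnd v (fun w => hdec v w hB) (by
      intro u hu
      obtain ⟨p, hp⟩ := hspl u
      have h3 := hA (u - K.g K.z0 (C.ι p)) hp
      have h4 : fderiv ℝ K.f K.z0 (u - K.g K.z0 (C.ι p)) (C.j b) = 0 := by
        rw [map_sub, sub_apply, hu, K.inv hz0, sub_zero]
      have h5 : fderiv ℝ (fderiv ℝ K.f) K.z0 v (u - K.g K.z0 (C.ι p)) η = 0 := by
        rw [h4, add_zero] at h3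
        exact h3
      rw [map_sub, sub_apply, hess_orbit hη, sub_zero] at h5
      exact h5)
    obtain ⟨p, hp⟩ := C.span w
    have h3 : K.g K.z0 w = K.g K.z0 (C.ι p) := by
      have h4 := (K.h_iff' hz0 (w - C.ι p)).1 (by rw [K.symm_z0]; exact hp)
      rw [map_sub, sub_eq_zero] at h4
      exact h4
    have h5 : s.τ (v:E) = 0 := v.2
    rw [hw, h3, s.τg] at h5
    rw [hw, h3, h5, map_zero, map_zero]
  have hb : b = 0 := by
    have h3 : ∀ u : E, fderiv ℝ K.f K.z0 u (C.j b) = 0 := by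
      intro u
      obtain ⟨p, hp⟩ := hspl u
      have h6 := hA (u - K.g K.z0 (C.ι p)) hp
      rw [hv, map_zero, zero_apply, zero_apply, zero_add,
        map_sub, sub_apply, K.inv hz0, sub_zero] at h6
      exact h6
    have h4 := K.crit K.z0 hz0 (C.j b) h3
    rw [K.symm_z0] at h4
    have h5 := C.inj (-(S.mom x (C.j b)), b) (by
      rw [C.ι_eq]
      have e : -(S.mom x (C.j b)) • S.e + C.j b = C.j b - S.mom x (C.j b) • S.e := by
        rw [neg_smul]; abel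
      show -(S.mom x (C.j b)) • S.e + C.j b ∈ S.h x
      rw [e]
      exact h4)
    exact congrArg Prod.snd h5
  have hv' : v = 0 := Subtype.ext hv
  rw [hv', hb]
  rfl

end Sl

end Pool.Agent.J4.H23.WN
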