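import Mathlib
import Pool.Agent.J4.H23.WN.Normal

/-! Nondegenerate orbits come in families parametrised by the momentum map. -/

open scoped Topology ContDiff
open Set Filter Metric

noncomputable section

namespace Pool.Agent.J4.H23.WN

variable {V E : Type*} [NormedAddCommGroup V] [NormedSpace ℝ V]
  [NormedAddCommGroup E] [NormedSpace ℝ E] {k : ℕ}
  {M : Type*} [TopologicalSpace M]
  {S : Sys V M} {x : M} {K : Ch S E x} {C : Cpl S x (Fin k → ℝ)}

lemma Ch.F_F {a b : V} {z : E} (hb : S.act b (K.ψ.symm z) ∈ K.ψ.source) :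
    K.F a (K.F b z) = K.F (a + b) z := by
  unfold Ch.F
  rw [K.ψ.left_inv hb, S.add]

lemma Ch.symm_F {a : V} {z : E} (h : S.act a (K.ψ.symm z) ∈ K.ψ.source) :
    K.ψ.symm (K.F a z) = S.act a (K.ψ.symm z) := K.ψ.left_inv h

lemma Ch.f_F {a : V} {z : E} (h : S.act a (K.ψ.symm z) ∈ K.ψ.source) :
    K.f (K.F a z) = K.f z := by
  show S.mom (K.ψ.symm (K.F a z)) = S.mom (K.ψ.symm z)
  rw [K.symm_F h, S.inv]

lemma Ch.F_mem {a : V} {z : E} (h : S.act a (K.ψ.symm z) ∈ K.ψ.source) :
    K.F a z ∈ K.ψ.target := K.ψ.map_source h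

/-- moving to the slice -/
def Sl.mv (s : Sl K C) (z : E) : E := K.F (C.ι (s.δ z)) z

lemma Sl.tendsto_pair (s : Sl K C) {z : E} (hc : ContinuousAt s.δ z) :
    Tendsto (fun z' => (C.ι (s.δ z'), z')) (𝓝 z) (𝓝 (C.ι (s.δ z), z)) :=
  ((C.ι.continuous.continuousAt.comp hc).prodMk continuousAt_id).tendsto

lemma Sl.mv_src (s : Sl K C) {z : E} (hc : ContinuousAt s.δ z) (h0 : s.δ z = 0)
    (hz : z ∈ K.ψ.target) :
    ∀ᶠ z' in 𝓝 z, S.act (C.ι (s.δ z')) (K.ψ.symm z') ∈ K.ψ.source := by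
  have h1 := s.tendsto_pair hc
  rw [h0, map_zero] at h1
  have h2 : S.act 0 (K.ψ.symm z) ∈ K.ψ.source := by rw [S.zero]; exact K.ψ.map_target hz
  filter_upwards [h1.eventually (K.near_src hz h2)] with z' hz'
  exact hz'.2

lemma Sl.mv_tendsto (s : Sl K C) {z : E} (hc : ContinuousAt s.δ z) (h0 : s.δ z = 0)
    (hz : z ∈ K.ψ.target) : Tendsto s.mv (𝓝 z) (𝓝 z) := by
  have h1 := s.tendsto_pair hc
  rw [h0, map_zero] at h1
  have h2 := ((K.smF0 hz).continuousAt.tendsto).comp h1
  have h3 : K.F 0 z = z := K.F_zero hz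
  simp only [h3] at h2
  exact h2

/-- **Nondegenerate orbits.** -/
theorem exists_fam [FiniteDimensional ℝ E] [FiniteDimensional ℝ V] (s : Sl K C) {η : V}
    (hη : η ∈ S.h x) (hnd : Ndg K η) :
    ∃ Yz : (Fin k → ℝ) → E, Yz (C.mm (K.f K.z0)) = K.z0 ∧
      ContDiffAt ℝ ∞ Yz (C.mm (K.f K.z0)) ∧
      (∀ᶠ m in 𝓝 (C.mm (K.f K.z0)),
        Module.finrank ℝ (S.h (K.ψ.symm (Yz m))) = Module.finrank ℝ (S.h x) ∧
          C.mm (K.f (Yz m)) = m) ∧
      (∀ᶠ z in 𝓝 K.z0, Module.finrank ℝ (S.h (K.ψ.symm z)) = Module.finrank ℝ (S.h x) →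
        K.F (C.ι (s.δ z)) z = Yz (C.mm (K.f z))) := by
  have hz0 := K.z0_mem
  have hdim : Module.finrank ℝ (s.Sg × (Fin k → ℝ)) =
      Module.finrank ℝ ((Fin (Module.finrank ℝ s.Sg) → ℝ) × (Fin k → ℝ)) := by
    simp [Module.finrank_prod]
  obtain ⟨θ, hθ0, hθs, hθl, hθr⟩ := loc_inv hdim (s.sm_Ps η) (s.Ps_inj hη hnd)
  set m0 := C.mm (K.f K.z0) with hm0
  have hP0 : s.Ps η 0 = (0, m0) := s.Ps_zero hη
  rw [hP0] at hθ0 hθs hθr
  have hin : ContDiffAt ℝ ∞ (fun m : Fin k → ℝ =>
      ((0 : Fin (Module.finrank ℝ s.Sg) → ℝ), m)) m0 := contDiffAt_const.prodMk contDiffAt_id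
  have hθm : ContDiffAt ℝ ∞ (fun m : Fin k → ℝ => θ (0, m)) m0 :=
    ContDiffAt.comp m0 (g := θ) hθs hin
  have hYs : ContDiffAt ℝ ∞ (fun m : Fin k → ℝ => K.z0 + ((θ (0, m)).1 : E)) m0 :=
    contDiffAt_const.add (s.Sg.subtypeL.contDiff.contDiffAt.comp _
      (contDiffAt_fst.comp m0 hθm))
  have hY0 : K.z0 + ((θ (0, m0)).1 : E) = K.z0 := by rw [hθ0]; simp
  have hYt : Tendsto (fun m : Fin k → ℝ => K.z0 + ((θ (0, m)).1 : E)) (𝓝 m0) (𝓝 K.z0) := by
    have := hYs.continuousAt.tendsto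
    rwa [hY0] at this
  have hθt : Tendsto (fun m : Fin k → ℝ => θ (0, m)) (𝓝 m0) (𝓝 0) := by
    have := hθm.continuousAt.tendsto
    rwa [hθ0] at this
  refine ⟨fun m => K.z0 + ((θ (0, m)).1 : E), hY0, hYs, ?_, ?_⟩
  · -- the points of the family lie on orbits of the same dimension
    have a1 : ∀ᶠ m in 𝓝 m0, s.Ps η (θ (0, m)) = (0, m) := (hin.continuousAt.tendsto).eventually hθr
    have a2 : ∀ᶠ m in 𝓝 m0, ∀ᶠ q in 𝓝 (θ (0, m)), θ (s.Ps η q) = q :=
      hθt.eventually (eventually_eventually_nhds.2 hθl)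
    have a3 : ∀ᶠ z in 𝓝 K.z0, ContDiffAt ℝ 1 s.δ z :=
      (s.smδ.of_le (by simp)).eventually (by simp)
    have a4 : ∀ᶠ z in 𝓝 K.z0, ∀ᶠ z' in 𝓝 z, s.τ (K.F (C.ι (s.δ z')) z' - K.z0) = 0 :=
      eventually_eventually_nhds.2 s.on
    have a5 : ∀ᶠ z in 𝓝 K.z0, s.τ (z - K.z0) = 0 → s.δ z = 0 := by
      have h1 : Tendsto (fun z : E => ((0 : ℝ × (Fin k → ℝ)), z)) (𝓝 K.z0)
          (𝓝 (0, K.z0)) := (continuous_const.prodMk continuous_id).tendsto _
      filter_upwards [h1.eventually s.uniq, K.ψ.open_target.mem_nhds hz0] with z hz hzt h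
      have := hz (by
        show s.τ (K.F (C.ι 0) z - K.z0) = 0
        rw [map_zero, K.F_zero hzt]
        exact h)
      exact this.symm
    filter_upwards [a1, a2, hYt.eventually a3, hYt.eventually a4, hYt.eventually a5,
      hYt.eventually (K.ψ.open_target.mem_nhds hz0), hYt.eventually s.inj_near,
      hYt.eventually s.surj_near] with m b1 b2 b3 b4 b5 b6 b7 b8
    set q := θ (0, m) with hq
    set z := K.z0 + (q.1 : E) with hz
    have hzm : C.mm (K.f z) = m := congrArg Prod.snd b1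
    refine ⟨?_, hzm⟩
    have hτz : s.τ (z - K.z0) = 0 := by
      rw [hz, add_sub_cancel_left]; exact q.1.2
    have hδz : s.δ z = 0 := b5 hτz
    -- the isotropy direction
    have c1 : ∀ u, fderiv ℝ K.f z u (η + C.j q.2) = 0 := by
      intro u
      obtain ⟨p, hp⟩ := b8 u
      have h1 := (s.Ps_fst_zero (η := η) (p := q)).1 (congrArg Prod.fst b1) _ hp
      rw [map_sub, sub_apply, K.inv b6, sub_zero] at h1
      exact h1
    have c2 := K.crit z b6 _ c1
    have hcδ : ContinuousAt s.δ z := b3.continuousAt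
    have key : ∀ w : V, ∃ p, w + C.ι p ∈ S.h (K.ψ.symm z) := by
      intro w
      refine ⟨fderiv ℝ s.δ z (K.g z w), ?_⟩
      rw [K.h_iff' b6]
      have h0s : S.act 0 (K.ψ.symm z) ∈ K.ψ.source := by rw [S.zero]; exact K.ψ.map_target b6
      -- the curve
      have d1 : HasDerivAt (fun t : ℝ => t • w) w 0 := by
        simpa using (hasDerivAt_id (0:ℝ)).smul_const w
      have d2 : HasDerivAt (fun t : ℝ => K.F (t • w) z) (K.g z w) 0 := by
        have h3 : HasFDerivAt (fun v => K.F v z) (K.g z) ((0:ℝ) • w) := by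
          rw [zero_smul]; exact K.hasFDerivAt_g b6
        exact HasFDerivAt.comp_hasDerivAt (l := fun v => K.F v z) (f := fun t : ℝ => t • w)
          (0:ℝ) h3 d1
      have e0 : K.F ((0:ℝ) • w) z = z := by rw [zero_smul, K.F_zero b6]
      have d3 : HasDerivAt (fun t : ℝ => s.δ (K.F (t • w) z)) (fderiv ℝ s.δ z (K.g z w)) 0 := by
        have h3 : HasFDerivAt s.δ (fderiv ℝ s.δ z) (K.F ((0:ℝ) • w) z) := by
          rw [e0]; exact (b3.differentiableAt (by simp)).hasFDerivAt
        exact HasFDerivAt.comp_hasDerivAt (l := s.δ) (f := fun t : ℝ => K.F (t • w) z)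
          (0:ℝ) h3 d2
      have d4 : HasDerivAt (fun t : ℝ => C.ι (s.δ (K.F (t • w) z)) + t • w)
          (C.ι (fderiv ℝ s.δ z (K.g z w)) + w) 0 :=
        (C.ι.hasFDerivAt.comp_hasDerivAt (0:ℝ) d3).add d1
      have e1 : C.ι (s.δ (K.F ((0:ℝ) • w) z)) + (0:ℝ) • w = 0 := by
        rw [e0, hδz, map_zero, zero_smul, add_zero]
      have d5 : HasDerivAt (fun t : ℝ => K.F (C.ι (s.δ (K.F (t • w) z)) + t • w) z)
          (K.g z (C.ι (fderiv ℝ s.δ z (K.g z w)) + w)) 0 := by
        have h3 : HasFDerivAt (fun v => K.F v z) (K.g z)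
            (C.ι (s.δ (K.F ((0:ℝ) • w) z)) + (0:ℝ) • w) := by
          rw [e1]; exact K.hasFDerivAt_g b6
        exact HasFDerivAt.comp_hasDerivAt (l := fun v => K.F v z)
          (f := fun t : ℝ => C.ι (s.δ (K.F (t • w) z)) + t • w) (0:ℝ) h3 d4
      have t1 : Tendsto (fun t : ℝ => K.F (t • w) z) (𝓝 0) (𝓝 z) := by
        have := d2.continuousAt.tendsto
        rwa [e0] at this
      have t2 : ∀ᶠ t : ℝ in 𝓝 0, S.act (t • w) (K.ψ.symm z) ∈ K.ψ.source := by
        have h9 : Tendsto (fun t : ℝ => (t • w, z)) (𝓝 0) (𝓝 ((0:V), z)) := by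
          have h7 : ContinuousAt (fun t : ℝ => (t • w, z)) 0 := by fun_prop
          have := h7.tendsto
          simpa using this
        filter_upwards [h9.eventually (K.near_src b6 h0s)] with t ht
        exact ht.2
      obtain ⟨ε, hε, hb⟩ := Metric.eventually_nhds_iff_ball.1 b2
      have t3 : Tendsto (fun t : ℝ => s.mv (K.F (t • w) z)) (𝓝 0) (𝓝 z) :=
        (s.mv_tendsto hcδ hδz b6).comp t1
      have ev : (fun t : ℝ => K.F (C.ι (s.δ (K.F (t • w) z)) + t • w) z) =ᶠ[𝓝 0] fun _ => z := by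
        filter_upwards [t2, t1.eventually b4, t1.eventually (s.mv_src hcδ hδz b6),
          t3.eventually (ball_mem_nhds z hε)] with t ht2 ht4 hts htε
        have f1 : K.F (C.ι (s.δ (K.F (t • w) z)) + t • w) z = s.mv (K.F (t • w) z) := by
          unfold Sl.mv
          rw [Ch.F_F ht2]
        rw [f1]
        set z' := s.mv (K.F (t • w) z) with hz'
        have hτ' : s.τ (z' - K.z0) = 0 := ht4
        -- the point in the manifold
        have hy1 : K.ψ.symm (K.F (t • w) z) = S.act (t • w) (K.ψ.symm z) := K.symm_F ht2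
        have hy2 : K.ψ.symm z' = S.act (C.ι (s.δ (K.F (t • w) z))) (K.ψ.symm (K.F (t • w) z)) :=
          K.symm_F hts
        have hh : S.h (K.ψ.symm z') = S.h (K.ψ.symm z) := by
          rw [hy2, S.h_act, hy1, S.h_act]
        have hf : K.f z' = K.f z := by
          have := K.f_F hts
          rw [K.f_F ht2] at this
          exact this
        have hz't : z' ∈ K.ψ.target := K.F_mem hts
        let q' : s.Sg × (Fin k → ℝ) := (⟨z' - K.z0, hτ'⟩, q.2)
        have hq'0 : K.z0 + (q'.1 : E) = z' := by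
          show K.z0 + (z' - K.z0) = z'
          abel
        have hPs : s.Ps η q' = (0, m) := by
          refine Prod.ext ?_ ?_
          · rw [s.Ps_fst_zero]
            intro u _
            rw [hq'0]
            have h3 := K.critc z' hz't _ (by rw [hh]; exact c2) u
            have h4 : fderiv ℝ K.f z' u (η + C.j q.2 - S.mom (K.ψ.symm z) (η + C.j q.2) • S.e) =
              0 := h3
            rw [map_sub, map_smul, K.df_e hz't, smul_zero, sub_zero] at h4
            exact h4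
          · rw [Sl.Ps_snd, hq'0, hf, hzm]
        have hball : q' ∈ ball q ε := by
          rw [mem_ball, Prod.dist_eq]
          refine max_lt ?_ (by simpa [q'] using hε)
          rw [Subtype.dist_eq]
          show dist (z' - K.z0) (q.1 : E) < ε
          have : dist (z' - K.z0) (q.1 : E) = dist z' z := by
            rw [dist_eq_norm, dist_eq_norm, hz]
            congr 1
            abel
          rw [this]
          exact htε
        have h5 := hb q' hball
        rw [hPs] at h5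
        have h6 : (q.1 : E) = z' - K.z0 := congrArg (fun r : s.Sg × (Fin k → ℝ) => (r.1 : E)) h5
        rw [hz, h6]
        abel
      have d6 : HasDerivAt (fun t : ℝ => K.F (C.ι (s.δ (K.F (t • w) z)) + t • w) z) 0 0 :=
        (hasDerivAt_const (0:ℝ) z).congr_of_eventuallyEq ev
      have d7 := d5.unique d6
      rw [add_comm] at d7
      exact d7
    have k1 : Module.finrank ℝ (S.h (K.ψ.symm z)) + Module.finrank ℝ (ℝ × (Fin k → ℝ)) =
        Module.finrank ℝ V := finrank_of_compl (ι := C.ι.toLinearMap) b7 (by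
      intro v
      obtain ⟨p, hp⟩ := key v
      refine ⟨-p, ?_⟩
      show v - C.ι (-p) ∈ _
      rwa [map_neg, sub_neg_eq_add])
    have k2 : Module.finrank ℝ (S.h x) + Module.finrank ℝ (ℝ × (Fin k → ℝ)) =
        Module.finrank ℝ V := C.finrank_eq
    show Module.finrank ℝ (S.h (K.ψ.symm z)) = Module.finrank ℝ (S.h x)
    omega
  · -- all orbits of the same dimension nearby belong to the family
    obtain ⟨ε, hε, hb⟩ := Metric.eventually_nhds_iff_ball.1 hθl
    have hcδ : ContinuousAt s.δ K.z0 := s.smδ.continuousAt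
    have t1 := s.mv_tendsto hcδ s.δ0 hz0
    have hgη : K.g K.z0 η = 0 := (K.h_iff' hz0 η).1 (by rw [K.symm_z0]; exact hη)
    have t2 : ∀ᶠ z in 𝓝 K.z0, 2 * ‖s.τ (K.g z η)‖ < ε := by
      have h1 : ContinuousAt (fun z => 2 * ‖s.τ (K.g z η)‖) K.z0 :=
        continuousAt_const.mul (s.τ.continuous.continuousAt.comp
          ((K.smg hz0).continuousAt.clm_apply continuousAt_const)).norm
      have h2 := h1.tendsto
      simp only [hgη, map_zero, norm_zero, mul_zero] at h2
      exact h2.eventually (gt_mem_nhds hε)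
    filter_upwards [s.on, s.mv_src hcδ s.δ0 hz0, t1.eventually s.bound,
      t1.eventually s.inj_near, t1.eventually t2, t1.eventually (ball_mem_nhds K.z0 hε)] with
      z h1 h2 h3 h4 h5 h6 hr
    set z' := s.mv z with hz'
    have hz't : z' ∈ K.ψ.target := K.F_mem h2
    have hy : K.ψ.symm z' = S.act (C.ι (s.δ z)) (K.ψ.symm z) := K.symm_F h2
    have hh : S.h (K.ψ.symm z') = S.h (K.ψ.symm z) := by rw [hy, S.h_act]
    have hf : K.f z' = K.f z := K.f_F h2
    obtain ⟨p, hp⟩ := compl_of_finrank (H := S.h (K.ψ.symm z')) (ι := C.ι.toLinearMap) h4 (by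
      rw [hh, hr, C.finrank_eq]) η
    have hp' : η - C.ι p ∈ S.h (K.ψ.symm z') := hp
    have hpn : ‖p‖ < ε := by
      have h7 := h3 p
      have h8 := (K.h_iff' hz't _).1 hp'
      rw [map_sub, sub_eq_zero] at h8
      rw [← h8] at h7
      exact h7.trans_lt h5
    let q' : s.Sg × (Fin k → ℝ) := (⟨z' - K.z0, h1⟩, -p.2)
    have hq'0 : K.z0 + (q'.1 : E) = z' := by
      show K.z0 + (z' - K.z0) = z'
      abel
    have hPs : s.Ps η q' = (0, C.mm (K.f z)) := by
      refine Prod.ext ?_ ?_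
      · rw [s.Ps_fst_zero]
        intro u _
        rw [hq'0]
        have h7 : fderiv ℝ K.f z' u (η - C.ι p) = 0 := K.critc z' hz't _ hp' u
        rw [C.ι_eq] at h7
        have h8 : η - (p.1 • S.e + C.j p.2) = (η + C.j (-p.2)) - p.1 • S.e := by
          rw [map_neg]; abel
        rw [h8, map_sub, map_smul, K.df_e hz't, smul_zero, sub_zero] at h7
        exact h7
      · rw [Sl.Ps_snd, hq'0, hf]
    have hball : q' ∈ ball (0 : s.Sg × (Fin k → ℝ)) ε := by
      rw [mem_ball, Prod.dist_eq]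
      refine max_lt ?_ ?_
      · rw [Subtype.dist_eq]
        show dist (z' - K.z0) (0 : E) < ε
        have : dist (z' - K.z0) (0 : E) = dist z' K.z0 := by
          rw [dist_eq_norm, dist_eq_norm, sub_zero]
        rw [this]
        exact h6
      · show dist (-p.2) 0 < ε
        rw [dist_zero_right, norm_neg]
        exact (norm_snd_le p).trans_lt hpn
    have h9 := hb q' hball
    rw [hPs] at h9
    show z' = K.z0 + ((θ (0, C.mm (K.f z))).1 : E)
    rw [h9, hq'0]

end Pool.Agent.J4.H23.WN
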