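import Mathlib

/-! A basis of a lattice in the plane. -/

open scoped Topology
open Set Filter Metric

namespace Pool.Agent.J4.H23.WN

lemma lattice2 (L : AddSubgroup (Fin 2 → ℝ)) (hr : ∃ r > 0, ∀ z ∈ L, ‖z‖ < r → z = 0)
    (hB : ∃ B, ∀ z, ∃ k ∈ L, ‖z - k‖ ≤ B) :
    ∃ l ∈ L, ∃ l' ∈ L, l 0 * l' 1 - l 1 * l' 0 ≠ 0 ∧
      ∀ z ∈ L, ∃ m n : ℤ, z = (m : ℝ) • l + (n : ℝ) • l' := by
  obtain ⟨r, hr0, hr⟩ := hr
  obtain ⟨B, hB⟩ := hB
  set L' : Submodule ℤ (Fin 2 → ℝ) := AddSubgroup.toIntSubmodule L with hL'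
  have hmem : ∀ z, z ∈ L' ↔ z ∈ L := fun z => Iff.rfl
  have : DiscreteTopology L' := by
    apply discreteTopology_of_isOpen_singleton_zero
    have h1 : ({0} : Set L') = Subtype.val ⁻¹' (ball (0 : Fin 2 → ℝ) r) := by
      ext z
      constructor
      · rintro rfl
        simpa using hr0
      · intro hz
        have h2 : ‖(z : Fin 2 → ℝ)‖ < r := by simpa using hz
        have := hr z z.2 h2
        exact Subtype.ext this
    rw [h1]
    exact isOpen_ball.preimage continuous_subtype_val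
  have hspan : Submodule.span ℝ (L' : Set (Fin 2 → ℝ)) = ⊤ := by
    by_contra h
    obtain ⟨f, hf, hle⟩ := Submodule.exists_le_ker_of_lt_top _ (lt_top_iff_ne_top.2 h)
    obtain ⟨z, hfz⟩ : ∃ z, f z ≠ 0 := by
      by_contra hcon
      push Not at hcon
      exact hf (LinearMap.ext hcon)
    set F : (Fin 2 → ℝ) →L[ℝ] ℝ := LinearMap.toContinuousLinearMap f with hF
    have h1 : ∀ t : ℝ, |t| * |f z| ≤ ‖F‖ * B := by
      intro t
      obtain ⟨k, hk, hkB⟩ := hB (t • z)
      have h2 : f k = 0 := hle (Submodule.subset_span hk)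
      have h3 : F (t • z - k) = t * f z := by
        show f (t • z - k) = _
        rw [map_sub, map_smul, h2, sub_zero, smul_eq_mul]
      have h4 := F.le_opNorm (t • z - k)
      rw [h3, Real.norm_eq_abs, abs_mul] at h4
      exact h4.trans (mul_le_mul_of_nonneg_left hkB (norm_nonneg _))
    have h5 := h1 ((‖F‖ * B + 1) / |f z|)
    have hpos : 0 < |f z| := abs_pos.2 hfz
    rw [abs_div, abs_abs, div_mul_cancel₀ _ hpos.ne'] at h5
    have := le_abs_self (‖F‖ * B + 1)
    linarith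
  have : IsZLattice ℝ L' := ⟨hspan⟩
  have : Module.Free ℤ L' := ZLattice.module_free ℝ L'
  have : Module.Finite ℤ L' := ZLattice.module_finite ℝ L'
  have hrank : Module.finrank ℤ L' = 2 := by
    rw [ZLattice.rank ℝ L']
    simp
  let b := Module.finBasisOfFinrankEq ℤ L' hrank
  let b' := b.ofZLatticeBasis ℝ L'
  have hb : ∀ i, b' i = (b i : Fin 2 → ℝ) := fun i => b.ofZLatticeBasis_apply ℝ L' i
  refine ⟨b 0, (b 0).2, b 1, (b 1).2, ?_, ?_⟩
  · have h1 := b'.linearIndependent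
    have h2 : (fun i => b' i) = ![(b 0 : Fin 2 → ℝ), (b 1 : Fin 2 → ℝ)] := by
      ext i j
      fin_cases i <;> simp [hb]
    have h3 : LinearIndependent ℝ ![(b 0 : Fin 2 → ℝ), (b 1 : Fin 2 → ℝ)] := h2 ▸ h1
    intro hdet
    set x : Fin 2 → ℝ := (b 0 : Fin 2 → ℝ) with hx
    set y : Fin 2 → ℝ := (b 1 : Fin 2 → ℝ) with hy
    have h4 := LinearIndependent.pair_iff.1 h3
    have h5 := h4 (y 1) (-(x 1)) (by
      ext i
      fin_cases i
      · simp; linarith
      · simp; ring)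
    have h6 := h4 (y 0) (-(x 0)) (by
      ext i
      fin_cases i
      · simp; ring
      · simp; linarith)
    have h7 : x = 0 := by
      ext i
      fin_cases i
      · simpa using h6.2
      · simpa using h5.2
    have := h4 1 0 (by rw [h7]; simp)
    exact one_ne_zero this.1
  · intro z hz
    have hz' : z ∈ L' := hz
    have h1 := b.sum_repr ⟨z, hz'⟩
    rw [Fin.sum_univ_two] at h1
    have h2 := congrArg (Subtype.val) h1
    refine ⟨b.repr ⟨z, hz'⟩ 0, b.repr ⟨z, hz'⟩ 1, ?_⟩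
    rw [Int.cast_smul_eq_zsmul, Int.cast_smul_eq_zsmul]
    exact h2.symm

end Pool.Agent.J4.H23.WN
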