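import Mathlib
import Pool.Agent.J4.H23.WN.Glob

/-! Local data at orbits of dimension two and the continuation of periods. -/

open scoped Topology
open Set Filter Metric

noncomputable section

namespace Pool.Agent.J4.H23.WN

variable {V : Type*} [NormedAddCommGroup V] [NormedSpace ℝ V]
  {M : Type*} [TopologicalSpace M]

/-- local data at an orbit of dimension two -/
structure Loc2 (S : Sys V M) (C : Set M) (x : M) where
  w : V
  A : V →L[ℝ] ℝ
  B : V →L[ℝ] ℝ
  Ae : A S.e = 1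
  Aw : A w = 0
  Be : B S.e = 0
  Bw : B w = 1
  h_iff : ∀ v, v ∈ S.h x ↔ A v = 0 ∧ B v = 0
  Y : ℝ → M
  δ : M → V
  δW : ∀ y, δ y = A (δ y) • S.e + B (δ y) • w
  δ0 : δ x = 0
  Y0 : Y (S.mom x w) = x
  Yc : ∀ᶠ c in 𝓝 (S.mom x w), ContinuousAt Y c ∧ Y c ∈ C ∧ S.mom (Y c) w = c
  loc : ∀ᶠ y in 𝓝 x, y ∈ C → S.act (δ y) y = Y (S.mom y w)
  disc : ∃ r > 0, ∀ᶠ y in 𝓝 x, ∀ a b : ℝ, ‖a • S.e + b • w‖ < r →
    S.act (a • S.e + b • w) y = y → a = 0 ∧ b = 0
  der : ∀ γ ∈ S.H x, ∀ᶠ c in 𝓝 (S.mom x w), ∃ γ', HasDerivAt (fun c => δ (S.act γ (Y c))) γ' c ∧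
    S.mom (Y c) γ' = 0

namespace Loc2

variable {S : Sys V M} {C : Set M} {x : M} (L : Loc2 S C x)

/-- the value of the second momentum -/
def c0 : ℝ := S.mom x L.w

/-- membership in the complement -/
def InW (v : V) : Prop := v = L.A v • S.e + L.B v • L.w

/-- the projection to the complement -/
def pr (v : V) : V := L.A v • S.e + L.B v • L.w

lemma A_pr (v : V) : L.A (L.pr v) = L.A v := by
  simp [pr, L.Ae, L.Aw]

lemma B_pr (v : V) : L.B (L.pr v) = L.B v := by
  simp [pr, L.Be, L.Bw]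

lemma inW_pr (v : V) : L.InW (L.pr v) := by
  unfold InW
  rw [L.A_pr, L.B_pr]
  rfl

/-- the continuation of a period -/
def ct (γ : V) (c : ℝ) : V := γ + L.δ (S.act γ (L.Y c))

lemma ct0 {γ : V} (hγ : γ ∈ S.H x) : L.ct γ L.c0 = γ := by
  unfold ct c0
  rw [L.Y0, show S.act γ x = x from hγ, L.δ0, add_zero]

lemma inW_ct {γ : V} (hγ : L.InW γ) (c : ℝ) : L.InW (L.ct γ c) := by
  unfold InW ct
  rw [map_add, map_add, add_smul, add_smul]
  have h1 : γ = L.A γ • S.e + L.B γ • L.w := hγ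
  have h2 := L.δW (S.act γ (L.Y c))
  set t := L.δ (S.act γ (L.Y c)) with ht
  calc γ + t = (L.A γ • S.e + L.B γ • L.w) + (L.A t • S.e + L.B t • L.w) := by
        rw [← h1, ← h2]
    _ = _ := by abel

lemma ct_mem {d : ℕ} (hC : ∀ y, y ∈ C ↔ Module.finrank ℝ (S.h y) = d) {γ : V} (hγ : γ ∈ S.H x) :
    ∀ᶠ c in 𝓝 L.c0, L.ct γ c ∈ S.H (L.Y c) := by
  have h1 : ContinuousAt (fun c => S.act γ (L.Y c)) L.c0 :=
    (S.cont_right γ).continuousAt.comp L.Yc.self_of_nhds.1
  have h2 : S.act γ (L.Y L.c0) = x := by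
    unfold c0
    rw [L.Y0]; exact hγ
  have h3 : ∀ᶠ c in 𝓝 L.c0, S.act γ (L.Y c) ∈ C →
      S.act (L.δ (S.act γ (L.Y c))) (S.act γ (L.Y c)) = L.Y (S.mom (S.act γ (L.Y c)) L.w) := by
    have h4 := h1.tendsto
    rw [h2] at h4
    exact h4.eventually L.loc
  filter_upwards [h3, L.Yc] with c hc hYc
  have h5 : S.act γ (L.Y c) ∈ C := by
    rw [hC, S.h_act]
    exact (hC _).1 hYc.2.1
  have h6 := hc h5
  rw [S.inv, hYc.2.2] at h6
  rw [Sys.mem_H]
  unfold ct
  rw [add_comm, S.add]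
  exact h6

/-- no closed orbits of the distinguished direction -/
def NC (S : Sys V M) : Prop := ∀ (y : M) (t : ℝ), t ≠ 0 → S.act (t • S.e) y ≠ y

lemma det_ne (hNC : NC S) {l l' : V} (hl : l ∈ S.H x) (hl' : l' ∈ S.H x) (hlW : L.InW l)
    (hlW' : L.InW l') {u u' : ℝ} (hu : S.e = u • l + u' • l') :
    L.A l * L.B l' - L.B l * L.A l' ≠ 0 := by
  intro h0
  have h1 := congrArg L.A hu
  have h2 := congrArg L.B hu
  simp only [map_add, map_smul, L.Ae, L.Be, smul_eq_mul] at h1 h2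
  have h3 : L.B l' = 0 := by linear_combination (L.B l') * h1 + u * h0 - L.A l' * h2
  have h4 : L.B l = 0 := by linear_combination (L.B l) * h1 - u' * h0 - L.A l * h2
  have h5 : ∀ k, k ∈ S.H x → L.InW k → L.B k = 0 → L.A k = 0 := by
    intro k hk hkW hB
    by_contra hA
    apply hNC x _ hA
    have : L.A k • S.e = k := by
      conv_rhs => rw [show k = L.A k • S.e + L.B k • L.w from hkW, hB]
      simp
    rw [this]
    exact hk
  rw [h5 l hl hlW h4, h5 l' hl' hlW' h3] at h1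
  norm_num at h1

/-- the relations between the periods and the distinguished direction do not change -/
theorem pair {d : ℕ} (hC : ∀ y, y ∈ C ↔ Module.finrank ℝ (S.h y) = d) (hNC : NC S) {l l' : V}
    (hl : l ∈ S.H x) (hl' : l' ∈ S.H x) (hlW : L.InW l) (hlW' : L.InW l') {u u' : ℝ}
    (hu : S.e = u • l + u' • l') :
    ∀ᶠ c in 𝓝 L.c0, S.e = u • L.ct l c + u' • L.ct l' c := by
  have hdet := L.det_ne hNC hl hl' hlW hlW' hu
  -- a neighbourhood
  have hder : ∀ {γ : V}, γ ∈ S.H x → ∀ᶠ c in 𝓝 L.c0, ∃ γ', HasDerivAt (L.ct γ) γ' c ∧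
      S.mom (L.Y c) γ' = 0 := by
    intro γ hγ
    filter_upwards [L.der γ hγ] with c hc
    obtain ⟨γ', h1, h2⟩ := hc
    exact ⟨γ', h1.const_add γ, h2⟩
  have hcont : ∀ {γ : V}, γ ∈ S.H x → ContinuousAt (L.ct γ) L.c0 := by
    intro γ hγ
    obtain ⟨γ', h1, -⟩ := (hder hγ).self_of_nhds
    exact h1.continuousAt
  have hdetc : ∀ᶠ c in 𝓝 L.c0,
      L.A (L.ct l c) * L.B (L.ct l' c) - L.B (L.ct l c) * L.A (L.ct l' c) ≠ 0 := by
    have h1 : ContinuousAt (fun c => L.A (L.ct l c) * L.B (L.ct l' c) -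
        L.B (L.ct l c) * L.A (L.ct l' c)) L.c0 := by
      have a1 := L.A.continuous.continuousAt.comp (hcont hl)
      have a2 := L.A.continuous.continuousAt.comp (hcont hl')
      have b1 := L.B.continuous.continuousAt.comp (hcont hl)
      have b2 := L.B.continuous.continuousAt.comp (hcont hl')
      exact (a1.mul b2).sub (b1.mul a2)
    refine h1.eventually_ne ?_
    rw [L.ct0 hl, L.ct0 hl']
    exact hdet
  obtain ⟨ε, hε, hJ⟩ := Metric.eventually_nhds_iff_ball.1
    ((hder hl).and ((hder hl').and (hdetc.and ((L.ct_mem hC hl).and ((L.ct_mem hC hl').and L.Yc)))))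
  set J := ball L.c0 ε with hJdef
  have hJo : IsOpen J := isOpen_ball
  have hJc : IsPreconnected J := (convex_ball L.c0 ε).isPreconnected
  have h0J : L.c0 ∈ J := mem_ball_self hε
  choose! g1 hg1 using fun c hc => (hJ c hc).1
  choose! g2 hg2 using fun c hc => (hJ c hc).2.1
  -- the coordinates
  set a : ℝ → ℝ := fun c => L.A (L.ct l c) with ha
  set b : ℝ → ℝ := fun c => L.B (L.ct l c) with hb
  set a' : ℝ → ℝ := fun c => L.A (L.ct l' c) with ha'
  set b' : ℝ → ℝ := fun c => L.B (L.ct l' c) with hb'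
  have hda : ∀ c ∈ J, HasDerivAt a (L.A (g1 c)) c := fun c hc =>
    L.A.hasFDerivAt.comp_hasDerivAt c (hg1 c hc).1
  have hdb : ∀ c ∈ J, HasDerivAt b (L.B (g1 c)) c := fun c hc =>
    L.B.hasFDerivAt.comp_hasDerivAt c (hg1 c hc).1
  have hda' : ∀ c ∈ J, HasDerivAt a' (L.A (g2 c)) c := fun c hc =>
    L.A.hasFDerivAt.comp_hasDerivAt c (hg2 c hc).1
  have hdb' : ∀ c ∈ J, HasDerivAt b' (L.B (g2 c)) c := fun c hc =>
    L.B.hasFDerivAt.comp_hasDerivAt c (hg2 c hc).1
  have hW : ∀ c, L.ct l c = a c • S.e + b c • L.w := fun c => L.inW_ct hlW c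
  have hW' : ∀ c, L.ct l' c = a' c • S.e + b' c • L.w := fun c => L.inW_ct hlW' c
  have hmem : ∀ c ∈ J, ∀ s t : ℝ, (∃ m : ℤ, s = m) → (∃ m : ℤ, t = m) →
      s • L.ct l c + t • L.ct l' c ∈ S.H (L.Y c) := by
    rintro c hc _ _ ⟨m, rfl⟩ ⟨n, rfl⟩
    rw [Int.cast_smul_eq_zsmul, Int.cast_smul_eq_zsmul]
    exact (S.H (L.Y c)).add_mem ((S.H _).zsmul_mem (hJ c hc).2.2.2.1 m)
      ((S.H _).zsmul_mem (hJ c hc).2.2.2.2.1 n)
  -- no rational relation
  have hirr : ∀ c ∈ J, ∀ m n : ℤ, (m : ℝ) * b c + n * b' c = 0 → m = 0 ∧ n = 0 := by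
    intro c hc m n hmn
    have h1 := hmem c hc m n ⟨m, rfl⟩ ⟨n, rfl⟩
    rw [hW, hW'] at h1
    have h2 : (m : ℝ) • (a c • S.e + b c • L.w) + (n : ℝ) • (a' c • S.e + b' c • L.w) =
        (m * a c + n * a' c : ℝ) • S.e + (m * b c + n * b' c : ℝ) • L.w := by
      simp only [smul_add, smul_smul, add_smul]
      abel
    rw [h2, hmn, zero_smul, add_zero] at h1
    have h3 : (m : ℝ) * a c + n * a' c = 0 := by
      by_contra hne
      exact hNC _ _ hne h1
    have h4 : a c * b' c - b c * a' c ≠ 0 := (hJ c hc).2.2.1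
    constructor
    · have : (m : ℝ) * (a c * b' c - b c * a' c) = 0 := by
        linear_combination (b' c) * h3 - a' c * hmn
      exact_mod_cast (mul_eq_zero.1 this).resolve_right h4
    · have : (n : ℝ) * (a c * b' c - b c * a' c) = 0 := by
        linear_combination (a c) * hmn - b c * h3
      exact_mod_cast (mul_eq_zero.1 this).resolve_right h4
  have hb'ne : ∀ c ∈ J, b' c ≠ 0 := by
    intro c hc h0
    have := hirr c hc 0 1 (by simp [h0])
    exact one_ne_zero this.2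
  -- the ratio is constant
  have hrat : ∀ c ∈ J, b c / b' c = b L.c0 / b' L.c0 := by
    have hcr : ContinuousOn (fun c => b c / b' c) J := fun c hc =>
      ((hdb c hc).continuousAt.div (hdb' c hc).continuousAt (hb'ne c hc)).continuousWithinAt
    have key : ∀ c ∈ J, ∀ c' ∈ J, ¬ (b c / b' c < b c' / b' c') := by
      intro c hc c' hc' hlt
      obtain ⟨q, hq1, hq2⟩ := exists_rat_btwn hlt
      obtain ⟨c'', hc'', hq⟩ := hJc.intermediate_value hc hc' hcr ⟨hq1.le, hq2.le⟩
      have h1 : b c'' = q * b' c'' := by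
        have := hb'ne c'' hc''
        field_simp at hq
        linarith
      have h2 : ((q.den : ℤ) : ℝ) * b c'' + ((-q.num : ℤ) : ℝ) * b' c'' = 0 := by
        have h3 : (q : ℝ) = q.num / q.den := by exact_mod_cast (Rat.num_div_den q).symm
        have h4 : (q.den : ℝ) ≠ 0 := by exact_mod_cast q.den_nz
        rw [h1, h3]
        push_cast
        field_simp
        ring
      have h5 := (hirr c'' hc'' _ _ h2).1
      have := q.den_nz
      omega
    intro c hc
    exact le_antisymm (not_lt.1 (key _ h0J _ hc)) (not_lt.1 (key _ hc _ h0J))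
  have h0 : u * b L.c0 + u' * b' L.c0 = 0 := by
    have := congrArg L.B hu
    simp only [map_add, map_smul, L.Be, smul_eq_mul] at this
    simp only [hb, hb', L.ct0 hl, L.ct0 hl']
    linarith
  have h0' : u * a L.c0 + u' * a' L.c0 = 1 := by
    have := congrArg L.A hu
    simp only [map_add, map_smul, L.Ae, smul_eq_mul] at this
    simp only [ha, ha', L.ct0 hl, L.ct0 hl']
    linarith
  have hzero : ∀ c ∈ J, u * b c + u' * b' c = 0 := by
    intro c hc
    have h1 := hrat c hc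
    have h2 := hb'ne c hc
    have h3 := hb'ne _ h0J
    rw [div_eq_div_iff h2 h3] at h1
    have h4 : (u * b c + u' * b' c) * b' L.c0 = 0 := by
      linear_combination u * h1 + b' c * h0
    exact (mul_eq_zero.1 h4).resolve_right h3
  -- the derivative
  have hgW : ∀ c ∈ J, S.mom (L.Y c) (g1 c) = L.A (g1 c) + c * L.B (g1 c) := by
    intro c hc
    have h1 : HasDerivAt (L.ct l) (L.A (g1 c) • S.e + L.B (g1 c) • L.w) c := by
      have h2 := ((hda c hc).smul_const S.e).add ((hdb c hc).smul_const L.w)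
      refine h2.congr_of_eventuallyEq (Filter.Eventually.of_forall fun c => ?_)
      exact hW c
    have h2 := (hg1 c hc).1.unique h1
    conv_lhs => rw [h2]
    rw [map_add, map_smul, map_smul, S.mom_e, (hJ c hc).2.2.2.2.2.2.2]
    simp only [smul_eq_mul]
    ring
  have hgW' : ∀ c ∈ J, S.mom (L.Y c) (g2 c) = L.A (g2 c) + c * L.B (g2 c) := by
    intro c hc
    have h1 : HasDerivAt (L.ct l') (L.A (g2 c) • S.e + L.B (g2 c) • L.w) c := by
      have h2 := ((hda' c hc).smul_const S.e).add ((hdb' c hc).smul_const L.w)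
      refine h2.congr_of_eventuallyEq (Filter.Eventually.of_forall fun c => ?_)
      exact hW' c
    have h2 := (hg2 c hc).1.unique h1
    conv_lhs => rw [h2]
    rw [map_add, map_smul, map_smul, S.mom_e, (hJ c hc).2.2.2.2.2.2.2]
    simp only [smul_eq_mul]
    ring
  have hG : ∀ c ∈ J, HasDerivAt (fun c => u * a c + u' * a' c) 0 c := by
    intro c hc
    have h1 := ((hda c hc).const_mul u).add ((hda' c hc).const_mul u')
    have h2 := ((hdb c hc).const_mul u).add ((hdb' c hc).const_mul u')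
    have h3 : HasDerivAt (fun c => u * b c + u' * b' c) 0 c := by
      refine (hasDerivAt_const c (0:ℝ)).congr_of_eventuallyEq ?_
      filter_upwards [hJo.mem_nhds hc] with c' hc'
      exact hzero c' hc'
    have h4 := h2.unique h3
    have h5 := (hg1 c hc).2
    have h6 := (hg2 c hc).2
    rw [hgW c hc] at h5
    rw [hgW' c hc] at h6
    refine h1.congr_deriv ?_
    linear_combination u * h5 + u' * h6 - c * h4
  have hconst : ∀ c ∈ J, u * a c + u' * a' c = 1 := by
    intro c hc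
    rw [← h0']
    exact hJo.is_const_of_deriv_eq_zero hJc
      (fun c hc => (hG c hc).differentiableAt.differentiableWithinAt)
      (fun c hc => (hG c hc).deriv) hc h0J
  filter_upwards [hJo.mem_nhds h0J] with c hc
  rw [hW, hW']
  have h2 : u • (a c • S.e + b c • L.w) + u' • (a' c • S.e + b' c • L.w) =
      (u * a c + u' * a' c : ℝ) • S.e + (u * b c + u' * b' c : ℝ) • L.w := by
    simp only [smul_add, smul_smul, add_smul]
    abel
  rw [h2, hzero c hc, hconst c hc]
  simp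

/-- the derivative of the action of a period -/
lemma der_action {γ : V} (hγ : γ ∈ S.H x) (hW : L.InW γ) :
    HasDerivAt (fun c => S.mom (L.Y c) (L.ct γ c)) (L.B γ) L.c0 := by
  obtain ⟨γ', h1, h2⟩ := (L.der γ hγ).self_of_nhds
  have h1' : HasDerivAt (L.ct γ) γ' L.c0 := h1.const_add γ
  have ha : HasDerivAt (fun c => L.A (L.ct γ c)) (L.A γ') L.c0 :=
    L.A.hasFDerivAt.comp_hasDerivAt _ h1'
  have hb : HasDerivAt (fun c => L.B (L.ct γ c)) (L.B γ') L.c0 :=
    L.B.hasFDerivAt.comp_hasDerivAt _ h1'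
  have h3 : HasDerivAt (L.ct γ) (L.A γ' • S.e + L.B γ' • L.w) L.c0 := by
    have h2 := (ha.smul_const S.e).add (hb.smul_const L.w)
    exact h2.congr_of_eventuallyEq (Filter.Eventually.of_forall fun c => L.inW_ct hW c)
  have h4 := h1'.unique h3
  have h5 : L.A γ' + L.c0 * L.B γ' = 0 := by
    have h6 : S.mom (L.Y L.c0) γ' = 0 := h2
    have h7 : S.mom (L.Y L.c0) L.w = L.c0 := L.Yc.self_of_nhds.2.2
    rw [h4, map_add, map_smul, map_smul, S.mom_e, h7] at h6
    simp only [smul_eq_mul] at h6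
    linarith
  have h6 := ha.add ((hasDerivAt_id L.c0).mul hb)
  have h7 : HasDerivAt (fun c => L.A (L.ct γ c) + c * L.B (L.ct γ c)) (L.B γ) L.c0 := by
    refine h6.congr_deriv ?_
    simp only [id, one_mul, L.ct0 hγ]
    linear_combination h5
  refine h7.congr_of_eventuallyEq ?_
  filter_upwards [L.Yc] with c hc
  conv_lhs => rw [show L.ct γ c = L.A (L.ct γ c) • S.e + L.B (L.ct γ c) • L.w from L.inW_ct hW c]
  rw [map_add, map_smul, map_smul, S.mom_e, hc.2.2]
  simp only [smul_eq_mul]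
  ring

end Loc2

end Pool.Agent.J4.H23.WN
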