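import Mathlib
import Pool.Agent.J4.H23.WN.Pair
import Pool.Agent.J4.H23.WN.Lat

/-! The case of minimal orbits of dimension two. -/

open scoped Topology
open Set Filter Metric

noncomputable section

namespace Pool.Agent.J4.H23.WN

variable {V : Type*} [NormedAddCommGroup V] [NormedSpace ℝ V]
  {M : Type*} [TopologicalSpace M]

namespace Loc2

variable {S : Sys V M} {C : Set M} {x : M} (L : Loc2 S C x)

lemma A_comb (a b : ℝ) : L.A (a • S.e + b • L.w) = a := by simp [L.Ae, L.Aw]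

lemma B_comb (a b : ℝ) : L.B (a • S.e + b • L.w) = b := by simp [L.Be, L.Bw]

lemma inW_comb (a b : ℝ) : L.InW (a • S.e + b • L.w) := by
  unfold InW
  rw [L.A_comb, L.B_comb]

lemma sub_pr_mem (v : V) : v - L.pr v ∈ S.h x := by
  rw [L.h_iff, map_sub, map_sub, L.A_pr, L.B_pr]
  simp

lemma pr_mem_H {v : V} (hv : v ∈ S.H x) : L.pr v ∈ S.H x := by
  have h1 : L.pr v = v - (v - L.pr v) := by abel
  rw [h1]
  exact (S.H x).sub_mem hv (S.h_le_H (L.sub_pr_mem v))

/-- a basis of the periods -/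
theorem exists_basis (hB : ∃ B : ℝ, ∀ v, ∃ k ∈ S.H x, ‖v - k‖ ≤ B) :
    ∃ l ∈ S.H x, ∃ l' ∈ S.H x, L.InW l ∧ L.InW l' ∧ L.A l * L.B l' - L.B l * L.A l' ≠ 0 ∧
      ∀ k ∈ S.H x, L.InW k → ∃ m n : ℤ, k = (m : ℝ) • l + (n : ℝ) • l' := by
  obtain ⟨B, hB⟩ := hB
  obtain ⟨r, hr, hdisc⟩ := L.disc
  have hdisc := hdisc.self_of_nhds
  let φ : (Fin 2 → ℝ) →+ V :=
    { toFun := fun z => z 0 • S.e + z 1 • L.w
      map_zero' := by simp
      map_add' := by
        intro a b
        simp only [Pi.add_apply, add_smul]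
        abel }
  have hφ : ∀ z, φ z = z 0 • S.e + z 1 • L.w := fun z => rfl
  set Λ : AddSubgroup (Fin 2 → ℝ) := (S.H x).comap φ with hΛ
  have hmem : ∀ z, z ∈ Λ ↔ z 0 • S.e + z 1 • L.w ∈ S.H x := fun z => Iff.rfl
  have h1 : ∃ r > 0, ∀ z ∈ Λ, ‖z‖ < r → z = 0 := by
    refine ⟨r / (‖S.e‖ + ‖L.w‖ + 1), by positivity, fun z hz hzr => ?_⟩
    have h0 : ‖z 0 • S.e + z 1 • L.w‖ < r := by
      have a0 := norm_le_pi_norm z 0
      have a1 := norm_le_pi_norm z 1
      rw [lt_div_iff₀ (by positivity)] at hzr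
      calc ‖z 0 • S.e + z 1 • L.w‖ ≤ ‖z 0‖ * ‖S.e‖ + ‖z 1‖ * ‖L.w‖ := by
            refine (norm_add_le _ _).trans ?_
            rw [norm_smul, norm_smul]
        _ ≤ ‖z‖ * ‖S.e‖ + ‖z‖ * ‖L.w‖ := by gcongr
        _ ≤ ‖z‖ * (‖S.e‖ + ‖L.w‖ + 1) := by nlinarith [norm_nonneg z]
        _ < r := hzr
    obtain ⟨e0, e1⟩ := hdisc _ _ h0 hz
    ext i
    fin_cases i
    · exact e0
    · exact e1
  have h2 : ∃ B, ∀ z, ∃ k ∈ Λ, ‖z - k‖ ≤ B := by
    refine ⟨(‖L.A‖ + ‖L.B‖) * |B|, fun z => ?_⟩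
    obtain ⟨k, hk, hkB⟩ := hB (z 0 • S.e + z 1 • L.w)
    refine ⟨![L.A k, L.B k], ?_, ?_⟩
    · rw [hmem]
      exact L.pr_mem_H hk
    · have b1 : |B| ≥ ‖z 0 • S.e + z 1 • L.w - k‖ := hkB.trans (le_abs_self B)
      rw [pi_norm_le_iff_of_nonneg (by positivity)]
      intro i
      fin_cases i
      · have := L.A.le_opNorm (z 0 • S.e + z 1 • L.w - k)
        rw [map_sub, L.A_comb] at this
        simp only [Fin.zero_eta, Pi.sub_apply, Matrix.cons_val_zero]
        refine this.trans ?_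
        calc ‖L.A‖ * ‖z 0 • S.e + z 1 • L.w - k‖ ≤ ‖L.A‖ * |B| := by gcongr
          _ ≤ (‖L.A‖ + ‖L.B‖) * |B| := by
            have := norm_nonneg L.B
            have := abs_nonneg B
            nlinarith
      · have := L.B.le_opNorm (z 0 • S.e + z 1 • L.w - k)
        rw [map_sub, L.B_comb] at this
        simp only [Fin.mk_one, Pi.sub_apply, Matrix.cons_val_one, Matrix.cons_val_fin_one]
        refine this.trans ?_
        calc ‖L.B‖ * ‖z 0 • S.e + z 1 • L.w - k‖ ≤ ‖L.B‖ * |B| := by gcongr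
          _ ≤ (‖L.A‖ + ‖L.B‖) * |B| := by
            have := norm_nonneg L.A
            have := abs_nonneg B
            nlinarith
  obtain ⟨l, hl, l', hl', hdet, hgen⟩ := lattice2 Λ h1 h2
  refine ⟨φ l, hl, φ l', hl', L.inW_comb _ _, L.inW_comb _ _, ?_, ?_⟩
  · rw [hφ, hφ, L.A_comb, L.B_comb, L.A_comb, L.B_comb]
    exact hdet
  · intro k hk hkW
    have hk' : ![L.A k, L.B k] ∈ Λ := by
      rw [hmem]
      exact L.pr_mem_H hk
    obtain ⟨m, n, hmn⟩ := hgen _ hk'
    refine ⟨m, n, ?_⟩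
    have h0 := congrFun hmn 0
    have h1 := congrFun hmn 1
    simp only [Matrix.cons_val_zero, Matrix.cons_val_one, Matrix.cons_val_fin_one, Pi.add_apply,
      Pi.smul_apply, smul_eq_mul] at h0 h1
    rw [show k = L.A k • S.e + L.B k • L.w from hkW, hφ, hφ, h0, h1]
    simp only [smul_add, smul_smul, add_smul]
    abel

lemma tendsto_mom : Tendsto (fun y => S.mom y L.w) (𝓝 x) (𝓝 L.c0) := by
  have h : Continuous fun y => S.mom y L.w :=
    (ContinuousLinearMap.apply ℝ ℝ L.w).continuous.comp S.momc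
  exact h.continuousAt

lemma continuousAt_ct {γ : V} (hγ : γ ∈ S.H x) : ContinuousAt (L.ct γ) L.c0 := by
  obtain ⟨γ', h1, -⟩ := (L.der γ hγ).self_of_nhds
  exact (h1.const_add γ).continuousAt

/-- independence persists -/
lemma det_near {l l' : V} (hl : l ∈ S.H x) (hl' : l' ∈ S.H x)
    (hdet : L.A l * L.B l' - L.B l * L.A l' ≠ 0) :
    ∀ᶠ c in 𝓝 L.c0,
      L.A (L.ct l c) * L.B (L.ct l' c) - L.B (L.ct l c) * L.A (L.ct l' c) ≠ 0 := by
  have h1 : ContinuousAt (fun c => L.A (L.ct l c) * L.B (L.ct l' c) -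
      L.B (L.ct l c) * L.A (L.ct l' c)) L.c0 := by
    have a1 := L.A.continuous.continuousAt.comp (L.continuousAt_ct hl)
    have a2 := L.A.continuous.continuousAt.comp (L.continuousAt_ct hl')
    have b1 := L.B.continuous.continuousAt.comp (L.continuousAt_ct hl)
    have b2 := L.B.continuous.continuousAt.comp (L.continuousAt_ct hl')
    exact (a1.mul b2).sub (b1.mul a2)
  refine h1.eventually_ne ?_
  rw [L.ct0 hl, L.ct0 hl']
  exact hdet

/-- coordinates with respect to a pair -/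
lemma coord {l l' : V} (hlW : L.InW l) (hlW' : L.InW l')
    (hdet : L.A l * L.B l' - L.B l * L.A l' ≠ 0) {k : V} (hk : L.InW k) :
    ∃ s t : ℝ, k = s • l + t • l' := by
  set D := L.A l * L.B l' - L.B l * L.A l' with hD
  refine ⟨(L.A k * L.B l' - L.B k * L.A l') / D, (L.A l * L.B k - L.B l * L.A k) / D, ?_⟩
  have h1 : l = L.A l • S.e + L.B l • L.w := hlW
  have h2 : l' = L.A l' • S.e + L.B l' • L.w := hlW'
  have h3 : k = L.A k • S.e + L.B k • L.w := hk
  have h4 : ∀ s t : ℝ, s • l + t • l' = (s * L.A l + t * L.A l') • S.e +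
      (s * L.B l + t * L.B l') • L.w := by
    intro s t
    calc s • l + t • l' = s • (L.A l • S.e + L.B l • L.w) + t • (L.A l' • S.e + L.B l' • L.w) := by
          rw [← h1, ← h2]
      _ = _ := by
        simp only [smul_add, smul_smul, add_smul]
        abel
  rw [h4]
  have e1 : (L.A k * L.B l' - L.B k * L.A l') / D * L.A l +
      (L.A l * L.B k - L.B l * L.A k) / D * L.A l' = L.A k := by
    field_simp
    rw [hD]; ring
  have e2 : (L.A k * L.B l' - L.B k * L.A l') / D * L.B l +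
      (L.A l * L.B k - L.B l * L.A k) / D * L.B l' = L.B k := by
    field_simp
    rw [hD]; ring
  rw [e1, e2]
  exact h3

lemma coord_unique {l l' : V} (hdet : L.A l * L.B l' - L.B l * L.A l' ≠ 0) {s t s' t' : ℝ}
    (h : s • l + t • l' = s' • l + t' • l') : s = s' ∧ t = t' := by
  have h1 := congrArg L.A h
  have h2 := congrArg L.B h
  simp only [map_add, map_smul, smul_eq_mul] at h1 h2
  constructor
  · have : (s - s') * (L.A l * L.B l' - L.B l * L.A l') = 0 := by
      linear_combination (L.B l') * h1 - (L.A l') * h2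
    exact sub_eq_zero.1 ((mul_eq_zero.1 this).resolve_right hdet)
  · have : (t - t') * (L.A l * L.B l' - L.B l * L.A l') = 0 := by
      linear_combination (L.A l) * h2 - (L.B l) * h1
    exact sub_eq_zero.1 ((mul_eq_zero.1 this).resolve_right hdet)

/-- a basis of the periods is continued to bases of the periods -/
theorem gen_near [T2Space M] {d : ℕ} (hC : ∀ y, y ∈ C ↔ Module.finrank ℝ (S.h y) = d) {l l' : V}
    (hl : l ∈ S.H x) (hl' : l' ∈ S.H x) (hlW : L.InW l) (hlW' : L.InW l')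
    (hdet : L.A l * L.B l' - L.B l * L.A l' ≠ 0)
    (hgen : ∀ k ∈ S.H x, L.InW k → ∃ m n : ℤ, k = (m : ℝ) • l + (n : ℝ) • l') :
    ∀ᶠ c in 𝓝 L.c0, ∀ k ∈ S.H (L.Y c), L.InW k →
      ∃ m n : ℤ, k = (m : ℝ) • L.ct l c + (n : ℝ) • L.ct l' c := by
  set K : Set (ℝ × ℝ) := Icc (-(1/2)) (1/2) ×ˢ Icc (-(1/2)) (1/2) with hK
  have hKc : IsCompact K := isCompact_Icc.prod isCompact_Icc
  have hf : ∀ t₀ : ℝ × ℝ, ContinuousAt (fun p : ℝ × (ℝ × ℝ) =>
      p.2.1 • L.ct l p.1 + p.2.2 • L.ct l' p.1) (L.c0, t₀) := by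
    intro t₀
    have h1 : ContinuousAt (fun p : ℝ × (ℝ × ℝ) => L.ct l p.1) (L.c0, t₀) :=
      ContinuousAt.comp (g := L.ct l) (L.continuousAt_ct hl) continuousAt_fst
    have h2 : ContinuousAt (fun p : ℝ × (ℝ × ℝ) => L.ct l' p.1) (L.c0, t₀) :=
      ContinuousAt.comp (g := L.ct l') (L.continuousAt_ct hl') continuousAt_fst
    have h3 : ContinuousAt (fun p : ℝ × (ℝ × ℝ) => p.2.1) (L.c0, t₀) := by fun_prop
    have h4 : ContinuousAt (fun p : ℝ × (ℝ × ℝ) => p.2.2) (L.c0, t₀) := by fun_prop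
    exact (h3.smul h1).add (h4.smul h2)
  have hY : ∀ t₀ : ℝ × ℝ, ContinuousAt (fun p : ℝ × (ℝ × ℝ) => L.Y p.1) (L.c0, t₀) := fun t₀ =>
    ContinuousAt.comp (g := L.Y) L.Yc.self_of_nhds.1 continuousAt_fst
  have hYx : L.Y L.c0 = x := L.Y0
  have key : ∀ᶠ c in 𝓝 L.c0, ∀ t ∈ K,
      S.act (t.1 • L.ct l c + t.2 • L.ct l' c) (L.Y c) = L.Y c → t = 0 := by
    refine hKc.eventually_forall_of_forall_eventually (P := fun c t =>
      S.act (t.1 • L.ct l c + t.2 • L.ct l' c) (L.Y c) = L.Y c → t = 0) fun t₀ ht₀ => ?_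
    by_cases h0 : t₀ = 0
    · subst h0
      obtain ⟨r, hr, hdisc⟩ := L.disc
      have h1 : ∀ᶠ p : ℝ × (ℝ × ℝ) in 𝓝 (L.c0, 0),
          ‖p.2.1 • L.ct l p.1 + p.2.2 • L.ct l' p.1‖ < r := by
        have h2 := (hf 0).norm
        refine h2.eventually_lt continuousAt_const ?_
        simpa using hr
      have h2 : ∀ᶠ p : ℝ × (ℝ × ℝ) in 𝓝 (L.c0, 0), ∀ a b : ℝ, ‖a • S.e + b • L.w‖ < r →
          S.act (a • S.e + b • L.w) (L.Y p.1) = L.Y p.1 → a = 0 ∧ b = 0 := by
        have h3 := (hY 0).tendsto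
        simp only [hYx] at h3
        exact h3.eventually hdisc
      have h3 : ∀ᶠ p : ℝ × (ℝ × ℝ) in 𝓝 (L.c0, 0),
          L.A (L.ct l p.1) * L.B (L.ct l' p.1) - L.B (L.ct l p.1) * L.A (L.ct l' p.1) ≠ 0 :=
        (continuousAt_fst (p := ((L.c0, 0) : ℝ × (ℝ × ℝ)))).tendsto.eventually
          (L.det_near hl hl' hdet)
      filter_upwards [h1, h2, h3] with p hp1 hp2 hp3 hp4
      have e1 : p.2.1 • L.ct l p.1 + p.2.2 • L.ct l' p.1 =
          (p.2.1 * L.A (L.ct l p.1) + p.2.2 * L.A (L.ct l' p.1)) • S.e +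
          (p.2.1 * L.B (L.ct l p.1) + p.2.2 * L.B (L.ct l' p.1)) • L.w := by
        have a1 : L.ct l p.1 = L.A (L.ct l p.1) • S.e + L.B (L.ct l p.1) • L.w :=
          L.inW_ct hlW p.1
        have a2 : L.ct l' p.1 = L.A (L.ct l' p.1) • S.e + L.B (L.ct l' p.1) • L.w :=
          L.inW_ct hlW' p.1
        calc p.2.1 • L.ct l p.1 + p.2.2 • L.ct l' p.1 =
            p.2.1 • (L.A (L.ct l p.1) • S.e + L.B (L.ct l p.1) • L.w) +
              p.2.2 • (L.A (L.ct l' p.1) • S.e + L.B (L.ct l' p.1) • L.w) := by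
                rw [← a1, ← a2]
          _ = _ := by
            simp only [smul_add, smul_smul, add_smul]
            abel
      rw [e1] at hp1 hp4
      obtain ⟨z1, z2⟩ := hp2 _ _ hp1 hp4
      have h5 := L.coord_unique hp3 (s := p.2.1) (t := p.2.2) (s' := 0) (t' := 0) (by
        rw [e1, z1, z2]; simp)
      exact Prod.ext h5.1 h5.2
    · -- not an isotropy element at `c0`
      have h1 : S.act (t₀.1 • L.ct l L.c0 + t₀.2 • L.ct l' L.c0) (L.Y L.c0) ≠ L.Y L.c0 := by
        rw [L.ct0 hl, L.ct0 hl', hYx]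
        intro h2
        have hW : L.InW (t₀.1 • l + t₀.2 • l') := by
          unfold InW
          simp only [map_add, map_smul, smul_eq_mul]
          have a1 : l = L.A l • S.e + L.B l • L.w := hlW
          have a2 : l' = L.A l' • S.e + L.B l' • L.w := hlW'
          calc t₀.1 • l + t₀.2 • l' =
              t₀.1 • (L.A l • S.e + L.B l • L.w) + t₀.2 • (L.A l' • S.e + L.B l' • L.w) := by
                rw [← a1, ← a2]
            _ = _ := by
              simp only [smul_add, smul_smul, add_smul]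
              abel
        obtain ⟨m, n, hmn⟩ := hgen _ h2 hW
        obtain ⟨e1, e2⟩ := L.coord_unique hdet hmn
        have hz : ∀ (s : ℝ) (m : ℤ), s ∈ Icc (-(1/2) : ℝ) (1/2) → s = m → s = 0 := by
          rintro s m ⟨h1, h2⟩ rfl
          have h3 : (-1 : ℝ) < m := by linarith
          have h4 : (m : ℝ) < 1 := by linarith
          have h5 : -1 < m := by exact_mod_cast h3
          have h6 : m < 1 := by exact_mod_cast h4
          have : m = 0 := by omega
          rw [this]; simp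
        exact h0 (Prod.ext (hz _ m ht₀.1 e1) (hz _ n ht₀.2 e2))
      have h2 : ContinuousAt (fun p : ℝ × (ℝ × ℝ) =>
          S.act (p.2.1 • L.ct l p.1 + p.2.2 • L.ct l' p.1) (L.Y p.1)) (L.c0, t₀) :=
        ContinuousAt.comp (g := fun p : V × M => S.act p.1 p.2)
          (f := fun p : ℝ × (ℝ × ℝ) => (p.2.1 • L.ct l p.1 + p.2.2 • L.ct l' p.1, L.Y p.1))
          S.cont.continuousAt ((hf t₀).prodMk (hY t₀))
      have h3 : ∀ᶠ p : ℝ × (ℝ × ℝ) in 𝓝 (L.c0, t₀),
          S.act (p.2.1 • L.ct l p.1 + p.2.2 • L.ct l' p.1) (L.Y p.1) ≠ L.Y p.1 := by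
        have h4 := h2.tendsto.prodMk_nhds (hY t₀).tendsto
        exact h4.eventually ((isClosed_diagonal (X := M)).isOpen_compl.mem_nhds h1)
      filter_upwards [h3] with p hp hp'
      exact absurd hp' hp
  filter_upwards [key, L.det_near hl hl' hdet, L.ct_mem hC hl, L.ct_mem hC hl'] with c hc hdc h1 h2
    k hk hkW
  obtain ⟨s, t, hst⟩ := L.coord (L.inW_ct hlW c) (L.inW_ct hlW' c) hdc hkW
  refine ⟨round s, round t, ?_⟩
  have h3 : (s - round s, t - round t) ∈ K := by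
    have hr : ∀ s : ℝ, s - round s ∈ Icc (-(1/2) : ℝ) (1/2) := fun s => by
      have := abs_sub_round s
      exact abs_le.1 this
    exact ⟨hr s, hr t⟩
  have h4 : (s - round s) • L.ct l c + (t - round t) • L.ct l' c ∈ S.H (L.Y c) := by
    have e1 : (s - round s) • L.ct l c + (t - round t) • L.ct l' c =
        k - (((round s : ℤ) : ℝ) • L.ct l c + ((round t : ℤ) : ℝ) • L.ct l' c) := by
      rw [hst]
      simp only [sub_smul]
      abel
    rw [e1]
    refine (S.H _).sub_mem hk ((S.H _).add_mem ?_ ?_)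
    · rw [Int.cast_smul_eq_zsmul]
      exact (S.H _).zsmul_mem h1 _
    · rw [Int.cast_smul_eq_zsmul]
      exact (S.H _).zsmul_mem h2 _
  have h5 := hc _ h3 h4
  have e1 : s = round s := by
    have := congrArg Prod.fst h5
    simp only [Prod.fst_zero] at this
    linarith
  have e2 : t = round t := by
    have := congrArg Prod.snd h5
    simp only [Prod.snd_zero] at this
    linarith
  rw [hst]
  conv_lhs => rw [e1, e2]

end Loc2

end Pool.Agent.J4.H23.WN
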