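import Mathlib
import Pool.Agent.J4.H23.WN.Two

/-! The case of minimal orbits of dimension two: the global argument. -/

open scoped Topology
open Set Filter Metric

noncomputable section

namespace Pool.Agent.J4.H23.WN

variable {V : Type*} [NormedAddCommGroup V] [NormedSpace ℝ V]
  {M : Type*} [TopologicalSpace M]

/-- the pair `γ, γ'` of periods at `y` has the frequencies `u, u'` -/
def Qu (S : Sys V M) (C : Set M) (u u' : ℝ) (y : M) (γ γ' : V) : Prop :=
  y ∈ C ∧ γ ∈ S.H y ∧ γ' ∈ S.H y ∧ S.e - (u • γ + u' • γ') ∈ S.h y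

namespace Loc2

variable {S : Sys V M} {C : Set M} {x : M} (L : Loc2 S C x)

/-- near `x` the points of `C` satisfy `V = h y ⊕ W` -/
lemma decomp [FiniteDimensional ℝ V] {d : ℕ} (hC : ∀ y, y ∈ C ↔ Module.finrank ℝ (S.h y) = d)
    (hdV : Module.finrank ℝ V = d + 2) :
    ∀ᶠ y in 𝓝 x, y ∈ C → (∀ a b : ℝ, a • S.e + b • L.w ∈ S.h y → a = 0 ∧ b = 0) ∧
      ∀ v, ∃ a b : ℝ, v - (a • S.e + b • L.w) ∈ S.h y := by
  obtain ⟨r, hr, hdisc⟩ := L.disc
  filter_upwards [hdisc] with y hy hyC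
  have hinj : ∀ a b : ℝ, a • S.e + b • L.w ∈ S.h y → a = 0 ∧ b = 0 := by
    intro a b hab
    set n := ‖a • S.e + b • L.w‖ with hn
    set t : ℝ := r / (2 * (n + 1)) with ht
    have hn0 : 0 ≤ n := norm_nonneg _
    have ht0 : 0 < t := by positivity
    have h1 : t • (a • S.e + b • L.w) = (t * a) • S.e + (t * b) • L.w := by
      rw [smul_add, smul_smul, smul_smul]
    have h2 : ‖(t * a) • S.e + (t * b) • L.w‖ < r := by
      rw [← h1, norm_smul, Real.norm_of_nonneg ht0.le, ← hn, ht, div_mul_eq_mul_div,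
        div_lt_iff₀ (by positivity)]
      nlinarith
    have h3 : S.act ((t * a) • S.e + (t * b) • L.w) y = y := by
      rw [← h1]
      exact (S.mem_h y _).1 hab t
    obtain ⟨z1, z2⟩ := hy _ _ h2 h3
    exact ⟨(mul_eq_zero.1 z1).resolve_left ht0.ne', (mul_eq_zero.1 z2).resolve_left ht0.ne'⟩
  refine ⟨hinj, ?_⟩
  let T : (S.h y) × (ℝ × ℝ) →ₗ[ℝ] V :=
    { toFun := fun p => (p.1 : V) + (p.2.1 • S.e + p.2.2 • L.w)
      map_add' := by
        intro p q
        simp only [Prod.fst_add, Prod.snd_add, Submodule.coe_add, add_smul]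
        abel
      map_smul' := by
        intro c p
        simp only [Prod.smul_fst, Prod.smul_snd, Submodule.coe_smul, RingHom.id_apply, smul_add,
          smul_smul, smul_eq_mul] }
  have hT : ∀ p, T p = (p.1 : V) + (p.2.1 • S.e + p.2.2 • L.w) := fun p => rfl
  have hTinj : Function.Injective T := by
    rw [injective_iff_map_eq_zero]
    rintro ⟨k, a, b⟩ hp
    rw [hT] at hp
    have h1 : a • S.e + b • L.w = -(k : V) := by
      rw [eq_neg_iff_add_eq_zero, add_comm]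
      exact hp
    have h2 := hinj a b (by rw [h1]; exact (S.h y).neg_mem k.2)
    have h3 : (k : V) = 0 := by
      rw [h2.1, h2.2] at h1
      simpa using h1.symm
    exact Prod.ext (Subtype.ext h3) (Prod.ext h2.1 h2.2)
  have hdim : Module.finrank ℝ ((S.h y) × (ℝ × ℝ)) = Module.finrank ℝ V := by
    rw [Module.finrank_prod, Module.finrank_prod, (hC y).1 hyC, hdV]
    simp
  have hsurj := (LinearMap.injective_iff_surjective_of_finrank_eq_finrank hdim).1 hTinj
  intro v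
  obtain ⟨⟨k, a, b⟩, hk⟩ := hsurj v
  refine ⟨a, b, ?_⟩
  rw [← hk, hT]
  simp

include L in
/-- **The local structure of the periods.** -/
theorem local_claim [FiniteDimensional ℝ V] [T2Space M] {d : ℕ}
    (hC : ∀ y, y ∈ C ↔ Module.finrank ℝ (S.h y) = d)
    (hdV : Module.finrank ℝ V = d + 2) (hNC : NC S) (hxC : x ∈ C)
    (hB : ∃ B : ℝ, ∀ v, ∃ k ∈ S.H x, ‖v - k‖ ≤ B) {u u' : ℝ}
    (hu : ∀ m n : ℤ, u * m + u' * n = 0 → m = 0 ∧ n = 0) :
    ∃ P : M → ℝ, ContinuousAt P x ∧ ∀ᶠ y in 𝓝 x, ∀ γ γ', Qu S C u u' y γ γ' →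
      ∃ γ₀ γ₀', Qu S C u u' x γ₀ γ₀' ∧ S.mom x γ₀ = P x ∧ S.mom y γ = P y := by
  obtain ⟨l, hl, l', hl', hlW, hlW', hdet, hgen⟩ := L.exists_basis hB
  obtain ⟨v, v', hv⟩ := L.coord hlW hlW' hdet (k := S.e) (by
    unfold InW
    rw [L.Ae, L.Be]; simp)
  have hpair := L.pair hC hNC hl hl' hlW hlW' hv
  have hgen' := L.gen_near hC hl hl' hlW hlW' hdet hgen
  have hdet' := L.det_near hl hl' hdet
  -- uniqueness of integral solutions
  have huniq : ∀ {s : ℝ} {m m' n n' : ℤ}, u * m + u' * m' = s → u * n + u' * n' = s →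
      m = n ∧ m' = n' := by
    intro s m m' n n' h1 h2
    have h3 := hu (m - n) (m' - n') (by push_cast; linarith)
    constructor <;> omega
  have hlocC : ∀ᶠ y in 𝓝 x, ∀ γ γ', Qu S C u u' y γ γ' → ∃ m m' n n' : ℤ,
      u * m + u' * m' = v ∧ u * n + u' * n' = v' ∧
      S.mom y γ = S.mom (L.Y (S.mom y L.w))
        ((m : ℝ) • L.ct l (S.mom y L.w) + (n : ℝ) • L.ct l' (S.mom y L.w)) := by
    filter_upwards [L.decomp hC hdV, L.loc, L.tendsto_mom.eventually hpair,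
      L.tendsto_mom.eventually hgen', L.tendsto_mom.eventually hdet'] with y h1 h2 h3 h4 h5 γ γ' hQ
    set c := S.mom y L.w with hc
    obtain ⟨hyC, hγ, hγ', hrel⟩ := hQ
    obtain ⟨hinj, hdec⟩ := h1 hyC
    have hH : S.H (L.Y c) = S.H y := S.H_of_act_eq (h2 hyC)
    have hm : S.mom (L.Y c) = S.mom y := S.mom_of_act_eq (h2 hyC)
    obtain ⟨a, b, hab⟩ := hdec γ
    obtain ⟨a', b', hab'⟩ := hdec γ'
    have hp : ∀ {γ : V} {a b : ℝ}, γ ∈ S.H y → γ - (a • S.e + b • L.w) ∈ S.h y →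
        a • S.e + b • L.w ∈ S.H (L.Y c) := by
      intro γ a b hγ hab
      rw [hH]
      have : a • S.e + b • L.w = γ - (γ - (a • S.e + b • L.w)) := by abel
      rw [this]
      exact (S.H y).sub_mem hγ (S.h_le_H hab)
    obtain ⟨m, n, hmn⟩ := h4 _ (hp hγ hab) (L.inW_comb a b)
    obtain ⟨m', n', hmn'⟩ := h4 _ (hp hγ' hab') (L.inW_comb a' b')
    -- the relation
    have hrel2 : S.e - (u • (a • S.e + b • L.w) + u' • (a' • S.e + b' • L.w)) ∈ S.h y := by
      have : S.e - (u • (a • S.e + b • L.w) + u' • (a' • S.e + b' • L.w)) =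
          (S.e - (u • γ + u' • γ')) + (u • (γ - (a • S.e + b • L.w)) +
            u' • (γ' - (a' • S.e + b' • L.w))) := by
        simp only [smul_sub, smul_add]
        abel
      rw [this]
      exact (S.h y).add_mem hrel ((S.h y).add_mem ((S.h y).smul_mem _ hab)
        ((S.h y).smul_mem _ hab'))
    have hrel3 : S.e = u • (a • S.e + b • L.w) + u' • (a' • S.e + b' • L.w) := by
      have e1 : S.e - (u • (a • S.e + b • L.w) + u' • (a' • S.e + b' • L.w)) =
          (1 - u * a - u' * a') • S.e + (-(u * b) - u' * b') • L.w := by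
        simp only [smul_add, smul_smul, sub_smul, neg_smul, one_smul]
        abel
      rw [e1] at hrel2
      obtain ⟨z1, z2⟩ := hinj _ _ hrel2
      rw [z1, z2, zero_smul, zero_smul, add_zero] at e1
      exact sub_eq_zero.1 e1
    rw [hmn, hmn'] at hrel3
    have hrel4 : v • L.ct l c + v' • L.ct l' c =
        (u * m + u' * m') • L.ct l c + (u * n + u' * n') • L.ct l' c := by
      rw [← h3]
      conv_lhs => rw [hrel3]
      simp only [smul_add, smul_smul, add_smul]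
      abel
    obtain ⟨e1, e2⟩ := L.coord_unique h5 hrel4
    refine ⟨m, m', n, n', e1.symm, e2.symm, ?_⟩
    rw [hm, ← hmn]
    have := S.mom_h y _ hab
    rw [map_sub] at this
    linarith
  by_cases hsol : ∃ m m' n n' : ℤ, u * m + u' * m' = v ∧ u * n + u' * n' = v'
  · obtain ⟨m, m', n, n', e1, e2⟩ := hsol
    refine ⟨fun y => S.mom (L.Y (S.mom y L.w))
        ((m : ℝ) • L.ct l (S.mom y L.w) + (n : ℝ) • L.ct l' (S.mom y L.w)), ?_, ?_⟩
    · have h1 : ContinuousAt (fun c => S.mom (L.Y c)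
          ((m : ℝ) • L.ct l c + (n : ℝ) • L.ct l' c)) L.c0 := by
        have h2 : ContinuousAt (fun c => S.mom (L.Y c)) L.c0 :=
          S.momc.continuousAt.comp L.Yc.self_of_nhds.1
        have h3 : ContinuousAt (fun c => (m : ℝ) • L.ct l c + (n : ℝ) • L.ct l' c) L.c0 :=
          ((L.continuousAt_ct hl).const_smul _).add ((L.continuousAt_ct hl').const_smul _)
        exact h2.clm_apply h3
      exact ContinuousAt.comp (g := fun c => S.mom (L.Y c)
          ((m : ℝ) • L.ct l c + (n : ℝ) • L.ct l' c)) (f := fun y => S.mom y L.w) h1 L.tendsto_mom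
    · filter_upwards [hlocC] with y hy γ γ' hQ
      obtain ⟨k, k', j, j', f1, f2, f3⟩ := hy γ γ' hQ
      obtain ⟨rfl, rfl⟩ := huniq e1 f1
      obtain ⟨rfl, rfl⟩ := huniq e2 f2
      have hint : ∀ m n : ℤ, (m : ℝ) • l + (n : ℝ) • l' ∈ S.H x := by
        intro m n
        rw [Int.cast_smul_eq_zsmul, Int.cast_smul_eq_zsmul]
        exact (S.H x).add_mem ((S.H x).zsmul_mem hl m) ((S.H x).zsmul_mem hl' n)
      refine ⟨(m : ℝ) • l + (n : ℝ) • l', (m' : ℝ) • l + (n' : ℝ) • l',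
        ⟨hxC, hint m n, hint m' n', ?_⟩, ?_, f3⟩
      · have : S.e - (u • ((m : ℝ) • l + (n : ℝ) • l') + u' • ((m' : ℝ) • l + (n' : ℝ) • l')) = 0 := by
          rw [sub_eq_zero]
          conv_lhs => rw [hv, ← e1, ← e2]
          simp only [smul_add, smul_smul, add_smul]
          abel
        rw [this]
        exact (S.h x).zero_mem
      · have h1 : S.mom x L.w = L.c0 := rfl
        have h2 : L.Y L.c0 = x := L.Y0
        show S.mom x _ = S.mom (L.Y (S.mom x L.w)) _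
        rw [h1, L.ct0 hl, L.ct0 hl', h2]
  · refine ⟨fun _ => 0, continuousAt_const, ?_⟩
    filter_upwards [hlocC] with y hy γ γ' hQ
    obtain ⟨k, k', j, j', f1, f2, -⟩ := hy γ γ' hQ
    exact absurd ⟨k, k', j, j', f1, f2⟩ hsol

end Loc2

/-- **Closed orbits from nondegenerate orbits of dimension two.** -/
theorem two (S : Sys V M) [FiniteDimensional ℝ V] [T2Space M] [CompactSpace M] {C : Set M} {d : ℕ}
    (hC : ∀ y, y ∈ C ↔ Module.finrank ℝ (S.h y) = d) (hCcl : IsClosed C) (hCne : C.Nonempty)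
    (hdV : Module.finrank ℝ V = d + 2)
    (hB : ∀ x ∈ C, ∃ B : ℝ, ∀ v, ∃ k ∈ S.H x, ‖v - k‖ ≤ B)
    (L : ∀ x ∈ C, Loc2 S C x) : ∃ (y : M) (t : ℝ), t ≠ 0 ∧ S.act (t • S.e) y = y := by
  by_contra hcon
  have hNC : Loc2.NC S := by
    intro y t ht h
    exact hcon ⟨y, t, ht, h⟩
  obtain ⟨x₀, hx₀⟩ := hCne
  set L₀ := L x₀ hx₀ with hL₀
  obtain ⟨l, hl, l', hl', hlW, hlW', hdet, hgen⟩ := L₀.exists_basis (hB x₀ hx₀)
  obtain ⟨u, u', hu0⟩ := L₀.coord hlW hlW' hdet (k := S.e) (by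
    unfold Loc2.InW
    rw [L₀.Ae, L₀.Be]; simp)
  have hu : ∀ m n : ℤ, u * m + u' * n = 0 → m = 0 ∧ n = 0 := by
    intro m n hmn
    -- `n l - m l'` is parallel to `e`
    have hk : (n : ℝ) • l - (m : ℝ) • l' ∈ S.H x₀ := by
      rw [Int.cast_smul_eq_zsmul, Int.cast_smul_eq_zsmul]
      exact (S.H x₀).sub_mem ((S.H x₀).zsmul_mem hl n) ((S.H x₀).zsmul_mem hl' m)
    have h1 : u • ((n : ℝ) • l - (m : ℝ) • l') = (n : ℝ) • S.e := by
      conv_rhs => rw [hu0]
      simp only [smul_sub, smul_add, smul_smul]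
      have : u * (m : ℝ) = - (u' * n) := by linarith
      rw [this, neg_smul, sub_neg_eq_add, mul_comm u, mul_comm u']
    have h2 : u' • ((n : ℝ) • l - (m : ℝ) • l') = -((m : ℝ) • S.e) := by
      conv_rhs => rw [hu0]
      simp only [smul_sub, smul_add, smul_smul]
      have : u' * (n : ℝ) = - (u * m) := by linarith
      rw [this, neg_smul, mul_comm u', mul_comm u]
      abel
    by_contra hne
    have hcase : ∃ s t : ℝ, s ≠ 0 ∧ t • ((n : ℝ) • l - (m : ℝ) • l') = s • S.e := by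
      by_cases hn : n = 0
      · refine ⟨-m, u', ?_, ?_⟩
        · intro h
          apply hne
          refine ⟨?_, hn⟩
          exact_mod_cast neg_eq_zero.1 h
        · rw [h2, neg_smul]
      · exact ⟨n, u, by exact_mod_cast hn, h1⟩
    obtain ⟨s, t, hs, hst⟩ := hcase
    have ht : t ≠ 0 := by
      rintro rfl
      rw [zero_smul] at hst
      have := congrArg L₀.A hst
      rw [map_zero, map_smul, L₀.Ae, smul_eq_mul, mul_one] at this
      exact hs this.symm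
    have h3 : (n : ℝ) • l - (m : ℝ) • l' = (t⁻¹ * s) • S.e := by
      rw [mul_smul, ← hst, smul_smul, inv_mul_cancel₀ ht, one_smul]
    rw [h3] at hk
    exact hNC x₀ _ (mul_ne_zero (inv_ne_zero ht) hs) hk
  have hQ0 : Qu S C u u' x₀ l l' := by
    refine ⟨hx₀, hl, hl', ?_⟩
    rw [← hu0, sub_self]
    exact (S.h x₀).zero_mem
  have hclaim := fun x hx => (L x hx).local_claim hC hdV hNC hx (hB x hx) hu
  set T : Set M := {y | ∃ γ γ', Qu S C u u' y γ γ'} with hT
  have hTC : T ⊆ C := fun y ⟨γ, γ', h⟩ => h.1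
  have hTcl : IsClosed T := by
    rw [← closure_subset_iff_isClosed]
    intro x hx
    have hxC : x ∈ C := closure_minimal hTC hCcl hx
    obtain ⟨P, -, hP⟩ := hclaim x hxC
    have h1 : ∃ᶠ y in 𝓝 x, y ∈ T := mem_closure_iff_frequently.1 hx
    obtain ⟨y, ⟨γ, γ', hQ⟩, hy⟩ := (h1.and_eventually hP).exists
    obtain ⟨γ₀, γ₀', h2, -⟩ := hy γ γ' hQ
    exact ⟨γ₀, γ₀', h2⟩
  have hsel : ∀ y : M, ∃ γ : V, y ∈ T → ∃ γ', Qu S C u u' y γ γ' := by
    intro y
    by_cases hy : y ∈ T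
    · obtain ⟨γ, γ', h⟩ := hy
      exact ⟨γ, fun _ => ⟨γ', h⟩⟩
    · exact ⟨0, fun h => absurd h hy⟩
  choose sel hsel using hsel
  set p : M → ℝ := fun y => S.mom y (sel y) with hp
  have hval : ∀ y ∈ T, ∀ γ γ', Qu S C u u' y γ γ' → S.mom y γ = p y := by
    intro y hy γ γ' hQ
    obtain ⟨P, -, hP⟩ := hclaim y (hTC hy)
    have hPy := hP.self_of_nhds
    obtain ⟨-, -, -, -, h1⟩ := hPy γ γ' hQ
    obtain ⟨γ'', h2⟩ := hsel y hy
    obtain ⟨-, -, -, -, h3⟩ := hPy _ _ h2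
    rw [h1]
    exact h3.symm
  have hpc : ContinuousOn p T := by
    intro x hx
    obtain ⟨P, hPc, hP⟩ := hclaim x (hTC hx)
    have h1 : p x = P x := by
      obtain ⟨γ'', h2⟩ := hsel x hx
      obtain ⟨-, -, -, -, h3⟩ := hP.self_of_nhds _ _ h2
      exact h3
    have h2 : ∀ᶠ y in 𝓝[T] x, P y = p y := by
      filter_upwards [mem_nhdsWithin_of_mem_nhds hP, self_mem_nhdsWithin] with y hy hyT
      obtain ⟨γ'', h2⟩ := hsel y hyT
      obtain ⟨-, -, -, -, h3⟩ := hy _ _ h2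
      exact h3.symm
    have h3 : ContinuousWithinAt P T x := hPc.continuousWithinAt
    exact h3.congr_of_eventuallyEq (h2.mono fun y hy => hy.symm) h1
  obtain ⟨x, hxT, hmax⟩ := hTcl.isCompact.exists_isMaxOn ⟨x₀, l, l', hQ0⟩ hpc
  -- the maximum
  have hxC := hTC hxT
  set Lx := L x hxC with hLx
  obtain ⟨γ, γ', -, hγ, hγ', hrel⟩ := hxT
  have hk := Lx.pr_mem_H hγ
  have hk' := Lx.pr_mem_H hγ'
  have hkW := Lx.inW_pr γ
  have hkW' := Lx.inW_pr γ'
  have hrel2 : S.e = u • Lx.pr γ + u' • Lx.pr γ' := by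
    rw [Lx.h_iff] at hrel
    obtain ⟨r1, r2⟩ := hrel
    simp only [map_sub, map_add, map_smul, Lx.Ae, Lx.Be, smul_eq_mul] at r1 r2
    have h1 : u • Lx.pr γ + u' • Lx.pr γ' = (u * Lx.A γ + u' * Lx.A γ') • S.e +
        (u * Lx.B γ + u' * Lx.B γ') • Lx.w := by
      unfold Loc2.pr
      simp only [smul_add, smul_smul, add_smul]
      abel
    rw [h1, show u * Lx.A γ + u' * Lx.A γ' = 1 by linarith,
      show u * Lx.B γ + u' * Lx.B γ' = 0 by linarith]
    simp
  have hpair := Lx.pair hC hNC hk hk' hkW hkW' hrel2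
  have hQx : Qu S C u u' x (Lx.pr γ) (Lx.pr γ') := by
    refine ⟨hxC, hk, hk', ?_⟩
    rw [← hrel2, sub_self]
    exact (S.h x).zero_mem
  have hlm : IsLocalMax (fun c => S.mom (Lx.Y c) (Lx.ct (Lx.pr γ) c)) Lx.c0 := by
    show ∀ᶠ c in 𝓝 Lx.c0, _
    filter_upwards [hpair, Lx.ct_mem hC hk, Lx.ct_mem hC hk', Lx.Yc] with c h1 h2 h3 h4
    have hQc : Qu S C u u' (Lx.Y c) (Lx.ct (Lx.pr γ) c) (Lx.ct (Lx.pr γ') c) := by
      refine ⟨h4.2.1, h2, h3, ?_⟩
      rw [← h1, sub_self]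
      exact (S.h _).zero_mem
    have h5 := hval _ ⟨_, _, hQc⟩ _ _ hQc
    have h6 := hval _ ⟨_, _, hQx⟩ _ _ hQx
    have h7 : Lx.Y Lx.c0 = x := Lx.Y0
    rw [h5, Lx.ct0 hk, h7, h6]
    exact hmax ⟨_, _, hQc⟩
  have hder := Lx.der_action hk hkW
  have hB0 := hlm.hasDerivAt_eq_zero hder
  have hpr : Lx.pr γ = Lx.A γ • S.e := by
    rw [Lx.B_pr] at hB0
    unfold Loc2.pr
    rw [hB0, zero_smul, add_zero]
  have hA0 : Lx.A γ = 0 := by
    by_contra h
    rw [hpr] at hk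
    exact hNC x _ h hk
  rw [hpr, hA0, zero_smul, smul_zero, zero_add] at hrel2
  have hu' : u' ≠ 0 := by
    rintro rfl
    have := (hu 0 1 (by simp)).2
    exact one_ne_zero this
  have h8 : Lx.pr γ' = u'⁻¹ • S.e := by
    conv_rhs => rw [hrel2]
    rw [smul_smul, inv_mul_cancel₀ hu', one_smul]
  rw [h8] at hk'
  exact hNC x _ (inv_ne_zero hu') hk'

end Pool.Agent.J4.H23.WN
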