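import Mathlib
import Pool.Agent.J4.H23.WN.Family
import Pool.Agent.J4.H23.WN.Fin2

/-! The local data of the nondegenerate orbits of minimal dimension. -/

open scoped Topology ContDiff
open Set Filter Metric

noncomputable section

namespace Pool.Agent.J4.H23.WN

set_option linter.unusedSectionVars false

variable {V E : Type*} [NormedAddCommGroup V] [NormedSpace ℝ V] [FiniteDimensional ℝ V]
  [NormedAddCommGroup E] [NormedSpace ℝ E] [FiniteDimensional ℝ E]
  {M : Type*} [TopologicalSpace M]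
  {S : Sys V M} {x : M}

/-- complements exist -/
lemma exists_cpl (S : Sys V M) (x : M) (k : ℕ)
    (hk : Module.finrank ℝ (S.h x) + (k + 1) = Module.finrank ℝ V) :
    Nonempty (Cpl S x (Fin k → ℝ)) := by
  have he : S.e ∉ S.h x := by
    intro h
    have := S.mom_h x _ h
    rw [S.mom_e] at this
    exact one_ne_zero this
  have he0 : S.e ≠ 0 := fun h => he (h ▸ (S.h x).zero_mem)
  obtain ⟨W', hW'⟩ := Submodule.exists_isCompl (S.h x ⊔ ℝ ∙ S.e)
  have hdisj : S.h x ⊓ ℝ ∙ S.e = ⊥ := by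
    rw [eq_bot_iff]
    rintro w ⟨h1, h2⟩
    obtain ⟨a, rfl⟩ := Submodule.mem_span_singleton.1 h2
    by_cases ha : a = 0
    · simp [ha]
    · exact absurd ((S.h x).smul_mem a⁻¹ h1) (by
        rw [smul_smul, inv_mul_cancel₀ ha, one_smul]; exact he)
  have hf1 : Module.finrank ℝ (S.h x ⊔ ℝ ∙ S.e : Submodule ℝ V) =
      Module.finrank ℝ (S.h x) + 1 := by
    have h1 := Submodule.finrank_sup_add_finrank_inf_eq (S.h x) (ℝ ∙ S.e)
    rw [hdisj, finrank_bot, finrank_span_singleton he0] at h1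
    omega
  have hf2 : Module.finrank ℝ W' = k := by
    have := Submodule.finrank_add_eq_of_isCompl hW'
    omega
  let eqv : (Fin k → ℝ) ≃ₗ[ℝ] W' := LinearEquiv.ofFinrankEq _ _ (by rw [hf2]; simp)
  let ι₀ : ℝ × (Fin k → ℝ) →ₗ[ℝ] V :=
    (LinearMap.fst ℝ ℝ (Fin k → ℝ)).smulRight S.e +
      (W'.subtype.comp eqv.toLinearMap).comp (LinearMap.snd ℝ ℝ (Fin k → ℝ))
  have hι : ∀ p, ι₀ p = p.1 • S.e + (eqv p.2 : V) := fun p => rfl
  have hinj : ∀ p, ι₀ p ∈ S.h x → p = 0 := by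
    intro p hp
    rw [hι] at hp
    have h1 : (eqv p.2 : V) ∈ S.h x ⊔ ℝ ∙ S.e := by
      have h2 : (eqv p.2 : V) = (p.1 • S.e + (eqv p.2 : V)) + (-p.1) • S.e := by
        rw [neg_smul]; abel
      rw [h2]
      exact Submodule.add_mem_sup hp (Submodule.smul_mem _ _ (Submodule.mem_span_singleton_self _))
    have h3 : (eqv p.2 : V) = 0 := by
      have := hW'.disjoint.le_bot (x := (eqv p.2 : V)) ⟨h1, (eqv p.2).2⟩
      simpa using this
    have h4 : p.2 = 0 := by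
      have : eqv p.2 = 0 := Subtype.ext h3
      simpa using this
    rw [h3, add_zero] at hp
    have h5 : p.1 = 0 := by
      by_contra ha
      exact he (by
        have := (S.h x).smul_mem p.1⁻¹ hp
        rwa [smul_smul, inv_mul_cancel₀ ha, one_smul] at this)
    exact Prod.ext h5 h4
  refine ⟨⟨LinearMap.toContinuousLinearMap ι₀, ?_, hinj, ?_⟩⟩
  · show ι₀ (1, 0) = S.e
    rw [hι]; simp
  · intro v
    refine compl_of_finrank (H := S.h x) (ι := ι₀) hinj ?_ v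
    rw [Module.finrank_prod, Module.finrank_self, Module.finrank_fin_fun]
    omega

/-- the projection along the isotropy algebra -/
lemma exists_proj {k : ℕ} (C : Cpl S x (Fin k → ℝ)) :
    ∃ π : V →L[ℝ] ℝ × (Fin k → ℝ), (∀ p, π (C.ι p) = p) ∧ ∀ v, π v = 0 ↔ v ∈ S.h x := by
  have h1 : Function.Injective ((S.h x).mkQ.comp C.ι.toLinearMap) := by
    rw [← LinearMap.ker_eq_bot, LinearMap.ker_eq_bot']
    intro p hp
    apply C.inj
    simpa using hp
  have h2 : Function.Surjective ((S.h x).mkQ.comp C.ι.toLinearMap) := by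
    intro q
    obtain ⟨v, rfl⟩ := (S.h x).mkQ_surjective q
    obtain ⟨p, hp⟩ := C.span v
    refine ⟨p, ?_⟩
    show (S.h x).mkQ (C.ι p) = (S.h x).mkQ v
    rw [← sub_eq_zero, ← map_sub, Submodule.mkQ_apply, Submodule.Quotient.mk_eq_zero]
    have := (S.h x).neg_mem hp
    rwa [neg_sub] at this
  let eqv := LinearEquiv.ofBijective ((S.h x).mkQ.comp C.ι.toLinearMap) ⟨h1, h2⟩
  refine ⟨LinearMap.toContinuousLinearMap (eqv.symm.toLinearMap.comp (S.h x).mkQ), ?_, ?_⟩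
  · intro p
    show eqv.symm ((S.h x).mkQ (C.ι p)) = p
    rw [LinearEquiv.symm_apply_eq]
    rfl
  · intro v
    show eqv.symm ((S.h x).mkQ v) = 0 ↔ _
    rw [LinearEquiv.map_eq_zero_iff, Submodule.mkQ_apply, Submodule.Quotient.mk_eq_zero]

lemma Ch.tendsto_ψ (K : Ch S E x) : Tendsto K.ψ (𝓝 x) (𝓝 K.z0) :=
  (K.ψ.continuousAt K.hx).tendsto

/-- the dimension of the orbits is lower semicontinuous -/
lemma rank_le (K : Ch S E x) {k : ℕ}
    (hk : Module.finrank ℝ (S.h x) + (k + 1) = Module.finrank ℝ V) :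
    ∀ᶠ y in 𝓝 x, Module.finrank ℝ (S.h y) ≤ Module.finrank ℝ (S.h x) := by
  obtain ⟨C⟩ := exists_cpl S x k hk
  obtain ⟨s⟩ := exists_sl K C
  filter_upwards [K.tendsto_ψ.eventually s.le_near, K.ψ.open_source.mem_nhds K.hx] with y hy hys
  rwa [K.ψ.left_inv hys] at hy

/-- nondegenerate orbits are isolated in the level sets of the momentum map -/
lemma isolated (K : Ch S E x) {k : ℕ}
    (hk : Module.finrank ℝ (S.h x) + (k + 1) = Module.finrank ℝ V) {η : V}
    (hη : η ∈ S.h x) (hnd : Ndg K η) :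
    ∀ᶠ y in 𝓝 x, Module.finrank ℝ (S.h y) = Module.finrank ℝ (S.h x) → S.mom y = S.mom x →
      ∃ δ : V, ‖δ‖ ≤ 1 ∧ S.act δ y = x := by
  obtain ⟨C⟩ := exists_cpl S x k hk
  obtain ⟨s⟩ := exists_sl K C
  obtain ⟨Yz, h1, -, -, h2⟩ := exists_fam s hη hnd
  have hcδ : ContinuousAt s.δ K.z0 := s.smδ.continuousAt
  have h3 := s.mv_src hcδ s.δ0 K.z0_mem
  have h4 : ∀ᶠ z in 𝓝 K.z0, ‖C.ι (s.δ z)‖ < 1 := by
    have h5 : ContinuousAt (fun z => ‖C.ι (s.δ z)‖) K.z0 :=
      (C.ι.continuous.continuousAt.comp hcδ).norm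
    have h6 := h5.tendsto
    simp only [s.δ0, map_zero, norm_zero] at h6
    exact h6.eventually (gt_mem_nhds one_pos)
  filter_upwards [K.tendsto_ψ.eventually h2, K.tendsto_ψ.eventually h3,
    K.tendsto_ψ.eventually h4, K.ψ.open_source.mem_nhds K.hx] with y b2 b3 b4 b5 hr hm
  rw [K.ψ.left_inv b5] at b2 b3
  refine ⟨C.ι (s.δ (K.ψ y)), b4.le, ?_⟩
  have e1 := b2 hr
  have e2 : K.f (K.ψ y) = K.f K.z0 := by
    show S.mom (K.ψ.symm (K.ψ y)) = S.mom (K.ψ.symm K.z0)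
    rw [K.ψ.left_inv b5, K.symm_z0, hm]
  rw [e2, h1] at e1
  have e3 : K.ψ (S.act (C.ι (s.δ (K.ψ y))) (K.ψ.symm (K.ψ y))) = K.ψ x := e1
  rw [K.ψ.left_inv b5] at e3
  exact K.ψ.injOn b3 K.hx e3

lemma Cpl.mm_one (C : Cpl S x (Fin 1 → ℝ)) (μ : V →L[ℝ] ℝ) :
    C.mm μ = fun _ => μ (C.j (Pi.single 0 1)) := by
  ext i
  fin_cases i
  rfl

lemma Cpl.j_one (C : Cpl S x (Fin 1 → ℝ)) (b : Fin 1 → ℝ) :
    C.j b = b 0 • C.j (Pi.single 0 1) := by
  rw [← map_smul]
  congr 1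
  ext i
  fin_cases i
  simp

/-- the derivative of the return time is tangent to the contact structure -/
lemma der_aux (K : Ch S E x) {k : ℕ} {C : Cpl S x (Fin k → ℝ)} (s : Sl K C)
    {Y : ℝ → E} {c0 : ℝ} (hY : ContDiffAt ℝ ∞ Y c0) (hY0 : Y c0 = K.z0)
    {γ : V} (hγ : γ ∈ S.H x)
    (hret : ∀ᶠ c in 𝓝 c0, K.F (C.ι (s.δ (K.F γ (Y c)))) (K.F γ (Y c)) = Y c) :
    ∀ᶠ c in 𝓝 c0, ∃ γ', HasDerivAt (fun c => C.ι (s.δ (K.F γ (Y c)))) γ' c ∧
      S.mom (K.ψ.symm (Y c)) γ' = 0 := by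
  have hz0 := K.z0_mem
  have hγx : S.act γ (K.ψ.symm K.z0) = x := by rw [K.symm_z0]; exact hγ
  have hγs : S.act γ (K.ψ.symm K.z0) ∈ K.ψ.source := by rw [hγx]; exact K.hx
  have hYt : Tendsto Y (𝓝 c0) (𝓝 K.z0) := by
    have := hY.continuousAt.tendsto
    rwa [hY0] at this
  -- smoothness of the translation
  have hFγ : ContDiffAt ℝ ∞ (K.F γ) K.z0 := by
    have h1 : ContDiffAt ℝ ∞ (fun z : E => (γ, z)) K.z0 := contDiffAt_const.prodMk contDiffAt_id
    exact ContDiffAt.comp K.z0 (g := fun p : V × E => K.F p.1 p.2) (K.smF' hz0 hγs) h1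
  have hFγ0 : K.F γ K.z0 = K.z0 := by
    show K.ψ (S.act γ (K.ψ.symm K.z0)) = K.ψ x
    rw [hγx]
  have a1 : ∀ᶠ z in 𝓝 K.z0, ContDiffAt ℝ 1 s.δ z := (s.smδ.of_le (by simp)).eventually (by simp)
  have a2 : ∀ᶠ z in 𝓝 K.z0, ContDiffAt ℝ 1 (K.F γ) z := (hFγ.of_le (by simp)).eventually (by simp)
  have a3 : ∀ᶠ c in 𝓝 c0, ContDiffAt ℝ 1 Y c := (hY.of_le (by simp)).eventually (by simp)
  have hFt : Tendsto (K.F γ) (𝓝 K.z0) (𝓝 K.z0) := by
    have := hFγ.continuousAt.tendsto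
    rwa [hFγ0] at this
  have a4 := s.mv_src s.smδ.continuousAt s.δ0 hz0
  have a5 : ∀ᶠ z in 𝓝 K.z0, z ∈ K.ψ.target ∧ S.act γ (K.ψ.symm z) ∈ K.ψ.source := by
    have h1 : Tendsto (fun z : E => (γ, z)) (𝓝 K.z0) (𝓝 (γ, K.z0)) :=
      (continuous_const.prodMk continuous_id).tendsto _
    exact h1.eventually (K.near_src hz0 hγs)
  filter_upwards [hYt.eventually a2, hYt.eventually a5, a3, (hFt.comp hYt).eventually a1,
    (hFt.comp hYt).eventually a4, eventually_eventually_nhds.2 hret] with c b1 b2 b3 b4 b5 b6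
  obtain ⟨b2, b2'⟩ := b2
  have d1 : HasDerivAt Y (deriv Y c) c := (b3.differentiableAt (by simp)).hasDerivAt
  have d2 : HasDerivAt (fun c => K.F γ (Y c)) (fderiv ℝ (K.F γ) (Y c) (deriv Y c)) c :=
    (b1.differentiableAt (by simp)).hasFDerivAt.comp_hasDerivAt c d1
  have b4' : ContDiffAt ℝ 1 s.δ (K.F γ (Y c)) := b4
  have d3 : HasDerivAt (fun c => s.δ (K.F γ (Y c)))
      (fderiv ℝ s.δ (K.F γ (Y c)) (fderiv ℝ (K.F γ) (Y c) (deriv Y c))) c :=
    (b4'.differentiableAt (by simp)).hasFDerivAt.comp_hasDerivAt c d2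
  have d4 : HasDerivAt (fun c => C.ι (s.δ (K.F γ (Y c))))
      (C.ι (fderiv ℝ s.δ (K.F γ (Y c)) (fderiv ℝ (K.F γ) (Y c) (deriv Y c)))) c :=
    C.ι.hasFDerivAt.comp_hasDerivAt c d3
  set γ' := C.ι (fderiv ℝ s.δ (K.F γ (Y c)) (fderiv ℝ (K.F γ) (Y c) (deriv Y c))) with hγ'
  refine ⟨γ', d4, ?_⟩
  set z := Y c with hz
  set G := C.ι (s.δ (K.F γ z)) + γ with hG
  have hret0 : K.F (C.ι (s.δ (K.F γ z))) (K.F γ z) = z := b6.self_of_nhds
  have hb5 : S.act (C.ι (s.δ (K.F γ z))) (K.ψ.symm (K.F γ z)) ∈ K.ψ.source := b5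
  have hGy : S.act G (K.ψ.symm z) = K.ψ.symm z := by
    have h1 : K.ψ.symm (K.F γ z) = S.act γ (K.ψ.symm z) := K.symm_F b2'
    have h2 := K.symm_F hb5
    rw [hret0, h1, ← S.add] at h2
    exact h2.symm
  have hGs : S.act G (K.ψ.symm z) ∈ K.ψ.source := by rw [hGy]; exact K.ψ.map_target b2
  have hF := K.smF' b2 hGs
  have hFd : HasFDerivAt (fun p : V × E => K.F p.1 p.2)
      (fderiv ℝ (fun p : V × E => K.F p.1 p.2) (G, z)) (G, z) :=
    (hF.differentiableAt (by simp)).hasFDerivAt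
  set D := fderiv ℝ (fun p : V × E => K.F p.1 p.2) (G, z) with hD
  -- the total derivative
  have e1 : D (γ', deriv Y c) = deriv Y c := by
    have h1 : HasDerivAt (fun c => (C.ι (s.δ (K.F γ (Y c))) + γ, Y c)) (γ', deriv Y c) c :=
      (d4.add_const γ).prodMk d1
    have h2 : HasDerivAt (fun c => K.F (C.ι (s.δ (K.F γ (Y c))) + γ) (Y c))
        (D (γ', deriv Y c)) c :=
      HasFDerivAt.comp_hasDerivAt (l := fun p : V × E => K.F p.1 p.2)
        (f := fun c => (C.ι (s.δ (K.F γ (Y c))) + γ, Y c)) c hFd h1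
    have h3 : (fun c => K.F (C.ι (s.δ (K.F γ (Y c))) + γ) (Y c)) =ᶠ[𝓝 c] Y := by
      have h4 : ∀ᶠ c' in 𝓝 c, S.act γ (K.ψ.symm (Y c')) ∈ K.ψ.source := by
        have h5 : Tendsto (fun c' => (γ, Y c')) (𝓝 c) (𝓝 (γ, z)) :=
          (continuousAt_const.prodMk b3.continuousAt).tendsto
        filter_upwards [h5.eventually (K.near_src b2 b2')] with c' hc'
        exact hc'.2
      filter_upwards [h4, b6] with c' hc' hc''
      rw [← K.F_F hc']
      exact hc''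
    exact h2.unique (d1.congr_of_eventuallyEq h3)
  -- the derivative in the point
  have e2 : ∀ u, K.α z (D (0, u)) = K.α z u := by
    intro u
    have h1 := K.αF z b2 G hGy u
    have h2 : fderiv ℝ (fun z => K.ψ (S.act G (K.ψ.symm z))) z = D.comp
        (ContinuousLinearMap.inr ℝ V E) := by
      have h3 : HasFDerivAt (fun z' : E => (G, z')) (ContinuousLinearMap.inr ℝ V E) z :=
        hasFDerivAt_prodMk_right G z
      exact (HasFDerivAt.comp z (g := fun p : V × E => K.F p.1 p.2) (f := fun z' : E => (G, z'))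
        hFd h3).fderiv
    rw [h2] at h1
    exact h1
  -- the derivative in the group
  have e3 : ∀ v, D (v, 0) = K.g z v := by
    intro v
    have h3 : HasFDerivAt (fun v' : V => (G + v', z)) (ContinuousLinearMap.inl ℝ V E) 0 := by
      have h4 : HasFDerivAt (fun v' : V => G + v') (ContinuousLinearMap.id ℝ V) 0 :=
        (hasFDerivAt_id (0:V)).const_add G
      have h5 := h4.prodMk (hasFDerivAt_const z (0:V))
      refine h5.congr_fderiv ?_
      ext v <;> rfl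
    have h6 : HasFDerivAt (fun v' : V => K.F (G + v') z) (D.comp
        (ContinuousLinearMap.inl ℝ V E)) 0 := by
      have h7 : HasFDerivAt (fun p : V × E => K.F p.1 p.2) D ((fun v' : V => (G + v', z)) 0) := by
        show HasFDerivAt (fun p : V × E => K.F p.1 p.2) D (G + 0, z)
        rw [add_zero]; exact hFd
      exact HasFDerivAt.comp (0:V) (g := fun p : V × E => K.F p.1 p.2)
        (f := fun v' : V => (G + v', z)) h7 h3
    have h8 : (fun v' : V => K.F (G + v') z) = fun v' => K.F v' z := by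
      ext1 v'
      show K.ψ (S.act (G + v') (K.ψ.symm z)) = K.ψ (S.act v' (K.ψ.symm z))
      rw [add_comm, S.add, hGy]
    rw [h8] at h6
    have h9 := h6.unique (K.hasFDerivAt_g b2)
    exact DFunLike.congr_fun h9 v
  have e4 : D (γ', deriv Y c) = D (γ', 0) + D (0, deriv Y c) := by
    rw [← map_add]; simp
  have e5 := congrArg (K.α z) e4
  rw [e1, map_add, e2, e3] at e5
  have e6 : K.α z (K.g z γ') = S.mom (K.ψ.symm z) γ' := K.αg z b2 γ'
  rw [e6] at e5
  linarith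

/-- local data at nondegenerate orbits of dimension two -/
theorem exists_loc2 (K : Ch S E x)
    (hk : Module.finrank ℝ (S.h x) + (1 + 1) = Module.finrank ℝ V) {η : V}
    (hη : η ∈ S.h x) (hnd : Ndg K η) {Cs : Set M}
    (hC : ∀ y, y ∈ Cs ↔ Module.finrank ℝ (S.h y) = Module.finrank ℝ (S.h x)) :
    Nonempty (Loc2 S Cs x) := by
  obtain ⟨C⟩ := exists_cpl S x 1 hk
  obtain ⟨s⟩ := exists_sl K C
  obtain ⟨π, hπι, hπ0⟩ := exists_proj C
  obtain ⟨Yz, h1, h2, h3, h4⟩ := exists_fam s hη hnd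
  have hz0 := K.z0_mem
  set w := C.j (Pi.single 0 1) with hw
  have hwι : w = C.ι (0, Pi.single 0 1) := by rw [C.ι_eq]; simp [hw]
  have hm0 : C.mm (K.f K.z0) = fun _ => S.mom x w := by
    rw [C.mm_one]
    have : K.f K.z0 = S.mom x := by
      show S.mom (K.ψ.symm K.z0) = _
      rw [K.symm_z0]
    rw [this]
  let cst : ℝ →L[ℝ] (Fin 1 → ℝ) := ContinuousLinearMap.pi fun _ => ContinuousLinearMap.id ℝ ℝ
  have hcst : ∀ c : ℝ, cst c = fun _ => c := fun c => rfl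
  have hcst0 : cst (S.mom x w) = C.mm (K.f K.z0) := by rw [hm0, hcst]
  have hYc : ContDiffAt ℝ ∞ (fun c : ℝ => Yz (cst c)) (S.mom x w) := by
    have h5 : ContDiffAt ℝ ∞ Yz (cst (S.mom x w)) := by rw [hcst0]; exact h2
    exact ContDiffAt.comp (S.mom x w) (g := Yz) (f := cst) h5 cst.contDiff.contDiffAt
  have hY0 : Yz (cst (S.mom x w)) = K.z0 := by rw [hcst0, h1]
  have hcstt : Tendsto cst (𝓝 (S.mom x w)) (𝓝 (C.mm (K.f K.z0))) := by
    have := cst.continuous.tendsto (S.mom x w)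
    rwa [hcst0] at this
  have hYt : Tendsto (fun c : ℝ => Yz (cst c)) (𝓝 (S.mom x w)) (𝓝 K.z0) := by
    have := hYc.continuousAt.tendsto
    rwa [hY0] at this
  have hcδ : ContinuousAt s.δ K.z0 := s.smδ.continuousAt
  refine ⟨{
    w := w
    A := (ContinuousLinearMap.fst ℝ ℝ (Fin 1 → ℝ)).comp π
    B := (ContinuousLinearMap.proj (R := ℝ) 0).comp
      ((ContinuousLinearMap.snd ℝ ℝ (Fin 1 → ℝ)).comp π)
    Ae := ?_
    Aw := ?_
    Be := ?_
    Bw := ?_
    h_iff := ?_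
    Y := fun c => K.ψ.symm (Yz (cst c))
    δ := fun y => C.ι (s.δ (K.ψ y))
    δW := ?_
    δ0 := ?_
    Y0 := ?_
    Yc := ?_
    loc := ?_
    disc := ?_
    der := ?_ }⟩
  · show (π S.e).1 = 1
    rw [← C.ιe, hπι]
  · show (π w).1 = 0
    rw [hwι, hπι]
  · show (π S.e).2 0 = 0
    rw [← C.ιe, hπι]; rfl
  · show (π w).2 0 = 1
    rw [hwι, hπι]; simp
  · intro v
    rw [← hπ0]
    show π v = 0 ↔ (π v).1 = 0 ∧ (π v).2 0 = 0
    constructor
    · intro h; rw [h]; exact ⟨rfl, rfl⟩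
    · rintro ⟨ha, hb⟩
      refine Prod.ext ha ?_
      ext i
      fin_cases i
      exact hb
  · intro y
    show C.ι (s.δ (K.ψ y)) = (π (C.ι (s.δ (K.ψ y)))).1 • S.e +
      (π (C.ι (s.δ (K.ψ y)))).2 0 • w
    rw [hπι]
    conv_lhs => rw [C.ι_eq, C.j_one]
  · show C.ι (s.δ K.z0) = 0
    rw [s.δ0, map_zero]
  · show K.ψ.symm (Yz (cst (S.mom x w))) = x
    rw [hY0, K.symm_z0]
  · have g1 : ∀ᶠ c in 𝓝 (S.mom x w), ContDiffAt ℝ 1 (fun c : ℝ => Yz (cst c)) c :=
      (hYc.of_le (by simp)).eventually (by simp)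
    filter_upwards [g1, hcstt.eventually h3, hYt.eventually (K.ψ.open_target.mem_nhds hz0)] with
      c b1 b2 b3
    refine ⟨?_, ?_, ?_⟩
    · exact ContinuousAt.comp (f := fun c : ℝ => Yz (cst c)) (g := K.ψ.symm)
        (K.ψ.continuousAt_symm b3) b1.continuousAt
    · rw [hC]; exact b2.1
    · have := congrFun b2.2 0
      exact this
  · filter_upwards [K.tendsto_ψ.eventually h4, K.tendsto_ψ.eventually (s.mv_src hcδ s.δ0 hz0),
      K.ψ.open_source.mem_nhds K.hx] with y b1 b2 b3 hyC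
    rw [K.ψ.left_inv b3] at b1 b2
    have e1 := b1 ((hC y).1 hyC)
    have e2 : C.mm (K.f (K.ψ y)) = cst (S.mom y w) := by
      rw [C.mm_one, hcst]
      have : K.f (K.ψ y) = S.mom y := by
        show S.mom (K.ψ.symm (K.ψ y)) = _
        rw [K.ψ.left_inv b3]
      rw [this]
    rw [e2] at e1
    have e3 : K.ψ (S.act (C.ι (s.δ (K.ψ y))) (K.ψ.symm (K.ψ y))) = Yz (cst (S.mom y w)) := e1
    rw [K.ψ.left_inv b3] at e3
    show S.act (C.ι (s.δ (K.ψ y))) y = K.ψ.symm (Yz (cst (S.mom y w)))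
    rw [← e3, K.ψ.left_inv b2]
  · obtain ⟨r, hr, hd⟩ := s.disc
    refine ⟨r / (‖π‖ + 1), div_pos hr (by positivity), ?_⟩
    filter_upwards [K.tendsto_ψ.eventually hd, K.ψ.open_source.mem_nhds K.hx] with y b1 b2 a b hn hy
    have hι : C.ι (a, fun _ => b) = a • S.e + b • w := by
      rw [C.ι_eq, C.j_one]
    have hp : ‖(a, (fun _ => b : Fin 1 → ℝ))‖ < r := by
      have g1 : π (a • S.e + b • w) = (a, fun _ => b) := by rw [← hι, hπι]
      rw [← g1]
      have g2 := π.le_opNorm (a • S.e + b • w)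
      have g3 : ‖π‖ * ‖a • S.e + b • w‖ ≤ (‖π‖ + 1) * ‖a • S.e + b • w‖ := by
        gcongr; linarith
      have g4 : (‖π‖ + 1) * ‖a • S.e + b • w‖ < (‖π‖ + 1) * (r / (‖π‖ + 1)) := by
        apply mul_lt_mul_of_pos_left hn
        positivity
      have g5 : (‖π‖ + 1) * (r / (‖π‖ + 1)) = r := by
        field_simp
      linarith
    have hF : K.F (C.ι (a, fun _ => b)) (K.ψ y) = K.ψ y := by
      show K.ψ (S.act (C.ι (a, fun _ => b)) (K.ψ.symm (K.ψ y))) = K.ψ y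
      rw [K.ψ.left_inv b2, hι, hy]
    have := b1 _ hp hF
    exact ⟨congrArg Prod.fst this, congrFun (congrArg Prod.snd this) 0⟩
  · intro γ hγ
    have hγx : S.act γ (K.ψ.symm K.z0) = x := by rw [K.symm_z0]; exact hγ
    have hγs : S.act γ (K.ψ.symm K.z0) ∈ K.ψ.source := by rw [hγx]; exact K.hx
    have hFγc : ContinuousAt (K.F γ) K.z0 := by
      have h1 : ContDiffAt ℝ ∞ (fun z : E => (γ, z)) K.z0 := contDiffAt_const.prodMk contDiffAt_id
      exact (ContDiffAt.comp K.z0 (g := fun p : V × E => K.F p.1 p.2)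
        (K.smF' hz0 hγs) h1).continuousAt
    have hFγ0 : K.F γ K.z0 = K.z0 := by
      show K.ψ (S.act γ (K.ψ.symm K.z0)) = K.ψ x
      rw [hγx]
    have hFt : Tendsto (K.F γ) (𝓝 K.z0) (𝓝 K.z0) := by
      have := hFγc.tendsto
      rwa [hFγ0] at this
    have a5 : ∀ᶠ z in 𝓝 K.z0, z ∈ K.ψ.target ∧ S.act γ (K.ψ.symm z) ∈ K.ψ.source := by
      have h1 : Tendsto (fun z : E => (γ, z)) (𝓝 K.z0) (𝓝 (γ, K.z0)) :=
        (continuous_const.prodMk continuous_id).tendsto _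
      exact h1.eventually (K.near_src hz0 hγs)
    refine der_aux K s hYc hY0 hγ ?_
    filter_upwards [(hFt.comp hYt).eventually h4, hcstt.eventually h3, hYt.eventually a5] with
      c b1 b2 b3
    have hsy : K.ψ.symm (K.F γ (Yz (cst c))) = S.act γ (K.ψ.symm (Yz (cst c))) := K.symm_F b3.2
    have e1 := b1 (by
      show Module.finrank ℝ (S.h (K.ψ.symm (K.F γ (Yz (cst c))))) = _
      rw [hsy, S.h_act]; exact b2.1)
    have e2 : C.mm (K.f (K.F γ (Yz (cst c)))) = cst c := by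
      rw [K.f_F b3.2, b2.2]
    have e3 : K.F (C.ι (s.δ (K.F γ (Yz (cst c))))) (K.F γ (Yz (cst c))) =
      Yz (C.mm (K.f (K.F γ (Yz (cst c))))) := e1
    rw [e2] at e3
    exact e3

/-- **The abstract theorem.** -/
theorem abs_main (S : Sys V M) [T2Space M] [CompactSpace M] {d : ℕ}
    (hd : ∀ x, Module.finrank ℝ (S.h x) ≤ d) (hne : ∃ x, Module.finrank ℝ (S.h x) = d)
    (K : ∀ x, Ch S E x)
    (hnd : ∀ x, Module.finrank ℝ (S.h x) = d → ∃ η ∈ S.h x, Ndg (K x) η)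
    (hdV : Module.finrank ℝ V ≤ d + 2) :
    (∀ x, Module.finrank ℝ (S.h x) = d → IsCompact (range fun v => S.act v x)) ∧
      ∃ (y : M) (t : ℝ), t ≠ 0 ∧ S.act (t • S.e) y = y := by
  have hlt : ∀ x, ∃ k, Module.finrank ℝ (S.h x) + (k + 1) = Module.finrank ℝ V := by
    intro x
    have he : S.e ∉ S.h x := by
      intro h
      have := S.mom_h x _ h
      rw [S.mom_e] at this
      exact one_ne_zero this
    have h1 : S.h x < ⊤ := lt_top_iff_ne_top.2 (fun h => he (by rw [h]; trivial))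
    have h2 := Submodule.finrank_lt h1.ne
    exact ⟨Module.finrank ℝ V - Module.finrank ℝ (S.h x) - 1, by omega⟩
  have hA : ∀ z, Module.finrank ℝ (S.h z) = d → ∀ᶠ y in 𝓝 z, Module.finrank ℝ (S.h y) = d →
      S.mom y = S.mom z → ∃ δ : V, ‖δ‖ ≤ 1 ∧ S.act δ y = z := by
    intro z hz
    obtain ⟨k, hk⟩ := hlt z
    obtain ⟨η, hη, hη'⟩ := hnd z hz
    have := isolated (K z) hk hη hη'
    rw [hz] at this
    exact this
  have hcpt := fun x (hx : Module.finrank ℝ (S.h x) = d) => S.compact_orbit hd hA hx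
  refine ⟨fun x hx => (hcpt x hx).1, ?_⟩
  obtain ⟨x₀, hx₀⟩ := hne
  obtain ⟨k, hk⟩ := hlt x₀
  have hcase : Module.finrank ℝ V = d + 1 ∨ Module.finrank ℝ V = d + 2 := by omega
  rcases hcase with h1 | h2
  · obtain ⟨T, hT, hT'⟩ := S.closed_of_one h1 hx₀ (hcpt x₀ hx₀).2
    exact ⟨x₀, T, hT.ne', hT'⟩
  · let Cs : Set M := {x | Module.finrank ℝ (S.h x) = d}
    have hCcl : IsClosed Cs := by
      rw [← isOpen_compl_iff, isOpen_iff_mem_nhds]
      intro y hy
      have hy' : Module.finrank ℝ (S.h y) < d := lt_of_le_of_ne (hd y) hy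
      obtain ⟨k, hk⟩ := hlt y
      filter_upwards [rank_le (K y) hk] with y' hy'' h
      have h' : Module.finrank ℝ (S.h y') = d := h
      omega
    refine two S (C := Cs) (d := d) (fun y => Iff.rfl) hCcl ⟨x₀, hx₀⟩ h2
      (fun x hx => (hcpt x hx).2) (fun x hx => Classical.choice ?_)
    obtain ⟨η, hη, hη'⟩ := hnd x hx
    have hx' : Module.finrank ℝ (S.h x) = d := hx
    exact exists_loc2 (K x) (by omega) hη hη' (fun y => by
      rw [hx']; exact Iff.rfl)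

end Pool.Agent.J4.H23.WN
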