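import Mathlib
import Pool.Agent.J4.H23.WN.Act
import Pool.Agent.J4.H23.WN.Build

/-! Charts for actions of vector groups by strict contact maps. -/

open scoped Topology ContDiff Manifold
open Set Metric Bundle Filter Pool.Agent.Helper186 Pool.Agent.H826R2.Wein

noncomputable section

namespace Pool.Agent.J4.H23.WN

set_option linter.unusedSectionVars false

variable {E : Type*} [NormedAddCommGroup E] [NormedSpace ℝ E] [FiniteDimensional ℝ E]
  {P : Type*} [TopologicalSpace P] [ChartedSpace E P] [IsManifold 𝓘(ℝ, E) ∞ P]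

/-- derivative of the chart -/
def Dp (x y : P) : E →L[ℝ] E := mfderiv 𝓘(ℝ, E) 𝓘(ℝ, E) (chartAt E x) y

/-- derivative of the inverse of the chart -/
def Dq (x : P) (z : E) : E →L[ℝ] E := mfderiv 𝓘(ℝ, E) 𝓘(ℝ, E) (chartAt E x).symm z

lemma hasMFDerivAt_chart (x : P) {y : P} (hy : y ∈ (chartAt E x).source) :
    HasMFDerivAt 𝓘(ℝ, E) 𝓘(ℝ, E) (chartAt E x) y (Dp (E := E) x y) :=
  ((mdifferentiable_chart (I := 𝓘(ℝ, E)) x).mdifferentiableAt hy).hasMFDerivAt

lemma hasMFDerivAt_symm (x : P) {z : E} (hz : z ∈ (chartAt E x).target) :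
    HasMFDerivAt 𝓘(ℝ, E) 𝓘(ℝ, E) (chartAt E x).symm z (Dq (E := E) x z) :=
  ((mdifferentiable_chart (I := 𝓘(ℝ, E)) x).mdifferentiableAt_symm hz).hasMFDerivAt

lemma Dp_Dq (x : P) {z : E} (hz : z ∈ (chartAt E x).target) (u : E) :
    Dp x ((chartAt E x).symm z) (Dq x z u) = u :=
  DFunLike.congr_fun ((mdifferentiable_chart (I := 𝓘(ℝ, E)) x).comp_symm_deriv hz) u

lemma Dq_Dp (x : P) {z : E} (hz : z ∈ (chartAt E x).target) (u : E) :
    Dq x z (Dp x ((chartAt E x).symm z) u) = u := by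
  have h1 := (mdifferentiable_chart (I := 𝓘(ℝ, E)) x).symm_comp_deriv
    ((chartAt E x).map_target hz)
  have h2 : ∀ z' : E, z' = z → (Dq x z' (Dp x ((chartAt E x).symm z) u) = u) →
      Dq x z (Dp x ((chartAt E x).symm z) u) = u := by
    rintro _ rfl h; exact h
  exact h2 _ ((chartAt E x).right_inv hz) (DFunLike.congr_fun h1 u)

namespace VAct

variable {β : (x : P) → TangentSpace 𝓘(ℝ, E) x →L[ℝ] ℝ} {m : ℕ} (A : VAct β m)

/-- all generators at a point -/
def XL (x : P) : (Fin m → ℝ) →L[ℝ] E :=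
  mfderiv 𝓘(ℝ, Fin m → ℝ) 𝓘(ℝ, E) (fun θ => A.act θ x) 0

lemma XL_apply (x : P) (w : Fin m → ℝ) : A.XL x w = A.X w x := rfl

/-- the form as a map on the model space -/
def Bt (β : (x : P) → TangentSpace 𝓘(ℝ, E) x →L[ℝ] ℝ) (x : P) : E →L[ℝ] ℝ := β x

/-- the momentum map -/
def mom (x : P) : (Fin m → ℝ) →L[ℝ] ℝ := (Bt β x).comp (A.XL x)

lemma mom_apply (x : P) (w : Fin m → ℝ) : A.mom x w = A.H w x := rfl

/-- points where a generator vanishes are fixed -/
lemma fixed_of_X [T2Space P] {w : Fin m → ℝ} {x : P} (h : A.X w x = 0) (t : ℝ) :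
    A.act (t • w) x = x := by
  have h1 : ContMDiff 𝓘(ℝ, E) 𝓘(ℝ, E).tangent 1
      (fun x => (⟨x, A.X w x⟩ : TangentBundle 𝓘(ℝ, E) P)) := (A.smooth_X w).of_le (by simp)
  have h2 := isMIntegralCurve_eq_of_contMDiff (t₀ := 0) (fun t => BoundarylessManifold.isInteriorPoint) h1 (A.integral w x)
    (isMIntegralCurve_const (x := x) (v := A.X w) h) (by exact A.fam_zero w x)
  exact congrFun h2 t

lemma X_of_fixed {w : Fin m → ℝ} {x : P} (h : ∀ t : ℝ, A.act (t • w) x = x) :
    A.X w x = 0 := by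
  have h1 := A.hasMFDerivAt_fam_zero w x
  have h2 : (fun t : ℝ => A.fam w (t, x)) = fun _ => x := by
    ext1 t; exact h t
  rw [h2] at h1
  have h3 := hasMFDerivAt_unique h1 (hasMFDerivAt_const x (0:ℝ))
  have h4 := DFunLike.congr_fun h3 (1:ℝ)
  have hone : ((1 : ℝ →L[ℝ] ℝ) 1 • (A.X w x : E) : E) = A.X w x := by
    show (1:ℝ) • (A.X w x : E) = _
    rw [one_smul]
  have h5 : ((1 : ℝ →L[ℝ] ℝ) 1 • (A.X w x : E) : E) = 0 := h4
  rw [hone] at h5
  exact h5

/-- the dynamical system of the action -/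
def sys [T2Space P] (hc : IsContact β) {R : (x : P) → TangentSpace 𝓘(ℝ, E) x} (hR : IsReeb β R)
    {e : Fin m → ℝ} (he : ∀ x, A.X e x = R x) : Sys (Fin m → ℝ) P where
  act := A.act
  cont := A.smooth.continuous
  zero := A.zero
  add := A.add
  mom := A.mom
  momc := by
    rw [continuous_clm_apply]
    intro w
    exact (A.smooth_H hc.smooth w).continuous
  inv := by
    intro v x
    ext w
    simp only [A.mom_apply, A.H_act]
  e := e
  mom_e := by
    intro x
    rw [A.mom_apply]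
    show β x (A.X e x) = 1
    rw [he, hR.unit]
  h := fun x => LinearMap.ker (A.XL x).toLinearMap
  mem_h := by
    intro x w
    exact ⟨fun h t => A.fixed_of_X h t, fun h => A.X_of_fixed h⟩
  mom_h := by
    intro x w hw
    have h : A.XL x w = 0 := hw
    show Bt β x (A.XL x w) = 0
    rw [h, map_zero]

lemma chart_smF (x : P) {w : Fin m → ℝ} {z : E} (hz : z ∈ (chartAt E x).target)
    (h : A.act w ((chartAt E x).symm z) ∈ (chartAt E x).source) :
    ContDiffAt ℝ ∞ (fun p : (Fin m → ℝ) × E => chartAt E x (A.act p.1 ((chartAt E x).symm p.2)))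
      (w, z) := by
  have h1 : ContMDiffAt 𝓘(ℝ, E) 𝓘(ℝ, E) ∞ (chartAt E x).symm z :=
    (contMDiffOn_chart_symm (I := 𝓘(ℝ, E)) (n := ∞) (x := x)).contMDiffAt
      ((chartAt E x).open_target.mem_nhds hz)
  have h2 : ContMDiffAt (𝓘(ℝ, Fin m → ℝ).prod 𝓘(ℝ, E)) (𝓘(ℝ, Fin m → ℝ).prod 𝓘(ℝ, E)) ∞
      (fun p : (Fin m → ℝ) × E => (p.1, (chartAt E x).symm p.2)) (w, z) :=
    contMDiffAt_fst.prodMk (ContMDiffAt.comp (w, z) (g := (chartAt E x).symm) (f := Prod.snd)
      h1 contMDiffAt_snd)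
  have h3 : ContMDiffAt (𝓘(ℝ, Fin m → ℝ).prod 𝓘(ℝ, E)) 𝓘(ℝ, E) ∞
      (fun p : (Fin m → ℝ) × E => A.act p.1 ((chartAt E x).symm p.2)) (w, z) :=
    ContMDiffAt.comp (w, z) (g := fun p : (Fin m → ℝ) × P => A.act p.1 p.2)
      (f := fun p : (Fin m → ℝ) × E => (p.1, (chartAt E x).symm p.2)) A.smooth.contMDiffAt h2
  have h4 : ContMDiffAt 𝓘(ℝ, E) 𝓘(ℝ, E) ∞ (chartAt E x) (A.act w ((chartAt E x).symm z)) :=
    (contMDiffOn_chart (I := 𝓘(ℝ, E)) (n := ∞) (x := x)).contMDiffAt
      ((chartAt E x).open_source.mem_nhds h)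
  have h5 : ContMDiffAt (𝓘(ℝ, Fin m → ℝ).prod 𝓘(ℝ, E)) 𝓘(ℝ, E) ∞
      (fun p : (Fin m → ℝ) × E => chartAt E x (A.act p.1 ((chartAt E x).symm p.2))) (w, z) :=
    ContMDiffAt.comp (w, z) (g := chartAt E x)
      (f := fun p : (Fin m → ℝ) × E => A.act p.1 ((chartAt E x).symm p.2)) h4 h3
  rw [← modelWithCornersSelf_prod, chartedSpaceSelf_prod] at h5
  exact h5.contDiffAt

lemma chart_smf (hβ : SmoothForm β) (x : P) {z : E} (hz : z ∈ (chartAt E x).target) :
    ContDiffAt ℝ ∞ (fun z => A.mom ((chartAt E x).symm z)) z := by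
  have h0 : ContDiffOn ℝ ∞ (fun z => A.mom ((chartAt E x).symm z)) (chartAt E x).target := by
    rw [contDiffOn_clm_apply]
    intro w
    have h1 : ContMDiffOn 𝓘(ℝ, E) 𝓘(ℝ, ℝ) ∞ (fun z => A.H w ((chartAt E x).symm z))
        (chartAt E x).target :=
      (A.smooth_H hβ w).comp_contMDiffOn (contMDiffOn_chart_symm (I := 𝓘(ℝ, E)) (n := ∞) (x := x))
    exact h1.contDiffOn
  exact h0.contDiffAt ((chartAt E x).open_target.mem_nhds hz)

/-- the generators in the chart -/
lemma chart_X (x : P) {z : E} (hz : z ∈ (chartAt E x).target) :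
    HasFDerivAt (fun v => chartAt E x (A.act v ((chartAt E x).symm z)))
      ((Dp x ((chartAt E x).symm z)).comp (A.XL ((chartAt E x).symm z))) 0 := by
  set y := (chartAt E x).symm z with hy
  have hys : y ∈ (chartAt E x).source := (chartAt E x).map_target hz
  have h1 : ∀ y' : P, y' = y → HasMFDerivAt 𝓘(ℝ, E) 𝓘(ℝ, E) (chartAt E x) y' (Dp (E := E) x y) := by
    rintro _ rfl; exact hasMFDerivAt_chart x hys
  have h2 : HasMFDerivAt 𝓘(ℝ, Fin m → ℝ) 𝓘(ℝ, E) (fun v => A.act v y) 0 (A.XL y) :=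
    ((A.smooth_left y).mdifferentiableAt (by simp)).hasMFDerivAt
  have h3 := HasMFDerivAt.comp (0 : Fin m → ℝ) (g := chartAt E x) (f := fun v => A.act v y)
    (h1 _ (A.zero y)) h2
  exact h3.hasFDerivAt

/-- differential of the momentum map in the chart -/
lemma chart_df (hβ : SmoothForm β) (x : P) {z : E} (hz : z ∈ (chartAt E x).target)
    (u : E) (w : Fin m → ℝ) :
    fderiv ℝ (fun z => A.mom ((chartAt E x).symm z)) z u w =
      dForm 𝓘(ℝ, E) (A.H w) ((chartAt E x).symm z) (Dq x z u) := by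
  have h1 : HasFDerivAt (fun z => A.mom ((chartAt E x).symm z) w)
      ((ContinuousLinearMap.apply ℝ ℝ w).comp
        (fderiv ℝ (fun z => A.mom ((chartAt E x).symm z)) z)) z :=
    (ContinuousLinearMap.apply ℝ ℝ w).hasFDerivAt.comp z
      ((A.chart_smf hβ x hz).differentiableAt (by simp)).hasFDerivAt
  have h2 : HasMFDerivAt 𝓘(ℝ, E) 𝓘(ℝ, ℝ) (A.H w) ((chartAt E x).symm z)
      (mfderiv 𝓘(ℝ, E) 𝓘(ℝ, ℝ) (A.H w) ((chartAt E x).symm z)) :=
    ((A.smooth_H hβ w).mdifferentiableAt (by simp)).hasMFDerivAt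
  have h3 := (HasMFDerivAt.comp z h2 (hasMFDerivAt_symm x hz)).hasFDerivAt
  have h4 := h1.unique h3
  exact DFunLike.congr_fun h4 u

/-- the chart data -/
def chart [T2Space P] (hc : IsContact β) {R : (x : P) → TangentSpace 𝓘(ℝ, E) x}
    (hR : IsReeb β R) {e : Fin m → ℝ} (he : ∀ x, A.X e x = R x) (x : P) :
    Ch (A.sys hc hR he) E x where
  ψ := chartAt E x
  hx := mem_chart_source E x
  smF := fun w z hz h => A.chart_smF x hz h
  smf := fun z hz => A.chart_smf hc.smooth x hz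
  h_iff := by
    intro z hz w
    have h1 : fderiv ℝ (fun v => chartAt E x (A.act v ((chartAt E x).symm z))) 0 w =
        Dp x ((chartAt E x).symm z) (A.XL ((chartAt E x).symm z) w) := by
      rw [(A.chart_X x hz).fderiv]; rfl
    have h2 : w ∈ (A.sys hc hR he).h ((chartAt E x).symm z) ↔
      A.XL ((chartAt E x).symm z) w = 0 := Iff.rfl
    rw [h2]
    show _ ↔ fderiv ℝ (fun v => chartAt E x (A.act v ((chartAt E x).symm z))) 0 w = 0
    rw [h1]
    constructor
    · intro h; rw [h, map_zero]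
    · intro h
      have h3 := Dq_Dp x hz (A.XL ((chartAt E x).symm z) w)
      rw [h, map_zero] at h3
      exact h3.symm
  crit := by
    intro z hz w hw
    have h1 : dForm 𝓘(ℝ, E) (A.H w) ((chartAt E x).symm z) = 0 := by
      refine ContinuousLinearMap.ext fun (u : E) => ?_
      have h2 := hw (Dp x ((chartAt E x).symm z) u)
      have h3 : fderiv ℝ (fun z => A.mom ((chartAt E x).symm z)) z
        (Dp x ((chartAt E x).symm z) u) w = 0 := h2
      rw [A.chart_df hc.smooth x hz, Dq_Dp x hz] at h3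
      exact h3
    have h2 := A.X_eq_of_crit hc hR h1
    show A.XL ((chartAt E x).symm z) (w - A.mom ((chartAt E x).symm z) w • e) = 0
    rw [map_sub, map_smul, sub_eq_zero]
    show A.X w ((chartAt E x).symm z) = A.H w ((chartAt E x).symm z) • A.X e ((chartAt E x).symm z)
    rw [h2, he]
  critc := by
    intro z hz w hw u
    have hw' : A.X w ((chartAt E x).symm z) = 0 := hw
    show fderiv ℝ (fun z => A.mom ((chartAt E x).symm z)) z u w = 0
    rw [A.chart_df hc.smooth x hz, A.dH hc.smooth, hw', ← extDerL_apply, map_zero]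
    exact neg_zero
  α := fun z => (Bt β ((chartAt E x).symm z)).comp (Dq x z)
  αg := by
    intro z hz w
    have h1 : fderiv ℝ (fun v => chartAt E x (A.act v ((chartAt E x).symm z))) 0 w =
        Dp x ((chartAt E x).symm z) (A.XL ((chartAt E x).symm z) w) := by
      rw [(A.chart_X x hz).fderiv]; rfl
    show (Bt β ((chartAt E x).symm z)) (Dq x z (fderiv ℝ (fun v => chartAt E x
      (A.act v ((chartAt E x).symm z))) 0 w)) = A.mom ((chartAt E x).symm z) w
    rw [h1, Dq_Dp x hz]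
    rfl
  αF := by
    intro z hz w hw u
    set y := (chartAt E x).symm z with hy
    have hys : y ∈ (chartAt E x).source := (chartAt E x).map_target hz
    have hwy : A.act w y = y := hw
    let T : E →L[ℝ] E := mfderiv 𝓘(ℝ, E) 𝓘(ℝ, E) (A.act w) y
    have h1 : ∀ y' : P, y' = y → HasMFDerivAt 𝓘(ℝ, E) 𝓘(ℝ, E) (chartAt E x) y' (Dp (E := E) x y) := by
      rintro _ rfl; exact hasMFDerivAt_chart x hys
    have h2 : HasMFDerivAt 𝓘(ℝ, E) 𝓘(ℝ, E) (A.act w) y T :=
      ((A.smooth_right w).mdifferentiableAt (by simp)).hasMFDerivAt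
    have h3 : HasMFDerivAt 𝓘(ℝ, E) 𝓘(ℝ, E) (fun y => chartAt E x (A.act w y)) y ((Dp (E := E) x y).comp T) :=
      HasMFDerivAt.comp y (g := chartAt E x) (f := A.act w) (h1 _ hwy) h2
    have h4 : HasFDerivAt (fun z => chartAt E x (A.act w ((chartAt E x).symm z)))
        (((Dp (E := E) x y).comp T).comp (Dq (E := E) x z)) z :=
      (HasMFDerivAt.comp z (g := fun y => chartAt E x (A.act w y)) (f := (chartAt E x).symm)
        h3 (hasMFDerivAt_symm x hz)).hasFDerivAt
    have h5 : fderiv ℝ (fun z => chartAt E x (A.act w ((chartAt E x).symm z))) z u =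
        Dp x y (T (Dq x z u)) := by
      rw [h4.fderiv]; rfl
    show Bt β y (Dq x z (fderiv ℝ (fun z => chartAt E x (A.act w ((chartAt E x).symm z))) z u)) =
      Bt β y (Dq x z u)
    rw [h5, Dq_Dp x hz]
    have h6 : ∀ y' : P, y' = y → (Bt β y' (T (Dq x z u)) = Bt β y (Dq x z u)) →
        Bt β y (T (Dq x z u)) = Bt β y (Dq x z u) := by
      rintro _ rfl h; exact h
    exact h6 _ hwy (A.strict w y (Dq x z u))

end VAct

end Pool.Agent.J4.H23.WN
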