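import Mathlib
import Pool.Agent.H826R2.Wein.Stmt

/-! Definitions: abelian symmetries of Reeb flows. -/

open scoped Topology ContDiff Manifold
open Set Pool.Agent.H826R2.WStmt

noncomputable section

namespace Pool.Agent.J4.H23.WN.Stmt

variable {E : Type*} [NormedAddCommGroup E] [NormedSpace ℝ E]
  {M : Type*} [TopologicalSpace M] [ChartedSpace E M]

/-- A smooth action of the vector group `ℝ^m` on `M` by maps preserving the contact form `α`, such
that the Reeb field `R` generates the action of the one-parameter group `t ↦ t e`. -/
structure ReebAction (α : M → Cov E) (R : M → E) (m : ℕ) where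
  act : (Fin m → ℝ) → M → M
  smooth : SmoothAct E act
  zero : ∀ x, act 0 x = x
  add : ∀ v w x, act (v + w) x = act v (act w x)
  strict : ∀ v, pull (act v) α = α
  e : Fin m → ℝ
  reeb : ∀ x, D (E' := E) (fun v => act v x) 0 e = R x

namespace ReebAction

variable {α : M → Cov E} {R : M → E} {m : ℕ} (A : ReebAction α R m)

/-- the infinitesimal generator `X_w` -/
def gen (w : Fin m → ℝ) (x : M) : E := D (E' := E) (fun v => A.act v x) 0 w

/-- the momentum `α(X_w)` -/
def mom (w : Fin m → ℝ) (x : M) : ℝ := ev (α x) (A.gen w x)

/-- the differential of the momentum, in the chart at the point -/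
def dMom (w : Fin m → ℝ) (x : M) (v : E) : ℝ :=
  fderiv ℝ (A.mom w ∘ (chartAt E x).symm) (chartAt E x x) v

/-- the second derivative of the momentum, in the chart at the point -/
def hess (w : Fin m → ℝ) (x : M) (v u : E) : ℝ :=
  fderiv ℝ (fderiv ℝ (A.mom w ∘ (chartAt E x).symm)) (chartAt E x x) v u

/-- the tangent space of the common level set of the momenta -/
def InKer (x : M) (v : E) : Prop := ∀ w, A.dMom w x v = 0

/-- The point `x` is nondegenerate: for some element `η` of its isotropy algebra the only vectors of
the common kernel of the differentials of the momenta in the kernel of the restriction of the Hessian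
of the momentum of `η` are the vectors tangent to the orbit. -/
def IsNondegenerate (x : M) : Prop :=
  ∃ η, A.gen η x = 0 ∧ ∀ v, A.InKer x v → (∀ u, A.InKer x u → A.hess η x v u = 0) →
    ∃ w, v = A.gen w x

/-- the dimension of the orbit -/
def orbitDim (x : M) : ℕ :=
  Module.finrank ℝ (Submodule.span ℝ (range fun w => A.gen w x))

/-- the orbit of `x` has minimal dimension -/
def IsMinimal (x : M) : Prop := ∀ y, A.orbitDim x ≤ A.orbitDim y

end ReebAction

end Pool.Agent.J4.H23.WN.Stmt
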