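import Mathlib
import Pool.Agent.H826R2.Wein.Bridge
import Pool.Agent.J4.H23.WN.MChart
import Pool.Agent.J4.H23.WN.Stmt

/-! Abelian symmetries of Reeb flows with nondegenerate orbits of minimal dimension. -/

open scoped Topology ContDiff Manifold
open Set Metric Bundle Filter Pool.Agent.Helper186 Pool.Agent.H826R2.WStmt

noncomputable section

namespace Pool.Agent.J4.H23.WN

set_option linter.unusedSectionVars false

open Stmt

variable {E : Type*} [NormedAddCommGroup E] [NormedSpace ℝ E] [FiniteDimensional ℝ E]
  {M : Type*} [TopologicalSpace M] [ChartedSpace E M] [IsManifold 𝓘(ℝ, E) ∞ M]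
  {α : M → Cov E} {R : M → E} {m : ℕ}

/-- conversion -/
def toV (A : ReebAction α R m) : VAct (toForm α) m where
  act := A.act
  smooth := A.smooth
  zero := A.zero
  add := A.add
  strict := fun θ x u => by
    have h := congrFun (A.strict θ) x
    have h2 := congrArg (fun a : Cov E => ev a (u : E)) h
    exact h2

lemma toV_X (A : ReebAction α R m) (w : Fin m → ℝ) (x : M) : (toV A).X w x = A.gen w x := rfl

lemma toV_H (A : ReebAction α R m) (w : Fin m → ℝ) (x : M) : (toV A).H w x = A.mom w x := rfl

lemma orbitDim_add (A : ReebAction α R m) (x : M) :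
    A.orbitDim x + Module.finrank ℝ (LinearMap.ker ((toV A).XL x).toLinearMap) = m := by
  have h1 : Submodule.span ℝ (range fun w => A.gen w x) =
      LinearMap.range ((toV A).XL x).toLinearMap := by
    have : (range fun w => A.gen w x) = (LinearMap.range ((toV A).XL x).toLinearMap : Set E) := by
      ext u
      constructor
      · rintro ⟨w, rfl⟩; exact ⟨w, rfl⟩
      · rintro ⟨w, rfl⟩; exact ⟨w, rfl⟩
    rw [this, Submodule.span_eq]
  unfold ReebAction.orbitDim
  rw [h1, LinearMap.finrank_range_add_finrank_ker]
  simp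

/-- the derivative of the chart at its centre is the identity -/
lemma Dp_self (x : M) (u : E) : Dp (E := E) x x u = u := by
  have h1 : HasMFDerivAt 𝓘(ℝ, E) 𝓘(ℝ, E) (chartAt E x) x (ContinuousLinearMap.id ℝ E) := by
    refine ⟨(chartAt E x).continuousAt (mem_chart_source E x), ?_⟩
    have h2 : HasFDerivWithinAt (fun z : E => z) (ContinuousLinearMap.id ℝ E)
        (range 𝓘(ℝ, E)) (extChartAt 𝓘(ℝ, E) x x) := hasFDerivWithinAt_id _ _
    refine h2.congr_of_eventuallyEq ?_ ?_
    · have h3 : (chartAt E x).target ∈ 𝓝[range 𝓘(ℝ, E)] (extChartAt 𝓘(ℝ, E) x x) := by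
        apply mem_nhdsWithin_of_mem_nhds
        exact (chartAt E x).open_target.mem_nhds (mem_chart_target E x)
      filter_upwards [h3] with z hz
      simp only [writtenInExtChartAt, Function.comp, mfld_simps]
      exact (chartAt E x).right_inv hz
    · simp only [writtenInExtChartAt, Function.comp, mfld_simps]
  have h3 := hasMFDerivAt_unique (hasMFDerivAt_chart x (mem_chart_source E x)) h1
  exact DFunLike.congr_fun h3 u

/-- **Main theorem.** -/
theorem exists_periodic_abelian [T2Space M] [CompactSpace M] [Nonempty M]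
    (hα : IsContact α) (hR : IsReeb α R) (A : ReebAction α R m)
    (hnd : ∀ x, A.IsMinimal x → A.IsNondegenerate x)
    (hm : m ≤ 3 ∨ ∃ x, A.orbitDim x ≤ 2) :
    (∀ x, A.IsMinimal x → IsCompact (range fun v => A.act v x)) ∧
      ∃ (c : ℝ → M) (T : ℝ), IsPeriodicOrbit R c T := by
  have hc := hα.toWein
  have hR' := hR.toWein
  have he : ∀ x, (toV A).X A.e x = (R x : TangentSpace 𝓘(ℝ, E) x) := A.reeb
  let S := (toV A).sys hc hR' he
  have hdim : ∀ x, A.orbitDim x + Module.finrank ℝ (S.h x) = m := orbitDim_add A
  -- the maximal dimension of the isotropy algebras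
  obtain ⟨x₀, hx₀⟩ : ∃ x₀, A.IsMinimal x₀ := by
    let a : ℕ → Prop := fun n => ∃ x, A.orbitDim x = n
    have ha : ∃ n, a n := ⟨_, Classical.arbitrary M, rfl⟩
    classical
    obtain ⟨x₀, h0⟩ := Nat.find_spec ha
    refine ⟨x₀, fun y => ?_⟩
    rw [h0]
    exact Nat.find_min' ha ⟨y, rfl⟩
  set d := Module.finrank ℝ (S.h x₀) with hd
  have hle : ∀ x, Module.finrank ℝ (S.h x) ≤ d := by
    intro x
    have h1 := hdim x
    have h2 := hdim x₀
    have h3 := hx₀ x
    omega
  have hmin : ∀ x, Module.finrank ℝ (S.h x) = d → A.IsMinimal x := by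
    intro x hx y
    have h1 := hdim x
    have h2 := hdim x₀
    have h3 := hx₀ y
    omega
  have hmin' : ∀ x, A.IsMinimal x → Module.finrank ℝ (S.h x) = d := by
    intro x hx
    have h1 := hdim x
    have h2 := hdim x₀
    have h3 := hx x₀
    have h4 := hx₀ x
    omega
  have hnd' : ∀ x, Module.finrank ℝ (S.h x) = d →
      ∃ η ∈ S.h x, Ndg ((toV A).chart hc hR' he x) η := by
    intro x hx
    obtain ⟨η, hη, h1⟩ := hnd x (hmin x hx)
    refine ⟨η, hη, ?_⟩
    set K := (toV A).chart hc hR' he x with hK
    have hz0 := K.z0_mem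
    -- first derivatives
    have f1 : ∀ {z : E}, z ∈ K.ψ.target → ∀ (v : E) (w : Fin m → ℝ), fderiv ℝ K.f z v w =
        fderiv ℝ (A.mom w ∘ (chartAt E x).symm) z v := by
      intro z hz v w
      have g1 : HasFDerivAt (fun z => K.f z w)
          ((ContinuousLinearMap.apply ℝ ℝ w).comp (fderiv ℝ K.f z)) z :=
        (ContinuousLinearMap.apply ℝ ℝ w).hasFDerivAt.comp z
          ((K.smf' hz).differentiableAt (by simp)).hasFDerivAt
      have g2 : (fun z => K.f z w) = A.mom w ∘ (chartAt E x).symm := rfl
      rw [g2] at g1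
      rw [g1.fderiv]
      rfl
    have f2 : ∀ (v u : E), fderiv ℝ (fderiv ℝ K.f) K.z0 v u η = A.hess η x v u := by
      intro v u
      have g0 : ContDiffAt ℝ ∞ (fderiv ℝ K.f) K.z0 := (K.smf' hz0).fderiv_right (by simp)
      have g1 : HasFDerivAt (fderiv ℝ K.f) (fderiv ℝ (fderiv ℝ K.f) K.z0) K.z0 :=
        (g0.differentiableAt (by simp)).hasFDerivAt
      have hs : ContDiffAt ℝ ∞ (A.mom η ∘ (chartAt E x).symm) K.z0 :=
        (K.smf' hz0).clm_apply contDiffAt_const
      have g0' : ContDiffAt ℝ ∞ (fderiv ℝ (A.mom η ∘ (chartAt E x).symm)) K.z0 :=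
        hs.fderiv_right (by simp)
      have g1' : HasFDerivAt (fderiv ℝ (A.mom η ∘ (chartAt E x).symm))
          (fderiv ℝ (fderiv ℝ (A.mom η ∘ (chartAt E x).symm)) K.z0) K.z0 :=
        (g0'.differentiableAt (by simp)).hasFDerivAt
      have g2 := (g1.clm_apply (hasFDerivAt_const u K.z0)).clm_apply (hasFDerivAt_const η K.z0)
      have g2' := g1'.clm_apply (hasFDerivAt_const u K.z0)
      have g3 : (fun z => fderiv ℝ (A.mom η ∘ (chartAt E x).symm) z u) =ᶠ[𝓝 K.z0]
          (fun z => fderiv ℝ K.f z u η) := by
        filter_upwards [K.ψ.open_target.mem_nhds hz0] with z hz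
        rw [f1 hz]
      have g4 := g2'.unique (g2.congr_of_eventuallyEq g3)
      have g5 := DFunLike.congr_fun g4 v
      simp at g5
      exact g5.symm
    intro v hv hvu
    obtain ⟨w, hw⟩ := h1 v (fun w => by
      have := hv w
      rw [f1 hz0] at this
      exact this) (fun u hu => by
      rw [← f2]
      refine hvu u fun w => ?_
      rw [f1 hz0]
      exact hu w)
    refine ⟨w, ?_⟩
    rw [hw]
    have g1 : K.g K.z0 w = Dp x ((chartAt E x).symm K.z0) ((toV A).XL ((chartAt E x).symm K.z0) w) := by
      have := ((toV A).chart_X x (z := K.z0) hz0).fderiv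
      show fderiv ℝ (fun v => chartAt E x ((toV A).act v ((chartAt E x).symm K.z0))) 0 w = _
      rw [this]; rfl
    rw [g1]
    have g2 : (chartAt E x).symm K.z0 = x := K.symm_z0
    rw [g2, Dp_self]
    rfl
  have hrank : Module.finrank ℝ (Fin m → ℝ) ≤ d + 2 := by
    rw [Module.finrank_fin_fun]
    have h0 := hdim x₀
    rcases hm with h3 | ⟨x, hx⟩
    · -- critical points of a momentum
      by_contra hcon
      have hm3 : m = 3 := by omega
      have hd0 : d = 0 := by omega
      obtain ⟨w, hw⟩ : ∃ w : Fin m → ℝ, w ∉ (Submodule.span ℝ {A.e} : Submodule ℝ (Fin m → ℝ)) := by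
        by_contra h
        push Not at h
        have h1 : (Submodule.span ℝ {A.e} : Submodule ℝ (Fin m → ℝ)) = ⊤ :=
          Submodule.eq_top_iff'.2 h
        have h2 := finrank_span_le_card (R := ℝ) ({A.e} : Set (Fin m → ℝ))
        rw [h1, finrank_top, Module.finrank_fin_fun] at h2
        simp at h2
        omega
      have hcont : Continuous ((toV A).H w) := ((toV A).smooth_H hc.smooth w).continuous
      obtain ⟨x, -, hx⟩ := isCompact_univ.exists_isMaxOn univ_nonempty hcont.continuousOn
      have hmx : IsLocalMax ((toV A).H w) x := hx.isLocalMax univ_mem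
      have hcrit : dForm 𝓘(ℝ, E) ((toV A).H w) x = 0 := by
        have hz0 := ((toV A).chart hc hR' he x).z0_mem
        have hz0' : chartAt E x x ∈ (chartAt E x).target := hz0
        have hsy : (chartAt E x).symm (chartAt E x x) = x :=
          (chartAt E x).left_inv (mem_chart_source E x)
        have h1 : IsLocalMax (fun z => (toV A).H w ((chartAt E x).symm z)) (chartAt E x x) := by
          have h2 : Tendsto (chartAt E x).symm (𝓝 (chartAt E x x)) (𝓝 x) := by
            have := ((chartAt E x).continuousAt_symm hz0').tendsto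
            rwa [hsy] at this
          have h3 := h2.eventually hmx
          filter_upwards [h3] with z hz
          rw [hsy]; exact hz
        have h4 := h1.fderiv_eq_zero
        refine ContinuousLinearMap.ext fun (u : E) => ?_
        have h5 := (toV A).chart_df hc.smooth x hz0' (Dp (E := E) x x u) w
        have h6 : fderiv ℝ (fun z => (toV A).mom ((chartAt E x).symm z)) (chartAt E x x)
            (Dp (E := E) x x u) w = 0 := by
          have g1 : HasFDerivAt (fun z => (toV A).mom ((chartAt E x).symm z) w)
              ((ContinuousLinearMap.apply ℝ ℝ w).comp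
                (fderiv ℝ (fun z => (toV A).mom ((chartAt E x).symm z)) (chartAt E x x)))
              (chartAt E x x) :=
            (ContinuousLinearMap.apply ℝ ℝ w).hasFDerivAt.comp (chartAt E x x)
              (((toV A).chart_smf hc.smooth x hz0').differentiableAt (by simp)).hasFDerivAt
          have g2 : (fun z => (toV A).mom ((chartAt E x).symm z) w) =
            fun z => (toV A).H w ((chartAt E x).symm z) := rfl
          rw [g2] at g1
          have g3 := g1.fderiv.symm.trans h4
          exact DFunLike.congr_fun g3 (Dp (E := E) x x u)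
        rw [h6] at h5
        have h7 : Dq (E := E) x (chartAt E x x) (Dp (E := E) x x u) = u := by
          have := Dq_Dp (E := E) x hz0' u
          rwa [hsy] at this
        rw [h7, hsy] at h5
        exact h5.symm
      have hX := (toV A).X_eq_of_crit hc hR' hcrit
      have hmem : w - (toV A).H w x • A.e ∈ S.h x := by
        show (toV A).XL x (w - (toV A).H w x • A.e) = 0
        rw [map_sub, map_smul, sub_eq_zero]
        show (toV A).X w x = (toV A).H w x • (toV A).X A.e x
        rw [hX, he]
      have hd1 : Module.finrank ℝ (S.h x) = 0 := by have := hle x; omega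
      have hbot : S.h x = ⊥ := Submodule.finrank_eq_zero.1 hd1
      rw [hbot, Submodule.mem_bot, sub_eq_zero] at hmem
      exact hw (by rw [hmem]; exact Submodule.smul_mem _ _ (Submodule.mem_span_singleton_self _))
    · have h1 := hdim x
      have h2 := hle x
      omega
  obtain ⟨h1, y, t, ht, hy⟩ := abs_main S hle ⟨x₀, rfl⟩ (fun x => (toV A).chart hc hR' he x)
    hnd' hrank
  refine ⟨fun x hx => h1 x (hmin' x hx), fun s => A.act (s • A.e) y, |t|, ?_, ?_, ?_⟩
  · exact abs_pos.2 ht
  · have h2 := (toV A).integral A.e y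
    have h3 : (toV A).X A.e = fun x => (R x : TangentSpace 𝓘(ℝ, E) x) := by
      funext x; exact he x
    rw [h3] at h2
    exact h2
  · intro s
    have hy' : A.act (t • A.e) y = y := hy
    have hyn : A.act (-(t • A.e)) y = y := by
      conv_lhs => rw [← hy']
      rw [← A.add, neg_add_cancel, A.zero]
    rcases abs_choice t with h | h
    · rw [h, add_smul, A.add, hy']
    · rw [h, add_smul, A.add, neg_smul, hyn]

end Pool.Agent.J4.H23.WN
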